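import Pool.Agent.Helper76.RL.Defs

/-!
# RL-FAM: the family of the routes of a routing

`L e = R.ext a b`, `Z` = union of the rectangles. `nodup`: `rt` has no repetition and is outside all rectangles, `y0`, `y1` are in the rectangles of `a ≠ b` (disjoint). `chain`, `form`: fields of `Routing` (`ne`, `out`).
`diff`: if `L e = L f` the first points are equal, in the rectangles of `a` and `c`, so `a = c`, and `b = d` by the last points. If `L e` is the reverse of `L f` then `a = d`, `b = c`: `rk a < rk b` and `rk c < rk d`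
contradict each other.
-/

namespace Pool.Agent.Helper76.RL

open Pool.Agent.Helper46.RM
open scoped Classical

variable {V : Type*} {G : SimpleGraph V} {rk : V → ℕ}

/-- the edges of `G`, each once -/
def Ed (G : SimpleGraph V) (rk : V → ℕ) : Type _ := {x : V × V // G.Adj x.1 x.2 ∧ rk x.1 < rk x.2}

theorem exists_fam (R : Routing G rk) : ∃ F : Fam (Ed G rk),
    (∀ e : Ed G rk, F.L e = R.ext e.1.1 e.1.2) ∧
      F.Z = {p | ∃ v, p ∈ rect (R.lo v) (R.hi v)} := by
  refine ⟨{ L := fun e => R.ext e.1.1 e.1.2, Z := {p | ∃ v, p ∈ rect (R.lo v) (R.hi v)},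
            nodup := ?_, chain := ?_, form := ?_, diff := ?_ }, fun _ => rfl, rfl⟩
  · rintro ⟨⟨a, b⟩, hab, hlt⟩
    have h0 := R.y0_mem a b hab hlt
    have h1 := R.y1_mem a b hab hlt
    have hout := R.out a b hab hlt
    have hne : a ≠ b := fun h => by rw [h] at hlt; exact lt_irrefl _ hlt
    have hy : R.y0 a b ≠ R.y1 a b := fun h => R.disj a b hne _ h0 (h ▸ h1)
    show (R.y0 a b :: (R.rt a b ++ [R.y1 a b])).Nodup
    rw [List.nodup_cons, List.nodup_append]
    refine ⟨?_, R.nodup a b hab hlt, List.nodup_singleton _, ?_⟩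
    · intro h
      rcases List.mem_append.mp h with h | h
      · exact hout _ h a h0
      · exact hy (List.mem_singleton.mp h)
    · intro p hp q hq hpq
      rw [List.mem_singleton.mp hq] at hpq
      exact hout p hp b (hpq ▸ h1)
  · rintro ⟨⟨a, b⟩, hab, hlt⟩
    exact R.chain a b hab hlt
  · rintro ⟨⟨a, b⟩, hab, hlt⟩
    refine ⟨R.y0 a b, R.rt a b, R.y1 a b, rfl, R.ne a b hab hlt, ⟨a, R.y0_mem a b hab hlt⟩,
      ⟨b, R.y1_mem a b hab hlt⟩, ?_⟩
    rintro p hp ⟨v, hv⟩
    exact R.out a b hab hlt p hp v hv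
  · rintro ⟨⟨a, b⟩, hab, hlt⟩ ⟨⟨c, d⟩, hcd, hlt'⟩ hne
    have h0 := R.y0_mem a b hab hlt
    have h1 := R.y1_mem a b hab hlt
    have h0' := R.y0_mem c d hcd hlt'
    have h1' := R.y1_mem c d hcd hlt'
    have huniq : ∀ {u v : V} {p : P2}, p ∈ rect (R.lo u) (R.hi u) → p ∈ rect (R.lo v) (R.hi v) →
        u = v := by
      intro u v p hu hv
      by_contra h
      exact R.disj u v h p hu hv
    constructor
    · intro h
      have h' : R.y0 a b :: (R.rt a b ++ [R.y1 a b]) = R.y0 c d :: (R.rt c d ++ [R.y1 c d]) := h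
      rw [List.cons.injEq] at h'
      obtain ⟨e1, e2⟩ := h'
      have e3 := congrArg List.getLast? e2
      rw [List.getLast?_append, List.getLast?_append] at e3
      simp only [List.getLast?_singleton, Option.some_or, Option.some.injEq] at e3
      apply hne
      have ea : a = c := huniq h0 (e1 ▸ h0')
      have eb : b = d := huniq h1 (e3 ▸ h1')
      subst ea
      subst eb
      rfl
    · intro h
      have h' : R.y0 a b :: (R.rt a b ++ [R.y1 a b]) =
          (R.y0 c d :: (R.rt c d ++ [R.y1 c d])).reverse := h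
      have h2 : (R.y0 c d :: (R.rt c d ++ [R.y1 c d])).reverse =
          R.y1 c d :: ((R.rt c d).reverse ++ [R.y0 c d]) := by
        simp
      rw [h2, List.cons.injEq] at h'
      obtain ⟨e1, e2⟩ := h'
      have e3 := congrArg List.getLast? e2
      rw [List.getLast?_append, List.getLast?_append] at e3
      simp only [List.getLast?_singleton, Option.some_or, Option.some.injEq] at e3
      have ea : a = d := huniq h0 (e1 ▸ h1')
      have eb : b = c := huniq h1 (e3 ▸ h0')
      subst ea
      subst eb
      exact lt_irrefl _ (lt_trans hlt hlt')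

end Pool.Agent.Helper76.RL
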