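import Mathlib

/-!
# RL-GEN: generic points

The product of the `Q i` is not zero; `MvPolynomial.funext_set` with the infinite sets `Ioo (c i - δ) (c i + δ)`.
-/

namespace Pool.Agent.Helper76.RL

theorem exists_generic {σ ι : Type*} [Finite ι] (c : σ → ℝ) {δ : ℝ} (hδ : 0 < δ)
    (Q : ι → MvPolynomial σ ℝ) (hQ : ∀ i, Q i ≠ 0) :
    ∃ x : σ → ℝ, (∀ i, |x i - c i| < δ) ∧ ∀ i, MvPolynomial.eval x (Q i) ≠ 0 := by
  classical
  haveI := Fintype.ofFinite ι
  by_contra hcon
  push Not at hcon
  have h1 : (∏ i, Q i) = 0 := by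
    refine MvPolynomial.funext_set (s := fun i => Set.Ioo (c i - δ) (c i + δ))
      (fun i => Set.Ioo_infinite (by linarith)) fun x hx => ?_
    obtain ⟨i, hi⟩ := hcon x fun i => by
      have h2 := hx i (Set.mem_univ i)
      rw [abs_lt]
      constructor
      · linarith [h2.1]
      · linarith [h2.2]
    rw [map_zero, map_prod]
    exact Finset.prod_eq_zero (Finset.mem_univ i) hi
  rw [Finset.prod_eq_zero_iff] at h1
  obtain ⟨i, -, hi⟩ := h1
  exact hQ i hi

end Pool.Agent.Helper76.RL
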