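import Pool.Agent.Helper76.RL.Defs

/-!
# RL-GEO: chords of a box which meet interleave

Put the centre `2 p` of the box at the origin: `sp p q τ - 2 p` is `(1, τ), (-τ, 1), (-1, -τ), (τ, -1)` for `q - p` = east, north, west, south.
For two chords which do not interleave there is a line with one chord on one side and the other chord strictly on the other side, or: the line of the first chord `A B` has both ends `C, D` of the second one
strictly on the same side, `det (B - A, C - A)` and `det (B - A, D - A)` have the same sign; then the segments are disjoint (a point `C + v (D - C)` of the second one has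
`det (B - A, . - A) ≠ 0`, a point of the first one has it `0`).
Orientation lemma (useful): number the sides east, north, west, south by 0, 1, 2, 3; for three points on the boundary at sides `d1 ≤ d2 ≤ d3`, not all on one side, with increasing coordinate on a common side, the
determinant of `(P2 - P1, P3 - P1)` is positive (all `|τ| < 1`; finitely many cases, `nlinarith`).
`chord_cross0`: four different sides; if `a, b` are not opposite then neither are `c, d`, and e.g. for `{a, b} = {east, north}` the functional `z.1 + z.2` separates the chords.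
`chord_cross1`, `chord_cross2`: all cases of `LAdj`; the orientation lemma. (With `p` as the entry side: `s1 < s3` means that the first strand is on the left looking from `a` to `p`.)
-/

namespace Pool.Agent.Helper76.RL

open Pool.Agent.Helper46.RM

private theorem dirs94 {p a : P2} (h : LAdj p a) : a = (p.1 + 1, p.2) ∨ a = (p.1, p.2 + 1) ∨
    a = (p.1 - 1, p.2) ∨ a = (p.1, p.2 - 1) := by
  obtain ⟨x, y⟩ := p
  obtain ⟨u, v⟩ := a
  rcases h with (h | h) | (h | h) <;> simp only [Prod.mk.injEq] at h ⊢ <;> omega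

private theorem turn_mem94 {p a b : P2} (ha : LAdj p a) (hb : LAdj p b) (hab : a ≠ b) :
    turn a p b = -1 ∨ turn a p b = 0 ∨ turn a p b = 1 := by
  rcases dirs94 ha with rfl | rfl | rfl | rfl <;> rcases dirs94 hb with rfl | rfl | rfl | rfl <;>
    first
    | exact absurd rfl hab
    | simp [turn]

/-- the determinant of `B - A, C - A` -/
private noncomputable def D94 (A B C : ℝ × ℝ) : ℝ :=
  (B.1 - A.1) * (C.2 - A.2) - (B.2 - A.2) * (C.1 - A.1)

private theorem D_seg94 (A B C D : ℝ × ℝ) {α β : ℝ} (h : α + β = 1) :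
    D94 A B (α • C + β • D) = α * D94 A B C + β * D94 A B D := by
  obtain rfl : β = 1 - α := by linarith
  simp only [D94, Prod.fst_add, Prod.snd_add, Prod.smul_fst, Prod.smul_snd, smul_eq_mul]
  ring

private theorem D_zero94 {A B z : ℝ × ℝ} (hz : z ∈ segment ℝ A B) : D94 A B z = 0 := by
  obtain ⟨α, β, -, -, h, rfl⟩ := hz
  rw [D_seg94 _ _ _ _ h]
  simp only [D94]
  ring

private theorem neg94 {A B C D : ℝ × ℝ} (hC : D94 A B C < 0) (hD : D94 A B D < 0) :
    ¬ (segment ℝ A B ∩ segment ℝ C D).Nonempty := by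
  rintro ⟨z, hz, hz'⟩
  have h1 := D_zero94 hz
  obtain ⟨α, β, hα, hβ, h, rfl⟩ := hz'
  rw [D_seg94 _ _ _ _ h] at h1
  rcases hα.eq_or_lt with h2 | h2
  · rw [← h2] at h1 h
    have : β = 1 := by linarith
    rw [this] at h1
    linarith
  · have h3 := mul_neg_of_pos_of_neg h2 hC
    have h4 := mul_nonpos_of_nonneg_of_nonpos hβ hD.le
    linarith

private theorem pos94 {A B C D : ℝ × ℝ} (hC : 0 < D94 A B C) (hD : 0 < D94 A B D) :
    ¬ (segment ℝ A B ∩ segment ℝ C D).Nonempty := by
  rintro ⟨z, hz, hz'⟩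
  have h1 := D_zero94 hz
  obtain ⟨α, β, hα, hβ, h, rfl⟩ := hz'
  rw [D_seg94 _ _ _ _ h] at h1
  rcases hα.eq_or_lt with h2 | h2
  · rw [← h2] at h1 h
    have : β = 1 := by linarith
    rw [this] at h1
    linarith
  · have h3 := mul_pos h2 hC
    have h4 := mul_nonneg hβ hD.le
    linarith

private theorem side1_94 {p a b : P2} (ha : LAdj p a) (hb : LAdj p b) (hab : a ≠ b)
    {s1 s2 s3 : ℝ} (h2 : |s2| < 1) :
    (s1 < s3 → D94 (sp p a s1) (sp p b s2) (sp p a s3) < 0) ∧
      (s3 < s1 → 0 < D94 (sp p a s1) (sp p b s2) (sp p a s3)) := by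
  obtain ⟨h2a, h2b⟩ := abs_lt.1 h2
  have h2a' : 0 < 1 + s2 := by linarith
  have h2b' : 0 < 1 - s2 := by linarith
  rcases dirs94 ha with rfl | rfl | rfl | rfl <;> rcases dirs94 hb with rfl | rfl | rfl | rfl <;>
    first
    | exact absurd rfl hab
    | (simp only [D94, sp]
       push_cast
       refine ⟨fun h => ?_, fun h => ?_⟩
       · nlinarith [mul_pos (sub_pos.2 h) h2a', mul_pos (sub_pos.2 h) h2b']
       · nlinarith [mul_pos (sub_pos.2 h) h2a', mul_pos (sub_pos.2 h) h2b'])

private theorem side2_94 {p a b : P2} (ha : LAdj p a) (hb : LAdj p b) (hab : a ≠ b)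
    {s1 s2 s4 : ℝ} (h1 : |s1| < 1) :
    (s4 < s2 → D94 (sp p a s1) (sp p b s2) (sp p b s4) < 0) ∧
      (s2 < s4 → 0 < D94 (sp p a s1) (sp p b s2) (sp p b s4)) := by
  obtain ⟨h1a, h1b⟩ := abs_lt.1 h1
  have h1a' : 0 < 1 + s1 := by linarith
  have h1b' : 0 < 1 - s1 := by linarith
  rcases dirs94 ha with rfl | rfl | rfl | rfl <;> rcases dirs94 hb with rfl | rfl | rfl | rfl <;>
    first
    | exact absurd rfl hab
    | (simp only [D94, sp]
       push_cast
       refine ⟨fun h => ?_, fun h => ?_⟩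
       · nlinarith [mul_pos (sub_pos.2 h) h1a', mul_pos (sub_pos.2 h) h1b']
       · nlinarith [mul_pos (sub_pos.2 h) h1a', mul_pos (sub_pos.2 h) h1b'])

private theorem orient94 {p a b d : P2} (ha : LAdj p a) (hb : LAdj p b) (hd : LAdj p d)
    (hab : a ≠ b) (had : a ≠ d) (hbd : b ≠ d) {s1 s2 s4 : ℝ} (h1 : |s1| < 1) (h2 : |s2| < 1)
    (h4 : |s4| < 1) :
    (turn a p b < turn a p d → 0 < D94 (sp p a s1) (sp p b s2) (sp p d s4)) ∧
      (turn a p d < turn a p b → D94 (sp p a s1) (sp p b s2) (sp p d s4) < 0) ∧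
      turn a p b ≠ turn a p d := by
  obtain ⟨h1a, h1b⟩ := abs_lt.1 h1
  obtain ⟨h2a, h2b⟩ := abs_lt.1 h2
  obtain ⟨h4a, h4b⟩ := abs_lt.1 h4
  have h1a' : 0 < 1 + s1 := by linarith
  have h1b' : 0 < 1 - s1 := by linarith
  have h2a' : 0 < 1 + s2 := by linarith
  have h2b' : 0 < 1 - s2 := by linarith
  have h4a' : 0 < 1 + s4 := by linarith
  have h4b' : 0 < 1 - s4 := by linarith
  have m1 := mul_pos h1a' h2a'
  have m2 := mul_pos h1a' h2b'
  have m3 := mul_pos h1b' h2a'
  have m4 := mul_pos h1b' h2b'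
  have m5 := mul_pos h1a' h4a'
  have m6 := mul_pos h1a' h4b'
  have m7 := mul_pos h1b' h4a'
  have m8 := mul_pos h1b' h4b'
  have m9 := mul_pos h2a' h4a'
  have m10 := mul_pos h2a' h4b'
  have m11 := mul_pos h2b' h4a'
  have m12 := mul_pos h2b' h4b'
  rcases dirs94 ha with rfl | rfl | rfl | rfl <;> rcases dirs94 hb with rfl | rfl | rfl | rfl <;>
    first
    | exact absurd rfl hab
    | (rcases dirs94 hd with rfl | rfl | rfl | rfl <;>
        first
        | exact absurd rfl had
        | exact absurd rfl hbd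
        | (refine ⟨fun h => ?_, fun h => ?_, ?_⟩
           · first
             | (exfalso; revert h; simp [turn]; done)
             | (clear h
                simp only [D94, sp]
                push_cast
                nlinarith [m1, m2, m3, m4, m5, m6, m7, m8, m9, m10, m11, m12])
           · first
             | (exfalso; revert h; simp [turn]; done)
             | (clear h
                simp only [D94, sp]
                push_cast
                nlinarith [m1, m2, m3, m4, m5, m6, m7, m8, m9, m10, m11, m12])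
           · simp [turn]))

private theorem cross0_94 {p a b c d : P2} (ha : LAdj p a) (hb : LAdj p b) (hc : LAdj p c)
    (hd : LAdj p d) (hab : a ≠ b) (hac : a ≠ c) (had : a ≠ d) (hbc : b ≠ c)
    (hbd : b ≠ d) {s1 s2 s3 s4 : ℝ} (h1 : |s1| < 1) (h2 : |s2| < 1) (h3 : |s3| < 1)
    (h4 : |s4| < 1) (h : (chord p a b s1 s2 ∩ chord p c d s3 s4).Nonempty) :
    turn a p b = 0 := by
  obtain ⟨c1, c2, c3⟩ := orient94 ha hb hc hab hac hbc h1 h2 h3
  obtain ⟨d1, d2, d3⟩ := orient94 ha hb hd hab had hbd h1 h2 h4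
  have tc := turn_mem94 ha hc hac
  have td := turn_mem94 ha hd had
  rcases turn_mem94 ha hb hab with t | t | t
  · exact absurd h (pos94 (c1 (by omega)) (d1 (by omega)))
  · exact t
  · exact absurd h (neg94 (c2 (by omega)) (d2 (by omega)))

theorem chord_cross0 {p a b c d : P2} (ha : LAdj p a) (hb : LAdj p b) (hc : LAdj p c)
    (hd : LAdj p d) (hab : a ≠ b) (hcd : c ≠ d) (hac : a ≠ c) (had : a ≠ d) (hbc : b ≠ c)
    (hbd : b ≠ d) {s1 s2 s3 s4 : ℝ} (h1 : |s1| < 1) (h2 : |s2| < 1) (h3 : |s3| < 1)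
    (h4 : |s4| < 1) (h : (chord p a b s1 s2 ∩ chord p c d s3 s4).Nonempty) :
    turn a p b = 0 ∧ turn c p d = 0 :=
  ⟨cross0_94 ha hb hc hd hab hac had hbc hbd h1 h2 h3 h4 h,
    cross0_94 hc hd ha hb hcd hac.symm hbc.symm had.symm hbd.symm h3 h4 h1 h2
      (by rwa [Set.inter_comm])⟩

theorem chord_cross1 {p a b d : P2} (ha : LAdj p a) (hb : LAdj p b) (hd : LAdj p d)
    (hab : a ≠ b) (had : a ≠ d) (hbd : b ≠ d) {s1 s2 s3 s4 : ℝ} (h1 : |s1| < 1)
    (h2 : |s2| < 1) (h3 : |s3| < 1) (h4 : |s4| < 1) (h13 : s1 ≠ s3)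
    (h : (chord p a b s1 s2 ∩ chord p a d s3 s4).Nonempty) :
    ¬ (s1 < s3 ↔ turn a p d < turn a p b) := by
  intro hiff
  obtain ⟨c1, c2⟩ := side1_94 ha hb hab (s1 := s1) (s3 := s3) h2
  obtain ⟨d1, d2, d3⟩ := orient94 ha hb hd hab had hbd h1 h2 h4
  rcases lt_or_gt_of_ne h13 with h5 | h5
  · exact neg94 (c1 h5) (d2 (hiff.1 h5)) h
  · have h6 : ¬ turn a p d < turn a p b := fun h7 => absurd (hiff.2 h7) (not_lt.2 h5.le)
    exact pos94 (c2 h5) (d1 (lt_of_le_of_ne (not_lt.1 h6) d3)) h

theorem chord_cross2 {p a b : P2} (ha : LAdj p a) (hb : LAdj p b)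
    (hab : a ≠ b) {s1 s2 s3 s4 : ℝ} (h1 : |s1| < 1)
    (h2 : |s2| < 1) (h3 : |s3| < 1) (h4 : |s4| < 1) (h13 : s1 ≠ s3) (h24 : s2 ≠ s4)
    (h : (chord p a b s1 s2 ∩ chord p a b s3 s4).Nonempty) :
    ¬ (s1 < s3 ↔ s4 < s2) := by
  intro hiff
  obtain ⟨c1, c2⟩ := side1_94 ha hb hab (s1 := s1) (s3 := s3) h2
  obtain ⟨d1, d2⟩ := side2_94 ha hb hab (s2 := s2) (s4 := s4) h1
  rcases lt_or_gt_of_ne h13 with h5 | h5
  · exact neg94 (c1 h5) (d1 (hiff.1 h5)) h
  · have h6 : ¬ s4 < s2 := fun h7 => absurd (hiff.2 h7) (not_lt.2 h5.le)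
    exact pos94 (c2 h5) (d2 (lt_of_le_of_ne (not_lt.1 h6) h24)) h

end Pool.Agent.Helper76.RL
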