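import Pool.Agent.Helper76.RL.Bad

/-!
# RL-LOC: without essential crossing the order is consistent at every point

`left_iff`: unfold `Left`, `key` (`Prod.Lex.toLex_lt_toLex`, `OrderDual`). Canonical `p → q`: `Left` says `code f p q < code e p q`, or equality and `code e q p < code f q p`. Since there is no essential
crossing, `ess_of_bad` excludes (`code e p q < code f p q` and `code e q p < code f q p`) and (`code f p q < code e p q` and `code f q p < code e q p`). The other case is similar.
`local1`: `left_iff` at `a, p`; by `code_thr` the codes after `a → p` begin with `turn a p b`, `turn a p d`, which are different (`turn_inj`); if `turn a p b < turn a p d` then the second alternative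
is bad. `local2`: `left_iff` at `a, p` and at `p, b`, `code_thr`.
`local0`: `EssAt a [p] b c d` (`L e` or its reverse runs `a, p, b`: take `u = a, w = b` or `u = b, w = a`; `turn_rev`), `Runs` by definition of `Thr`.
-/

namespace Pool.Agent.Helper76.RL

open Pool.Agent.Helper46.RM
open scoped Classical

variable {E : Type*}

theorem left_iff (F : Fam E) {e f : E} {p q : P2} (he : Pass (F.L e) p q)
    (hf : Pass (F.L f) p q) (hne : ¬ Ess (F.L e) (F.L f)) :
    Left (F.L e) (F.L f) p q ↔
      (code (F.L f) p q < code (F.L e) p q ∨ code (F.L e) q p < code (F.L f) q p) := by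
  have hb : ∀ P : Prop, (code (F.L f) p q < code (F.L e) p q ∧ code (F.L f) q p < code (F.L e) q p) ∨
      (code (F.L e) p q < code (F.L f) p q ∧ code (F.L e) q p < code (F.L f) q p) → P :=
    fun P h => absurd (ess_of_bad F he hf h) hne
  unfold Left key
  split_ifs with hc
  · rw [Prod.Lex.toLex_lt_toLex]
    simp only [OrderDual.toDual_lt_toDual]
    constructor
    · rintro (h | h)
      · exact Or.inl h
      · exact Or.inr h.2
    · rintro (h | h)
      · exact Or.inl h
      · rcases lt_trichotomy (code (F.L f) p q) (code (F.L e) p q) with h' | h' | h'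
        · exact Or.inl h'
        · exact Or.inr ⟨h', h⟩
        · exact hb _ (Or.inr ⟨h', h⟩)
  · rw [Prod.Lex.toLex_lt_toLex]
    simp only [OrderDual.toDual_lt_toDual]
    constructor
    · rintro (h | h)
      · exact Or.inr h
      · exact Or.inl h.2
    · rintro (h | h)
      · rcases lt_trichotomy (code (F.L e) q p) (code (F.L f) q p) with h' | h' | h'
        · exact Or.inl h'
        · exact Or.inr ⟨h', h⟩
        · exact hb _ (Or.inl ⟨h, h'⟩)
      · exact Or.inl h

theorem local1 (F : Fam E) {e f : E} {a p b d : P2} (he : Thr (F.L e) a p b)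
    (hf : Thr (F.L f) a p d) (hbd : b ≠ d) (hne : ¬ Ess (F.L e) (F.L f)) :
    Left (F.L e) (F.L f) a p ↔ turn a p d < turn a p b := by
  have he' := he.pass.1
  have hf' := hf.pass.1
  rw [left_iff F he' hf' hne]
  obtain ⟨-, h1, h2, h3⟩ := F.mid he
  obtain ⟨-, h4, h5, h6⟩ := F.mid hf
  have hne' : turn a p b ≠ turn a p d := fun h =>
    hbd (turn_inj h1.symm h2 h5 (Ne.symm h3) (Ne.symm h6) h)
  have ce := (code_thr (F.nodup e) he).1
  have cf := (code_thr (F.nodup f) hf).1
  constructor
  · intro h
    by_contra hlt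
    have hlt' : turn a p b < turn a p d := lt_of_le_of_ne (not_lt.1 hlt) hne'
    have hlt2 : code (F.L e) a p < code (F.L f) a p := by
      rw [ce, cf, List.cons_lt_cons_iff]
      exact Or.inl hlt'
    rcases h with h | h
    · exact lt_asymm h hlt2
    · exact hne (ess_of_bad F he' hf' (Or.inr ⟨hlt2, h⟩))
  · intro h
    left
    rw [ce, cf, List.cons_lt_cons_iff]
    exact Or.inl h

theorem local2 (F : Fam E) {e f : E} {a p b : P2} (he : Thr (F.L e) a p b)
    (hf : Thr (F.L f) a p b) (hne : ¬ Ess (F.L e) (F.L f)) :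
    Left (F.L e) (F.L f) a p ↔ Left (F.L e) (F.L f) p b := by
  rw [left_iff F he.pass.1 hf.pass.1 hne, left_iff F he.pass.2 hf.pass.2 hne]
  obtain ⟨ce, ce'⟩ := code_thr (F.nodup e) he
  obtain ⟨cf, cf'⟩ := code_thr (F.nodup f) hf
  rw [ce, cf, ce', cf']
  simp only [List.cons_lt_cons_iff, lt_self_iff_false, true_and, false_or]

theorem local0 (F : Fam E) {e f : E} {a p b c d : P2} (he : Thr (F.L e) a p b)
    (hf : Thr (F.L f) c p d) (hac : a ≠ c) (had : a ≠ d) (hbc : b ≠ c) (hbd : b ≠ d)
    (h1 : turn a p b = 0) (h2 : turn c p d = 0) : Ess (F.L e) (F.L f) := by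
  obtain ⟨-, -, -, hab⟩ := F.mid he
  obtain ⟨-, -, -, hcd⟩ := F.mid hf
  have hr : Runs (F.L f) c [p] d ∨ Runs (F.L f).reverse c [p] d := by
    rcases hf with h | h
    · exact Or.inl h
    · right
      show [c, p, d] <:+: (F.L f).reverse
      rw [← List.reverse_infix, List.reverse_reverse]
      exact h
  rcases he with h | h
  · exact ⟨a, [p], b, c, d, ⟨h1, h2, hac.symm, hbc.symm, hab, hcd⟩, h, hr⟩
  · refine ⟨b, [p], a, c, d, ⟨?_, h2, hbc.symm, hac.symm, hab.symm, hcd⟩, h, hr⟩
    rw [turn_rev, h1, neg_zero]

end Pool.Agent.Helper76.RL
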