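import Pool.Agent.Helper76.RL.Turn

/-!
# RL-TRI: concurrency of three chords is a nontrivial polynomial condition on the offsets

`σ = E × (P2 × Bool)`. For the strand `e` through the box `p` with sides `a ≠ b` the values `tau x e p a`, `tau x e p b` are `±` two different variables of `x` (`tau` at the four sides of `p`:
`x (e, (p, false))`, `x (e, (p, true))`, `- x (e, (west of p, false))`, `- x (e, (south of p, true))`); as polynomials `T e a`, `T e b`. Homogeneous coordinates (centre `2 p` at the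
origin): `P = (1, s, 1)`, `(-s, 1, 1)`, `(-1, -s, 1)`, `(s, -1, 1)`; the line through two points is `P × Q`, and a point `z` on the chord satisfies `(P × Q) · (z, 1) = 0`. `Q := det (L_e, L_f, L_g)`,
a `3 × 3` determinant of polynomials; if the three chords have a common point `z` it vanishes (`(z, 1) ≠ 0` is in the kernel: `Matrix.exists_mulVec_eq_zero_iff` or Cramer by `linear_combination`).
`Q ≠ 0`: it suffices to find real values `x` with `det ≠ 0`; the six values `tau x e p a, tau x e p b, tau x f p c, ..` can be chosen arbitrarily (the variables are different as `e, f, g` are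
different and the two sides of a strand are different). For fixed sides, the vectors `L(s, t) = P(s) × Q(t)`, `s, t` real, span `ℝ^3`: for every `n ≠ 0` there are `s, t ∈ {-1, 0, 1, 2}` with
`n · L(s, t) ≠ 0` (for opposite sides and for adjacent sides, direct computation). Choose `L_e ≠ 0`, then `L_f` not parallel to `L_e` (take `n ≠ 0` orthogonal to `L_e`), then `L_g` with
`n · L_g ≠ 0` for `n = L_e × L_f`.
-/

namespace Pool.Agent.Helper76.RL

open Pool.Agent.Helper46.RM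
open scoped Classical

/-- homogeneous coordinates of the line through two points -/
private def ln52 {R : Type*} [CommRing R] (u1 u2 v1 v2 s t : R) : R × R × R :=
  ((u2 + s * u1) - (v2 + t * v1), (v1 - t * v2) - (u1 - s * u2),
    (u1 - s * u2) * (v2 + t * v1) - (u2 + s * u1) * (v1 - t * v2))

private def dt52 {R : Type*} [CommRing R] (L M N : R × R × R) : R :=
  L.1 * (M.2.1 * N.2.2 - M.2.2 * N.2.1) + L.2.1 * (M.2.2 * N.1 - M.1 * N.2.2) +
    L.2.2 * (M.1 * N.2.1 - M.2.1 * N.1)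

private theorem on_line52 {p a b : P2} {s t : ℝ} {z : ℝ × ℝ} (hz : z ∈ chord p a b s t) :
    (ln52 ((a.1 : ℝ) - p.1) ((a.2 : ℝ) - p.2) ((b.1 : ℝ) - p.1) ((b.2 : ℝ) - p.2) s t).1 * (z.1 - 2 * p.1) +
      (ln52 ((a.1 : ℝ) - p.1) ((a.2 : ℝ) - p.2) ((b.1 : ℝ) - p.1) ((b.2 : ℝ) - p.2) s t).2.1 * (z.2 - 2 * p.2) +
      (ln52 ((a.1 : ℝ) - p.1) ((a.2 : ℝ) - p.2) ((b.1 : ℝ) - p.1) ((b.2 : ℝ) - p.2) s t).2.2 = 0 := by
  obtain ⟨α, β, -, -, hαβ, rfl⟩ := hz
  have h1 : α = 1 - β := by linarith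
  subst h1
  simp only [ln52, sp, Prod.smul_mk, Prod.mk_add_mk, smul_eq_mul]
  ring

private theorem dt_zero52 {L M N : ℝ × ℝ × ℝ} {z w : ℝ} (hL : L.1 * z + L.2.1 * w + L.2.2 = 0)
    (hM : M.1 * z + M.2.1 * w + M.2.2 = 0) (hN : N.1 * z + N.2.1 * w + N.2.2 = 0) : dt52 L M N = 0 := by
  unfold dt52
  linear_combination (M.1 * N.2.1 - M.2.1 * N.1) * hL + (N.1 * L.2.1 - N.2.1 * L.1) * hM +
    (L.1 * M.2.1 - L.2.1 * M.1) * hN

private theorem dir52 {p a : P2} (h : LAdj p a) :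
    (((a.1 : ℝ) - p.1 = 1 ∧ (a.2 : ℝ) - p.2 = 0) ∨ ((a.1 : ℝ) - p.1 = -1 ∧ (a.2 : ℝ) - p.2 = 0)) ∨
      (((a.1 : ℝ) - p.1 = 0 ∧ (a.2 : ℝ) - p.2 = 1) ∨ ((a.1 : ℝ) - p.1 = 0 ∧ (a.2 : ℝ) - p.2 = -1)) := by
  rcases h with (h | h) | (h | h)
  · subst h
    left; left
    constructor <;> push_cast <;> ring
  · subst h
    left; right
    constructor <;> push_cast <;> ring
  · subst h
    right; left
    constructor <;> push_cast <;> ring
  · subst h
    right; right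
    constructor <;> push_cast <;> ring

/-- the lines through the two sides span the space -/
private theorem span52 {p a b : P2} (ha : LAdj p a) (hb : LAdj p b) (hab : a ≠ b) {n1 n2 n3 : ℝ}
    (H : ∀ s t : ℝ,
      n1 * (ln52 ((a.1 : ℝ) - p.1) ((a.2 : ℝ) - p.2) ((b.1 : ℝ) - p.1) ((b.2 : ℝ) - p.2) s t).1 +
      n2 * (ln52 ((a.1 : ℝ) - p.1) ((a.2 : ℝ) - p.2) ((b.1 : ℝ) - p.1) ((b.2 : ℝ) - p.2) s t).2.1 +
      n3 * (ln52 ((a.1 : ℝ) - p.1) ((a.2 : ℝ) - p.2) ((b.1 : ℝ) - p.1) ((b.2 : ℝ) - p.2) s t).2.2 = 0) :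
    n1 = 0 ∧ n2 = 0 ∧ n3 = 0 := by
  have hne : ¬ ((a.1 : ℝ) - p.1 = (b.1 : ℝ) - p.1 ∧ (a.2 : ℝ) - p.2 = (b.2 : ℝ) - p.2) := by
    rintro ⟨h1, h2⟩
    apply hab
    have h3 : (a.1 : ℝ) = b.1 := by linarith
    have h4 : (a.2 : ℝ) = b.2 := by linarith
    exact Prod.ext (by exact_mod_cast h3) (by exact_mod_cast h4)
  have h00 := H 0 0
  have h10 := H 1 0
  have h01 := H 0 1
  have h11 := H 1 1
  rcases dir52 ha with (⟨e1, e2⟩ | ⟨e1, e2⟩) | (⟨e1, e2⟩ | ⟨e1, e2⟩) <;>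
  rcases dir52 hb with (⟨e3, e4⟩ | ⟨e3, e4⟩) | (⟨e3, e4⟩ | ⟨e3, e4⟩) <;>
  rw [e1, e2, e3, e4] at h00 h10 h01 h11 hne <;>
  first
  | exact absurd ⟨rfl, rfl⟩ hne
  | (simp only [ln52] at h00 h10 h01 h11
     refine ⟨?_, ?_, ?_⟩ <;> linarith)

private theorem exists_det52 {p a b c d a' b' : P2} (ha : LAdj p a) (hb : LAdj p b) (hc : LAdj p c) (hd : LAdj p d)
    (ha' : LAdj p a') (hb' : LAdj p b') (hab : a ≠ b) (hcd : c ≠ d) (hab' : a' ≠ b')
    (H : ∀ s1 t1 s2 t2 s3 t3 : ℝ, dt52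
      (ln52 ((a.1 : ℝ) - p.1) ((a.2 : ℝ) - p.2) ((b.1 : ℝ) - p.1) ((b.2 : ℝ) - p.2) s1 t1)
      (ln52 ((c.1 : ℝ) - p.1) ((c.2 : ℝ) - p.2) ((d.1 : ℝ) - p.1) ((d.2 : ℝ) - p.2) s2 t2)
      (ln52 ((a'.1 : ℝ) - p.1) ((a'.2 : ℝ) - p.2) ((b'.1 : ℝ) - p.1) ((b'.2 : ℝ) - p.2) s3 t3) = 0) : False := by
  obtain ⟨M, hM⟩ : ∃ M : ℝ → ℝ → ℝ × ℝ × ℝ, M = fun s t =>
    ln52 ((c.1 : ℝ) - p.1) ((c.2 : ℝ) - p.2) ((d.1 : ℝ) - p.1) ((d.2 : ℝ) - p.2) s t := ⟨_, rfl⟩
  obtain ⟨N, hN⟩ : ∃ N : ℝ → ℝ → ℝ × ℝ × ℝ, N = fun s t =>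
    ln52 ((a'.1 : ℝ) - p.1) ((a'.2 : ℝ) - p.2) ((b'.1 : ℝ) - p.1) ((b'.2 : ℝ) - p.2) s t := ⟨_, rfl⟩
  have k1 : ∀ s2 t2 s3 t3 : ℝ,
      (M s2 t2).2.1 * (N s3 t3).2.2 - (M s2 t2).2.2 * (N s3 t3).2.1 = 0 ∧
      (M s2 t2).2.2 * (N s3 t3).1 - (M s2 t2).1 * (N s3 t3).2.2 = 0 ∧
      (M s2 t2).1 * (N s3 t3).2.1 - (M s2 t2).2.1 * (N s3 t3).1 = 0 := by
    intro s2 t2 s3 t3
    refine span52 ha hb hab ?_
    intro s t
    have h := H s t s2 t2 s3 t3
    rw [hM, hN]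
    simp only [dt52] at h ⊢
    linear_combination h
  have k2 : ∀ s3 t3 : ℝ, (N s3 t3).1 = 0 := by
    intro s3 t3
    have h := (span52 (n1 := (N s3 t3).2.1) (n2 := -(N s3 t3).1) (n3 := 0) hc hd hcd (by
      intro s t
      have h := (k1 s t s3 t3).2.2
      rw [hM] at h
      linear_combination h)).2.1
    linarith
  have k3 := (span52 (n1 := 1) (n2 := 0) (n3 := 0) ha' hb' hab' (by
    intro s t
    have h := k2 s t
    rw [hN] at h
    linear_combination h)).1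
  exact one_ne_zero k3

private noncomputable def vr52 (p a : P2) : P2 × Bool :=
  if a = (p.1 + 1, p.2) then (p, false)
  else if p = (a.1 + 1, a.2) then (a, false)
  else if a = (p.1, p.2 + 1) then (p, true)
  else (a, true)

private noncomputable def sg52 (p a : P2) : ℝ :=
  if a = (p.1 + 1, p.2) then 1
  else if p = (a.1 + 1, a.2) then -1
  else if a = (p.1, p.2 + 1) then 1
  else -1

private theorem tau_eq52 {E : Type*} (x : E × (P2 × Bool) → ℝ) (e : E) {p a : P2} (h : LAdj p a) :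
    tau x e p a = sg52 p a * x (e, vr52 p a) := by
  unfold tau sg52 vr52
  by_cases h1 : a = (p.1 + 1, p.2)
  · rw [if_pos h1, if_pos h1, if_pos h1, one_mul]
  · rw [if_neg h1, if_neg h1, if_neg h1]
    by_cases h2 : p = (a.1 + 1, a.2)
    · rw [if_pos h2, if_pos h2, if_pos h2, neg_one_mul]
    · rw [if_neg h2, if_neg h2, if_neg h2]
      by_cases h3 : a = (p.1, p.2 + 1)
      · rw [if_pos h3, if_pos h3, if_pos h3, one_mul]
      · rw [if_neg h3, if_neg h3, if_neg h3]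
        have h4 : p = (a.1, a.2 + 1) := by
          rcases h with (h | h) | (h | h)
          · exact absurd h h1
          · exact absurd h h2
          · exact absurd h h3
          · exact h
        rw [if_pos h4, neg_one_mul]

private theorem sg_sq52 (p a : P2) : sg52 p a * sg52 p a = 1 := by
  unfold sg52
  split_ifs <;> norm_num

private theorem vr_ne52 {p a b : P2} (ha : LAdj p a) (hb : LAdj p b) (hab : a ≠ b) : vr52 p a ≠ vr52 p b := by
  obtain ⟨p1, p2⟩ := p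
  obtain ⟨a1, a2⟩ := a
  obtain ⟨b1, b2⟩ := b
  simp only [LAdj, Prod.mk.injEq, ne_eq, vr52] at *
  split_ifs <;> simp only [Prod.mk.injEq, not_and, Bool.false_eq_true, Bool.true_eq_false, and_false, not_false_eq_true,
    and_true] <;> omega

theorem triple_poly {E : Type*} {e f g : E} (hef : e ≠ f) (heg : e ≠ g) (hfg : f ≠ g)
    {p a b c d a' b' : P2} (ha : LAdj p a) (hb : LAdj p b) (hc : LAdj p c) (hd : LAdj p d)
    (ha' : LAdj p a') (hb' : LAdj p b') (hab : a ≠ b) (hcd : c ≠ d) (hab' : a' ≠ b') :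
    ∃ Q : MvPolynomial (E × (P2 × Bool)) ℝ, Q ≠ 0 ∧ ∀ x : E × (P2 × Bool) → ℝ,
      (chord p a b (tau x e p a) (tau x e p b) ∩ chord p c d (tau x f p c) (tau x f p d) ∩
        chord p a' b' (tau x g p a') (tau x g p b')).Nonempty → MvPolynomial.eval x Q = 0 := by
  obtain ⟨T, hT⟩ : ∃ T : E → P2 → MvPolynomial (E × (P2 × Bool)) ℝ, T = fun e a =>
    MvPolynomial.C (sg52 p a) * MvPolynomial.X (e, vr52 p a) := ⟨_, rfl⟩
  have hTe : ∀ (x : E × (P2 × Bool) → ℝ) (e : E) {a : P2}, LAdj p a → MvPolynomial.eval x (T e a) = tau x e p a := by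
    intro x e a h
    rw [hT, tau_eq52 x e h]
    simp
  obtain ⟨Q, hQ⟩ : ∃ Q : MvPolynomial (E × (P2 × Bool)) ℝ, Q = dt52
      (ln52 (MvPolynomial.C ((a.1 : ℝ) - p.1)) (MvPolynomial.C ((a.2 : ℝ) - p.2))
        (MvPolynomial.C ((b.1 : ℝ) - p.1)) (MvPolynomial.C ((b.2 : ℝ) - p.2)) (T e a) (T e b))
      (ln52 (MvPolynomial.C ((c.1 : ℝ) - p.1)) (MvPolynomial.C ((c.2 : ℝ) - p.2))
        (MvPolynomial.C ((d.1 : ℝ) - p.1)) (MvPolynomial.C ((d.2 : ℝ) - p.2)) (T f c) (T f d))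
      (ln52 (MvPolynomial.C ((a'.1 : ℝ) - p.1)) (MvPolynomial.C ((a'.2 : ℝ) - p.2))
        (MvPolynomial.C ((b'.1 : ℝ) - p.1)) (MvPolynomial.C ((b'.2 : ℝ) - p.2)) (T g a') (T g b')) := ⟨_, rfl⟩
  have hQe : ∀ x : E × (P2 × Bool) → ℝ, MvPolynomial.eval x Q = dt52
      (ln52 ((a.1 : ℝ) - p.1) ((a.2 : ℝ) - p.2) ((b.1 : ℝ) - p.1) ((b.2 : ℝ) - p.2) (tau x e p a) (tau x e p b))
      (ln52 ((c.1 : ℝ) - p.1) ((c.2 : ℝ) - p.2) ((d.1 : ℝ) - p.1) ((d.2 : ℝ) - p.2) (tau x f p c) (tau x f p d))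
      (ln52 ((a'.1 : ℝ) - p.1) ((a'.2 : ℝ) - p.2) ((b'.1 : ℝ) - p.1) ((b'.2 : ℝ) - p.2)
        (tau x g p a') (tau x g p b')) := by
    intro x
    rw [hQ, ← hTe x e ha, ← hTe x e hb, ← hTe x f hc, ← hTe x f hd, ← hTe x g ha', ← hTe x g hb']
    simp only [dt52, ln52, map_add, map_sub, map_mul, MvPolynomial.eval_C]
  refine ⟨Q, ?_, ?_⟩
  · intro h0
    refine exists_det52 ha hb hc hd ha' hb' hab hcd hab' ?_
    intro s1 t1 s2 t2 s3 t3
    obtain ⟨x, hx⟩ : ∃ x : E × (P2 × Bool) → ℝ, x = fun i =>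
      if i.1 = e then (if i.2 = vr52 p a then sg52 p a * s1 else sg52 p b * t1)
      else if i.1 = f then (if i.2 = vr52 p c then sg52 p c * s2 else sg52 p d * t2)
      else (if i.2 = vr52 p a' then sg52 p a' * s3 else sg52 p b' * t3) := ⟨_, rfl⟩
    have h1 := hQe x
    have ht : ∀ (a : P2) (s : ℝ), sg52 p a * (sg52 p a * s) = s := by
      intro a s
      rw [← mul_assoc, sg_sq52, one_mul]
    have e1 : tau x e p a = s1 := by
      rw [tau_eq52 x e ha, hx]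
      simp only [if_true]
      exact ht _ _
    have e2 : tau x e p b = t1 := by
      rw [tau_eq52 x e hb, hx]
      simp only [if_true, if_neg (vr_ne52 hb ha hab.symm)]
      exact ht _ _
    have e3 : tau x f p c = s2 := by
      rw [tau_eq52 x f hc, hx]
      simp only [if_true, if_neg hef.symm]
      exact ht _ _
    have e4 : tau x f p d = t2 := by
      rw [tau_eq52 x f hd, hx]
      simp only [if_true, if_neg hef.symm, if_neg (vr_ne52 hd hc hcd.symm)]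
      exact ht _ _
    have e5 : tau x g p a' = s3 := by
      rw [tau_eq52 x g ha', hx]
      simp only [if_true, if_neg heg.symm, if_neg hfg.symm]
      exact ht _ _
    have e6 : tau x g p b' = t3 := by
      rw [tau_eq52 x g hb', hx]
      simp only [if_neg heg.symm, if_neg hfg.symm, if_neg (vr_ne52 hb' ha' hab'.symm)]
      exact ht _ _
    rw [e1, e2, e3, e4, e5, e6, h0, map_zero] at h1
    exact h1.symm
  · rintro x ⟨z, ⟨hz1, hz2⟩, hz3⟩
    rw [hQe x]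
    exact dt_zero52 (on_line52 hz1) (on_line52 hz2) (on_line52 hz3)

end Pool.Agent.Helper76.RL
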