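import Pool.Agent.Helper76.RL.Base
import Pool.Agent.Helper76.RL.Gen
import Pool.Agent.Helper76.RL.TriPoly
import Pool.Agent.Helper76.RL.Geo
import Pool.Agent.Helper76.RL.Loc

/-!
# RL-OFF: existence of good offsets (helper76)
-/

namespace Pool.Agent.Helper76.RL

open Pool.Agent.Helper46.RM
open scoped Classical

variable {E : Type*}

theorem thr_fst_mem {l : List P2} {a p b : P2} (h : Thr l a p b) : a ∈ l ∧ p ∈ l ∧ b ∈ l := by
  rcases h with h | h
  · exact ⟨h.subset (by simp), h.subset (by simp), h.subset (by simp)⟩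
  · exact ⟨h.subset (by simp), h.subset (by simp), h.subset (by simp)⟩

theorem chord_comm (p a b : P2) (s t : ℝ) : chord p a b s t = chord p b a t s := by
  unfold chord
  exact segment_symm ℝ _ _

/-- the crossing condition for offsets with the right order -/
theorem cross_of_order (F : Fam E) {τ : E → P2 → P2 → ℝ}
    (hanti : ∀ e p q, τ e q p = - τ e p q) (hlt : ∀ e p q, |τ e p q| < 1)
    (hord : ∀ e f p q, e ≠ f → Pass (F.L e) p q → Pass (F.L f) p q →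
        τ e p q ≠ τ f p q ∧ (τ f p q < τ e p q ↔ Left (F.L e) (F.L f) p q))
    {e f : E} {a p b c d : P2} (hef : e ≠ f) (he : Thr (F.L e) a p b)
    (hf : Thr (F.L f) c p d)
    (hm : (chord p a b (τ e p a) (τ e p b) ∩ chord p c d (τ f p c) (τ f p d)).Nonempty) :
    Ess (F.L e) (F.L f) := by
  by_contra hne
  obtain ⟨-, hpa, hpb, hab⟩ := F.mid he
  obtain ⟨-, hpc, hpd, hcd⟩ := F.mid hf
  -- one common side
  have key1 : ∀ {a b d : P2}, Thr (F.L e) a p b → Thr (F.L f) a p d → b ≠ d →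
      (chord p a b (τ e p a) (τ e p b) ∩ chord p a d (τ f p a) (τ f p d)).Nonempty → False := by
    intro a b d he hf hbd hm
    obtain ⟨-, hpa, hpb, hab⟩ := F.mid he
    obtain ⟨-, -, hpd, had⟩ := F.mid hf
    have h1 := (hord e f a p hef he.pass.1 hf.pass.1)
    have h2 := (hord e f p a hef he.pass.1.symm hf.pass.1.symm)
    have h3 := local1 F he hf hbd hne
    apply chord_cross1 hpa hpb hpd hab had hbd (hlt e p a) (hlt e p b) (hlt f p a) (hlt f p d) h2.1 hm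
    rw [← h3, ← h1.2, hanti e p a, hanti f p a, neg_lt_neg_iff]
  have key2 : ∀ {a b : P2}, Thr (F.L e) a p b → Thr (F.L f) a p b →
      (chord p a b (τ e p a) (τ e p b) ∩ chord p a b (τ f p a) (τ f p b)).Nonempty → False := by
    intro a b he hf hm
    obtain ⟨-, hpa, hpb, hab⟩ := F.mid he
    have h1 := (hord e f a p hef he.pass.1 hf.pass.1)
    have h2 := (hord e f p a hef he.pass.1.symm hf.pass.1.symm)
    have h4 := (hord e f p b hef he.pass.2 hf.pass.2)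
    have h3 := local2 F he hf hne
    apply chord_cross2 hpa hpb hab (hlt e p a) (hlt e p b) (hlt f p a) (hlt f p b) h2.1 h4.1 hm
    rw [h4.2, ← h3, ← h1.2, hanti e p a, hanti f p a, neg_lt_neg_iff]
  by_cases hac : a = c
  · subst hac
    by_cases hbd : b = d
    · subst hbd
      exact key2 he hf hm
    · exact key1 he hf hbd hm
  by_cases had : a = d
  · subst had
    rw [chord_comm p c a] at hm
    by_cases hbc : b = c
    · subst hbc
      exact key2 he hf.symm hm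
    · exact key1 he hf.symm hbc hm
  by_cases hbc : b = c
  · subst hbc
    rw [chord_comm p a b] at hm
    exact key1 he.symm hf had hm
  by_cases hbd : b = d
  · subst hbd
    rw [chord_comm p a b, chord_comm p c b] at hm
    exact key1 he.symm hf.symm hac hm
  have h0 := chord_cross0 hpa hpb hpc hpd hab hcd hac had hbc hbd (hlt e p a) (hlt e p b)
    (hlt f p c) (hlt f p d) hm
  exact hne (local0 F he hf hac had hbc hbd h0.1 h0.2)

theorem exists_off [Finite E] (F : Fam E) : ∃ τ, Off F τ := by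
  obtain ⟨c, δ, hδ, hc⟩ := exists_base F
  -- the finite set of points
  have hfin : (⋃ e : E, {p | p ∈ F.L e}).Finite := by
    apply Set.finite_iUnion
    intro e
    exact (F.L e).finite_toSet
  let I : Type _ := {y : E × E × E × P2 × P2 × P2 × P2 × P2 × P2 × P2 //
    Thr (F.L y.1) y.2.2.2.1 y.2.2.2.2.1 y.2.2.2.2.2.1 ∧
    Thr (F.L y.2.1) y.2.2.2.2.2.2.1 y.2.2.2.2.1 y.2.2.2.2.2.2.2.1 ∧
    Thr (F.L y.2.2.1) y.2.2.2.2.2.2.2.2.1 y.2.2.2.2.1 y.2.2.2.2.2.2.2.2.2 ∧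
    y.1 ≠ y.2.1 ∧ y.1 ≠ y.2.2.1 ∧ y.2.1 ≠ y.2.2.1}
  have hI : Finite I := by
    have hS : ((Set.univ : Set E) ×ˢ ((Set.univ : Set E) ×ˢ ((Set.univ : Set E) ×ˢ
        ((⋃ e : E, {p | p ∈ F.L e}) ×ˢ ((⋃ e : E, {p | p ∈ F.L e}) ×ˢ
        ((⋃ e : E, {p | p ∈ F.L e}) ×ˢ ((⋃ e : E, {p | p ∈ F.L e}) ×ˢ
        ((⋃ e : E, {p | p ∈ F.L e}) ×ˢ ((⋃ e : E, {p | p ∈ F.L e}) ×ˢ
        (⋃ e : E, {p | p ∈ F.L e})))))))))).Finite := by
      exact Set.finite_univ.prod (Set.finite_univ.prod (Set.finite_univ.prod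
        (hfin.prod (hfin.prod (hfin.prod (hfin.prod (hfin.prod (hfin.prod hfin))))))))
    apply Set.Finite.subset hS
    rintro ⟨e, f, g, a, p, b, c, d, a', b'⟩ ⟨h1, h2, h3, -⟩
    have h1 := thr_fst_mem h1
    have h2 := thr_fst_mem h2
    have h3 := thr_fst_mem h3
    simp only [Set.mem_prod, Set.mem_univ, true_and, Set.mem_iUnion, Set.mem_ofPred_eq]
    exact ⟨⟨e, h1.1⟩, ⟨e, h1.2.1⟩, ⟨e, h1.2.2⟩, ⟨f, h2.1⟩, ⟨f, h2.2.2⟩, ⟨g, h3.1⟩, ⟨g, h3.2.2⟩⟩
  have hQ : ∀ y : I, ∃ Q : MvPolynomial (E × (P2 × Bool)) ℝ, Q ≠ 0 ∧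
      ∀ x : E × (P2 × Bool) → ℝ,
      (chord y.1.2.2.2.2.1 y.1.2.2.2.1 y.1.2.2.2.2.2.1 (tau x y.1.1 y.1.2.2.2.2.1 y.1.2.2.2.1)
          (tau x y.1.1 y.1.2.2.2.2.1 y.1.2.2.2.2.2.1) ∩
        chord y.1.2.2.2.2.1 y.1.2.2.2.2.2.2.1 y.1.2.2.2.2.2.2.2.1
          (tau x y.1.2.1 y.1.2.2.2.2.1 y.1.2.2.2.2.2.2.1)
          (tau x y.1.2.1 y.1.2.2.2.2.1 y.1.2.2.2.2.2.2.2.1) ∩
        chord y.1.2.2.2.2.1 y.1.2.2.2.2.2.2.2.2.1 y.1.2.2.2.2.2.2.2.2.2
          (tau x y.1.2.2.1 y.1.2.2.2.2.1 y.1.2.2.2.2.2.2.2.2.1)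
          (tau x y.1.2.2.1 y.1.2.2.2.2.1 y.1.2.2.2.2.2.2.2.2.2)).Nonempty →
        MvPolynomial.eval x Q = 0 := by
    rintro ⟨⟨e, f, g, a, p, b, c, d, a', b'⟩, h1, h2, h3, hef, heg, hfg⟩
    obtain ⟨-, hpa, hpb, hab⟩ := F.mid h1
    obtain ⟨-, hpc, hpd, hcd⟩ := F.mid h2
    obtain ⟨-, hpa', hpb', hab'⟩ := F.mid h3
    exact triple_poly hef heg hfg hpa hpb hpc hpd hpa' hpb' hab hcd hab'
  choose Q hQ0 hQ using hQ
  obtain ⟨x, hx, hxQ⟩ := exists_generic c hδ Q hQ0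
  obtain ⟨hlt, hord⟩ := hc x hx
  refine ⟨tau x, fun e p q => tau_anti x e p q, hlt, ?_, ?_, ?_⟩
  · intro e f p q hef he hf
    exact (hord e f p q hef he hf).1
  · intro e f a p b c d hef he hf hm
    exact cross_of_order F (fun e p q => tau_anti x e p q) hlt hord hef he hf hm
  · intro e f g a p b c d a' b' hef heg hfg he hf hg hm
    exact hxQ ⟨⟨e, f, g, a, p, b, c, d, a', b'⟩, he, hf, hg, hef, heg, hfg⟩ (hQ _ x hm)

end Pool.Agent.Helper76.RL
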