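import Pool.Agent.Helper76.RL.PicE
import Pool.Agent.Helper76.RL.FamOf
import Pool.Agent.Helper76.RL.Offs

/-!
# RL-MAIN: realization of a routing (helper76)
-/

namespace Pool.Agent.Helper76.RL

open Pool.Agent.Helper46.RM
open scoped Classical

variable {V : Type*} {G : SimpleGraph V} {rk : V → ℕ}

instance [Finite V] : Finite (Ed G rk) := by
  unfold Ed
  infer_instance

theorem exists_pic [Finite V] (R : Routing G rk) : ∃ Φ : Pic V (Ed G rk),
    (∀ e, Φ.F.L e = R.ext e.1.1 e.1.2) ∧ (∀ e, Φ.st e = e.1.1) ∧ (∀ e, Φ.en e = e.1.2) := by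
  obtain ⟨F, hL, hZ⟩ := exists_fam R
  obtain ⟨τ, hτ⟩ := exists_off F
  refine ⟨{ F := F, τ := τ, off := hτ, lo := R.lo, hi := R.hi, le1 := R.le1, le2 := R.le2,
            disj := R.disj, Z_eq := hZ, st := fun e => e.1.1, en := fun e => e.1.2,
            ne := fun e => e.2.1.ne, hd := ?_, la := ?_ }, hL, fun _ => rfl, fun _ => rfl⟩
  · intro e
    refine ⟨R.y0 e.1.1 e.1.2, R.y0_mem _ _ e.2.1 e.2.2, ?_⟩
    rw [hL]
    rfl
  · intro e
    refine ⟨R.y1 e.1.1 e.1.2, R.y1_mem _ _ e.2.1 e.2.2, ?_⟩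
    rw [hL]
    unfold Routing.ext
    exact List.getLast?_concat (l := R.y0 e.1.1 e.1.2 :: R.rt e.1.1 e.1.2)

theorem ed_unique {e f : Ed G rk} (h : s(e.1.1, e.1.2) = s(f.1.1, f.1.2)) : e = f := by
  rcases Sym2.eq_iff.1 h with ⟨h1, h2⟩ | ⟨h1, h2⟩
  · exact Subtype.ext (Prod.ext h1 h2)
  · have h3 := e.2.2
    have h4 := f.2.2
    rw [h1, h2] at h3
    omega

theorem ed_exists (hrk : Function.Injective rk) {e : Sym2 V} (he : e ∈ G.edgeSet) :
    ∃ x : Ed G rk, e = s(x.1.1, x.1.2) := by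
  induction e with
  | _ a b =>
    have hab : G.Adj a b := he
    rcases lt_trichotomy (rk a) (rk b) with h | h | h
    · exact ⟨⟨(a, b), hab, h⟩, rfl⟩
    · exact absurd (hrk h) hab.ne
    · exact ⟨⟨(b, a), hab.symm, h⟩, Sym2.eq_swap⟩

noncomputable def arcOf (Φ : Pic V (Ed G rk)) (s : Sym2 V) : ℝ → ℝ × ℝ :=
  if h : ∃ x : Ed G rk, s = s(x.1.1, x.1.2) then Φ.cv h.choose else fun _ => 0

theorem arcOf_eq (Φ : Pic V (Ed G rk)) (x : Ed G rk) : arcOf Φ s(x.1.1, x.1.2) = Φ.cv x := by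
  have h : ∃ y : Ed G rk, s(x.1.1, x.1.2) = s(y.1.1, y.1.2) := ⟨x, rfl⟩
  unfold arcOf
  rw [dif_pos h]
  rw [← ed_unique h.choose_spec]

theorem realize' [Finite V] (hrk : Function.Injective rk) (R : Routing G rk) :
    ∃ D : Drawing G, D.Proper ∧
    ∀ a b c d, G.Adj a b → rk a < rk b → G.Adj c d → rk c < rk d → (a, b) ≠ (c, d) →
      D.Crosses s(a, b) s(c, d) → Ess (R.ext a b) (R.ext c d) := by
  obtain ⟨Φ, hL, hst, hen⟩ := exists_pic R
  let D : Drawing G :=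
    { pt := Φ.pt
      arc := arcOf Φ
      pt_inj := Φ.pt_inj
      cont := by
        intro e he
        obtain ⟨x, rfl⟩ := ed_exists hrk he
        rw [arcOf_eq]
        exact (Φ.cv_cont x).continuousOn
      ends := by
        intro e he
        obtain ⟨x, rfl⟩ := ed_exists hrk he
        refine ⟨x.1.1, x.1.2, rfl, ?_, ?_⟩
        · rw [arcOf_eq, Φ.cv_zero, hst]
        · rw [arcOf_eq, Φ.cv_one, hen]
      avoid := by
        intro e he t ht w hw
        obtain ⟨x, rfl⟩ := ed_exists hrk he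
        rw [arcOf_eq]
        intro h
        rcases Φ.cv_avoid x ht h with ⟨h1, _⟩ | ⟨h1, _⟩
        · rw [hst] at h1
          exact hw (by rw [h1]; exact Sym2.mem_mk_left _ _)
        · rw [hen] at h1
          exact hw (by rw [h1]; exact Sym2.mem_mk_right _ _) }
  have hD : ∀ x : Ed G rk, D.arc s(x.1.1, x.1.2) = Φ.cv x := arcOf_eq Φ
  refine ⟨D, ⟨?_, ?_, ?_⟩, ?_⟩
  · intro e he
    obtain ⟨x, rfl⟩ := ed_exists hrk he
    rw [hD]
    exact Φ.cv_inj x
  · intro e he f hf hef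
    obtain ⟨x, rfl⟩ := ed_exists hrk he
    obtain ⟨y, rfl⟩ := ed_exists hrk hf
    rw [hD, hD]
    exact Φ.cv_fin (fun h => hef (by rw [h]))
  · intro e he f hf g hg hef heg hfg r hr s hs t ht h
    obtain ⟨x, rfl⟩ := ed_exists hrk he
    obtain ⟨y, rfl⟩ := ed_exists hrk hf
    obtain ⟨z, rfl⟩ := ed_exists hrk hg
    rw [hD, hD, hD] at h
    exact Φ.cv_triple (fun h => hef (by rw [h])) (fun h => heg (by rw [h]))
      (fun h => hfg (by rw [h])) hr hs ht h.1 h.2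
  · intro a b c d hab hrab hcd hrcd hne hcr
    obtain ⟨s, hs, t, ht, h⟩ := hcr
    have h1 := hD ⟨(a, b), hab, hrab⟩
    have h2 := hD ⟨(c, d), hcd, hrcd⟩
    simp only at h1 h2
    rw [h1, h2] at h
    have h3 := Φ.cv_cross (fun h4 => hne (congrArg Subtype.val h4)) hs ht h
    rw [hL, hL] at h3
    exact h3

end Pool.Agent.Helper76.RL
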