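import Pool.Agent.Helper76.RL.Turn

/-!
# RL-SPLIT: comparison of codes

The order on `List ℤ` is the lexicographic one (`List.Lex`, instance in Mathlib.Data.List.Lex; `a :: l < b :: m` iff `a < b` or `a = b` and `l < m`: `List.cons_lt_cons_iff`).
`split`, induction on `l` (generalizing `p q m`). `l = []`: nothing is smaller than `[]`. `l = s :: l1`, `m = []`: `q` is the last point of `q :: m`, so `q ∈ Z` (`Good.fin` of `m`);
`q` is not the last point of `q :: l`, so `q ∉ Z`: contradiction. `m = s' :: m1`: if `s = s'` use the induction hypothesis for `q, s` (`Good` passes to the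
tail) with `c := s :: c`, `d := p :: d`; if `s ≠ s'` take `c = []`: `turn p q s ≠ turn p q s'` by `turn_inj` (`s, s' ≠ p` since no repetition).
`turns_inj`: the same induction.
-/

namespace Pool.Agent.Helper76.RL

open Pool.Agent.Helper46.RM
open scoped Classical

theorem Good.tail {Z : Set P2} {p q s : P2} {l : List P2} (h : Good Z p q (s :: l)) :
    Good Z q s l := by
  obtain ⟨hc, hn, m', z, he, hz, hm'⟩ := h
  refine ⟨(List.isChain_cons_cons.mp hc).2, (List.nodup_cons.mp hn).2, ?_⟩
  cases m' with
  | nil => simp at he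
  | cons a m' =>
    rw [List.cons_append, List.cons.injEq] at he
    exact ⟨m', z, he.2, hz, fun x hx => hm' x (List.mem_cons_of_mem _ hx)⟩

theorem Good.end_mem_h30 {Z : Set P2} {p q : P2} (h : Good Z p q []) : q ∈ Z := by
  obtain ⟨m', z, he, hz, _⟩ := h.fin
  cases m' with
  | nil =>
    rw [List.nil_append, List.cons.injEq] at he
    rw [he.1]
    exact hz
  | cons a m' => simp at he

theorem Good.notMem_h30 {Z : Set P2} {p q s : P2} {l : List P2} (h : Good Z p q (s :: l)) :
    q ∉ Z := by
  obtain ⟨m', z, he, _, hm'⟩ := h.fin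
  cases m' with
  | nil => simp at he
  | cons a m' =>
    rw [List.cons_append, List.cons.injEq] at he
    rw [he.1]
    exact hm' a List.mem_cons_self

theorem Good.facts_h30 {Z : Set P2} {p q s : P2} {l : List P2} (h : Good Z p q (s :: l)) :
    LAdj p q ∧ LAdj q s ∧ s ≠ p := by
  have h1 := List.isChain_cons_cons.mp h.chain
  have h2 := List.isChain_cons_cons.mp h1.2
  refine ⟨h1.1, h2.1, fun he => ?_⟩
  have h3 := (List.nodup_cons.mp h.nodup).1
  exact h3 (by rw [← he]; exact List.mem_cons_of_mem _ List.mem_cons_self)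

theorem split {Z : Set P2} {p q : P2} {l m : List P2} (hl : Good Z p q l) (hm : Good Z p q m)
    (h : turns p q m < turns p q l) :
    ∃ c w w' l' m' d x y, l = c ++ w :: l' ∧ m = c ++ w' :: m' ∧ p :: q :: c = d ++ [x, y] ∧
      w ≠ w' ∧ turn x y w' < turn x y w := by
  induction l generalizing p q m with
  | nil => exact absurd h (List.not_lt_nil _)
  | cons s l ih =>
    cases m with
    | nil => exact absurd hm.end_mem_h30 hl.notMem_h30
    | cons s' m =>
      obtain ⟨a1, a2, a3⟩ := hl.facts_h30
      obtain ⟨_, b2, b3⟩ := hm.facts_h30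
      rw [turns, turns, List.cons_lt_cons_iff] at h
      by_cases hs : s = s'
      · subst hs
        rcases h with h | ⟨_, h⟩
        · exact absurd h (lt_irrefl _)
        · obtain ⟨c, w, w', l', m', d, x, y, e1, e2, e3, e4, e5⟩ := ih hl.tail hm.tail h
          refine ⟨s :: c, w, w', l', m', p :: d, x, y, ?_, ?_, ?_, e4, e5⟩
          · rw [e1]; rfl
          · rw [e2]; rfl
          · rw [e3]; rfl
      · rcases h with h | ⟨h, _⟩
        · exact ⟨[], s, s', l, m, [], p, q, rfl, rfl, rfl, hs, h⟩
        · exact absurd (turn_inj a1 a2 b2 a3 b3 h.symm) hs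

theorem turns_inj {Z : Set P2} {p q : P2} {l m : List P2} (hl : Good Z p q l) (hm : Good Z p q m)
    (h : turns p q l = turns p q m) : l = m := by
  induction l generalizing p q m with
  | nil =>
    cases m with
    | nil => rfl
    | cons s' m => simp [turns] at h
  | cons s l ih =>
    cases m with
    | nil => simp [turns] at h
    | cons s' m =>
      obtain ⟨a1, a2, a3⟩ := hl.facts_h30
      obtain ⟨_, b2, b3⟩ := hm.facts_h30
      rw [turns, turns, List.cons.injEq] at h
      have hs : s = s' := turn_inj a1 a2 b2 a3 b3 h.1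
      subst hs
      rw [ih hl.tail hm.tail h.2]

end Pool.Agent.Helper76.RL
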