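import Pool.Agent.Helper76.RL.Good
import Pool.Agent.Helper76.RL.Split

/-!
# RL-BAD: wrong order at both ends is an essential crossing

The hypothesis is symmetric in `p, q`, so we may assume `L e = k ++ p :: q :: m` (`pass_split`; if the reverse of `L e` is of this form exchange `p` and `q`); let `L' = L f` or its reverse
with `L' = k' ++ p :: q :: m'`. By `fut_of_split` the codes are `turns p q m`, `turns q p k.reverse`, etc. `split` (with `Good` from `Fam.good`) gives `m = c ++ w :: _`, `m' = c ++ w' :: _`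
and `k.reverse = c0 ++ u :: _`, `k'.reverse = c0 ++ u' :: _`. Put `ϖ = c0.reverse ++ p :: q :: c` (at least two points). Then `Runs (L e) u ϖ w`, `Runs L' u' ϖ w'` and `EssAt u ϖ w u' w'`: the last two points
of `ϖ` are the `x, y` of the first `split` (last two of `p :: q :: c`), the first two points `p1, p2` are `y, x` of the second one (last two of `q :: p :: c0`, reversed).
If both comparisons are in the other direction, exchange the roles (the second alternative in `EssAt`).
-/

namespace Pool.Agent.Helper76.RL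

open Pool.Agent.Helper46.RM
open scoped Classical

variable {E : Type*}

private theorem runs77 {k m c l' c0 l0 : List P2} {p q u w : P2} (h1 : m = c ++ w :: l')
    (h2 : k.reverse = c0 ++ u :: l0) :
    Runs (k ++ p :: q :: m) u (c0.reverse ++ p :: q :: c) w := by
  have h3 : k = l0.reverse ++ u :: c0.reverse := by
    have h4 := congrArg List.reverse h2
    rw [List.reverse_reverse, List.reverse_append, List.reverse_cons, List.append_assoc] at h4
    exact h4
  refine ⟨l0.reverse, l', ?_⟩
  rw [h1, h3]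
  simp

private theorem ess77 {c c0 d d0 : List P2} {p q u w u' w' x y x0 y0 : P2}
    (hd : p :: q :: c = d ++ [x, y]) (hd0 : q :: p :: c0 = d0 ++ [x0, y0]) (hu : u ≠ u')
    (hw : w ≠ w') (h : (turn x0 y0 u' < turn x0 y0 u ∧ turn x y w' < turn x y w) ∨
      (turn x0 y0 u < turn x0 y0 u' ∧ turn x y w < turn x y w')) :
    EssAt u (c0.reverse ++ p :: q :: c) w u' w' := by
  have h1 : c0.reverse ++ p :: q :: c = y0 :: x0 :: (d0.reverse ++ c) := by
    have h2 := congrArg List.reverse hd0
    rw [List.reverse_append, List.reverse_cons, List.reverse_cons] at h2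
    simp only [List.append_assoc] at h2
    have h3 : c0.reverse ++ p :: q :: c = (c0.reverse ++ ([p] ++ [q])) ++ c := by simp
    rw [h3, h2]
    simp
  have h4 : y0 :: x0 :: (d0.reverse ++ c) = (c0.reverse ++ d) ++ [x, y] := by
    rw [← h1, hd, List.append_assoc]
  rw [h1]
  exact ⟨hu, hw, x, y, c0.reverse ++ d, h4, h⟩

private theorem core77 {Z : Set P2} {k m k' m' : List P2} {p q : P2}
    (g1 : Good Z p q m) (g2 : Good Z q p k.reverse) (g1' : Good Z p q m')
    (g2' : Good Z q p k'.reverse)
    (h : (turns p q m' < turns p q m ∧ turns q p k'.reverse < turns q p k.reverse) ∨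
      (turns p q m < turns p q m' ∧ turns q p k.reverse < turns q p k'.reverse)) :
    ∃ u ϖ w u' w', EssAt u ϖ w u' w' ∧ Runs (k ++ p :: q :: m) u ϖ w ∧
      Runs (k' ++ p :: q :: m') u' ϖ w' := by
  rcases h with ⟨h1, h2⟩ | ⟨h1, h2⟩
  · obtain ⟨c, w, w', l1, m1, d, x, y, a1, a2, a3, a4, a5⟩ := split g1 g1' h1
    obtain ⟨c0, u, u', l0, m0, d0, x0, y0, b1, b2, b3, b4, b5⟩ := split g2 g2' h2
    exact ⟨u, _, w, u', w', ess77 a3 b3 b4 a4 (Or.inl ⟨b5, a5⟩), runs77 a1 b1, runs77 a2 b2⟩
  · obtain ⟨c, w', w, m1, l1, d, x, y, a1, a2, a3, a4, a5⟩ := split g1' g1 h1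
    obtain ⟨c0, u', u, m0, l0, d0, x0, y0, b1, b2, b3, b4, b5⟩ := split g2' g2 h2
    exact ⟨u, _, w, u', w', ess77 a3 b3 b4.symm a4.symm (Or.inr ⟨b5, a5⟩), runs77 a2 b2,
      runs77 a1 b1⟩

private theorem main77 (F : Fam E) {e f : E} {p q : P2} {k m : List P2}
    (hk : F.L e = k ++ p :: q :: m) (hf : Pass (F.L f) p q)
    (h : (code (F.L f) p q < code (F.L e) p q ∧ code (F.L f) q p < code (F.L e) q p) ∨
      (code (F.L e) p q < code (F.L f) p q ∧ code (F.L e) q p < code (F.L f) q p)) :
    Ess (F.L e) (F.L f) := by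
  obtain ⟨k', m', hk'⟩ := pass_split hf
  obtain ⟨e1, e2⟩ := fut_of_split (F.nodup e) (Or.inl hk)
  obtain ⟨f1, f2⟩ := fut_of_split (F.nodup f) hk'
  have he : Pass (F.L e) p q := Or.inl ⟨k, m, by rw [hk]; simp⟩
  have g1 := F.good he
  have g2 := F.good he.symm
  have g1' := F.good hf
  have g2' := F.good hf.symm
  unfold code at h
  rw [e1] at g1
  rw [e2] at g2
  rw [f1] at g1'
  rw [f2] at g2'
  rw [e1, e2, f1, f2] at h
  obtain ⟨u, ϖ, w, u', w', h1, h2, h3⟩ := core77 g1 g2 g1' g2' h
  rw [← hk] at h2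
  refine ⟨u, ϖ, w, u', w', h1, h2, ?_⟩
  rcases hk' with hk' | hk'
  · left
    rw [hk']
    exact h3
  · right
    rw [hk']
    exact h3

theorem ess_of_bad (F : Fam E) {e f : E} {p q : P2} (he : Pass (F.L e) p q)
    (hf : Pass (F.L f) p q)
    (h : (code (F.L f) p q < code (F.L e) p q ∧ code (F.L f) q p < code (F.L e) q p) ∨
      (code (F.L e) p q < code (F.L f) p q ∧ code (F.L e) q p < code (F.L f) q p)) :
    Ess (F.L e) (F.L f) := by
  obtain ⟨k, m, hk | hk⟩ := pass_split he
  · exact main77 F hk hf h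
  · have h1 : F.L e = m.reverse ++ q :: p :: k.reverse := by
      have h2 := congrArg List.reverse hk
      rw [List.reverse_reverse] at h2
      rw [h2]
      simp
    exact main77 F h1 hf.symm (h.imp And.symm And.symm)

end Pool.Agent.Helper76.RL
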