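import Pool.Agent.Helper76.RL.Defs

/-!
# RL-TURN: turns at a lattice point, canonical darts

`turn_inj`: `turn p q s = det (q - p, s - q)`; the three neighbours of `q` other than `p` give the values `1, 0, -1` (the excluded neighbour `p` gives `0`):
all cases of `LAdj`.
`can_cases`: exactly one of the two darts is canonical. `left_swap`: unfold `Left`, `can_cases`. `tau_anti`: cases in the definition of `tau`
(the conditions for `p, q` and for `q, p` are exchanged in pairs and exclude each other).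
`sp_swap`: coordinates.
-/

namespace Pool.Agent.Helper76.RL

open Pool.Agent.Helper46.RM
open scoped Classical

private theorem dir68 {p q : P2} (h : LAdj p q) : (q.1 - p.1 = 1 ∧ q.2 - p.2 = 0) ∨
    (q.1 - p.1 = -1 ∧ q.2 - p.2 = 0) ∨ (q.1 - p.1 = 0 ∧ q.2 - p.2 = 1) ∨
    (q.1 - p.1 = 0 ∧ q.2 - p.2 = -1) := by
  rcases h with (h | h) | (h | h) <;> rw [Prod.ext_iff] at h <;> simp only at h <;> omega

theorem turn_inj {p q s s' : P2} (h : LAdj p q) (hs : LAdj q s) (hs' : LAdj q s') (h1 : s ≠ p)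
    (h2 : s' ≠ p) (ht : turn p q s = turn p q s') : s = s' := by
  have e1 := dir68 h
  have e2 := dir68 hs
  have e3 := dir68 hs'
  have g1 : ¬ (s.1 = p.1 ∧ s.2 = p.2) := fun hc => h1 (Prod.ext hc.1 hc.2)
  have g2 : ¬ (s'.1 = p.1 ∧ s'.2 = p.2) := fun hc => h2 (Prod.ext hc.1 hc.2)
  suffices hh : s.1 = s'.1 ∧ s.2 = s'.2 from Prod.ext hh.1 hh.2
  simp only [turn] at ht
  rcases e1 with ⟨a, b⟩ | ⟨a, b⟩ | ⟨a, b⟩ | ⟨a, b⟩ <;> rw [a, b] at ht <;>
    rcases e2 with ⟨c, d⟩ | ⟨c, d⟩ | ⟨c, d⟩ | ⟨c, d⟩ <;>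
    rcases e3 with ⟨e, f⟩ | ⟨e, f⟩ | ⟨e, f⟩ | ⟨e, f⟩ <;> omega

theorem turn_rev (p q r : P2) : turn r q p = - turn p q r := by
  simp only [turn]
  ring

theorem can_cases {p q : P2} (h : LAdj p q) :
    (Can p q ∧ ¬ Can q p) ∨ (Can q p ∧ ¬ Can p q) := by
  have e1 := dir68 h
  have key : ∀ a b : P2, Can a b ↔ (b.1 - a.1 = 1 ∧ b.2 - a.2 = 0) ∨ (b.1 - a.1 = 0 ∧ b.2 - a.2 = 1) := by
    intro a b
    simp only [Can, Prod.ext_iff]
    omega
  rw [key, key]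
  omega

theorem left_swap {l l' : List P2} {p q : P2} (h : LAdj p q) :
    Left l l' p q ↔ Left l' l q p := by
  rcases can_cases h with ⟨h1, h2⟩ | ⟨h1, h2⟩
  · rw [Left, Left, if_pos h1, if_neg h2]
  · rw [Left, Left, if_neg h2, if_pos h1]

theorem tau_anti {E : Type*} (x : E × (P2 × Bool) → ℝ) (e : E) (p q : P2) :
    tau x e q p = - tau x e p q := by
  by_cases c1 : q = (p.1 + 1, p.2)
  · have c2 : ¬ p = (q.1 + 1, q.2) := by
      rw [Prod.ext_iff] at c1 ⊢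
      simp only at c1 ⊢
      omega
    rw [tau, tau, if_neg c2, if_pos c1, if_pos c1]
  by_cases c2 : p = (q.1 + 1, q.2)
  · rw [tau, tau, if_pos c2, if_neg c1, if_pos c2, neg_neg]
  by_cases c3 : q = (p.1, p.2 + 1)
  · have c4 : ¬ p = (q.1, q.2 + 1) := by
      rw [Prod.ext_iff] at c3 ⊢
      simp only at c3 ⊢
      omega
    rw [tau, tau, if_neg c2, if_neg c1, if_neg c4, if_pos c3, if_neg c1, if_neg c2, if_pos c3]
  by_cases c4 : p = (q.1, q.2 + 1)
  · rw [tau, tau, if_neg c2, if_neg c1, if_pos c4, if_neg c1, if_neg c2, if_neg c3, if_pos c4,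
      neg_neg]
  · rw [tau, tau, if_neg c2, if_neg c1, if_neg c4, if_neg c3, if_neg c1, if_neg c2, if_neg c3,
      if_neg c4, neg_zero]

theorem sp_swap (p q : P2) (τ : ℝ) : sp q p (-τ) = sp p q τ := by
  simp only [sp]
  refine Prod.ext ?_ ?_
  · show (q.1 : ℝ) + p.1 - -τ * ((p.2 : ℝ) - q.2) = (p.1 : ℝ) + q.1 - τ * ((q.2 : ℝ) - p.2)
    ring
  · show (q.2 : ℝ) + p.2 + -τ * ((p.1 : ℝ) - q.1) = (p.2 : ℝ) + q.2 + τ * ((q.1 : ℝ) - p.1)
    ring

end Pool.Agent.Helper76.RL
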