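import Pool.Agent.Helper76.RL.Key
import Pool.Agent.Helper76.RL.Turn

/-!
# RL-BASE: offsets with the right order

`N = card E` (if `E` is empty everything is trivial). For a canonical dart `(p, q)`, i.e. `q = p + (1, 0)` (`Bool = false`) or `q = p + (0, 1)` (`true`), let `rank e` = number of `f : E` with
`key (L f) p q < key (L e) p q` (`key` has values in a linear order); `c (e, (p, bool)) = (2 * rank e + 1) / N - 1`; so `|c| ≤ 1 - 1/N` and the values for different ranks differ by at least `2/N`.
`δ = 1/N`. Then `|tau x e p q| < 1` for all `x` with `|x - c| < δ`, and for `e ≠ f` passing the side (`LAdj p q` by `Fam.adj`): keys are different (`key_ne`), the rank is strictly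
monotone in the key, so `tau x f p q < tau x e p q ↔ key f p q < key e p q` for canonical `(p, q)`; for `(q, p)` canonical use `tau_anti` and the definition of `Left`.
-/

namespace Pool.Agent.Helper76.RL

open Pool.Agent.Helper46.RM
open scoped Classical

variable {E : Type*}

private def nxt75 (p : P2) (b : Bool) : P2 := if b then (p.1, p.2 + 1) else (p.1 + 1, p.2)

private theorem can75 {p q : P2} (h : Can p q) :
    ∃ b : Bool, nxt75 p b = q ∧ ∀ (x : E × (P2 × Bool) → ℝ) (e : E), tau x e p q = x (e, (p, b)) := by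
  rcases h with h | h
  · refine ⟨false, ?_, fun x e => ?_⟩
    · rw [h]
      rfl
    · unfold tau
      rw [if_pos h]
  · refine ⟨true, ?_, fun x e => ?_⟩
    · rw [h]
      rfl
    · unfold tau
      have h1 : ¬ q = (p.1 + 1, p.2) := by
        intro h2
        rw [h] at h2
        have := congrArg Prod.fst h2
        simp at this
      have h3 : ¬ p = (q.1 + 1, q.2) := by
        intro h2
        rw [h] at h2
        have := congrArg Prod.fst h2
        simp at this
      rw [if_neg h1, if_neg h3, if_pos h]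

private theorem rank_lt75 {A : Type*} [LinearOrder A] [Fintype E] (k : E → A) {e f : E} (h : k f < k e) :
    (Finset.univ.filter (fun g => k g < k f)).card < (Finset.univ.filter (fun g => k g < k e)).card := by
  apply Finset.card_lt_card
  rw [Finset.ssubset_iff_of_subset]
  · refine ⟨f, ?_, ?_⟩
    · rw [Finset.mem_filter]
      exact ⟨Finset.mem_univ _, h⟩
    · rw [Finset.mem_filter]
      exact fun hh => lt_irrefl _ hh.2
  · intro g hg
    rw [Finset.mem_filter] at hg ⊢
    exact ⟨hg.1, hg.2.trans h⟩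

theorem exists_base [Finite E] (F : Fam E) : ∃ c : E × (P2 × Bool) → ℝ, ∃ δ > 0,
    ∀ x : E × (P2 × Bool) → ℝ, (∀ i, |x i - c i| < δ) →
      (∀ e p q, |tau x e p q| < 1) ∧
      (∀ e f p q, e ≠ f → Pass (F.L e) p q → Pass (F.L f) p q →
        tau x e p q ≠ tau x f p q ∧
          (tau x f p q < tau x e p q ↔ Left (F.L e) (F.L f) p q)) := by
  haveI : Fintype E := Fintype.ofFinite E
  obtain ⟨M, hM⟩ : ∃ M : ℝ, M = (Fintype.card E : ℝ) + 1 := ⟨_, rfl⟩
  have hM0 : 0 < M := by
    rw [hM]
    positivity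
  let rk : E → P2 → P2 → ℕ := fun e p q =>
    (Finset.univ.filter (fun g => key (F.L g) p q < key (F.L e) p q)).card
  have hrk : ∀ e p q, (rk e p q : ℝ) ≤ M - 1 := by
    intro e p q
    rw [hM, add_sub_cancel_right]
    exact_mod_cast Finset.card_le_univ _
  refine ⟨fun i => (2 * (rk i.1 i.2.1 (nxt75 i.2.1 i.2.2) : ℝ) + 1) / M - 1, 1 / M, by positivity, ?_⟩
  intro x hx
  have hx1 : ∀ i, |x i| < 1 := by
    intro i
    have h1 := abs_lt.1 (hx i)
    have h2 := hrk i.1 i.2.1 (nxt75 i.2.1 i.2.2)
    have h3 : (2 * (rk i.1 i.2.1 (nxt75 i.2.1 i.2.2) : ℝ) + 1) / M ≤ 2 - 1 / M := by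
      rw [div_le_iff₀ hM0, sub_mul, one_div, inv_mul_cancel₀ hM0.ne']
      linarith
    have h4 : 1 / M ≤ (2 * (rk i.1 i.2.1 (nxt75 i.2.1 i.2.2) : ℝ) + 1) / M := by
      apply div_le_div_of_nonneg_right _ hM0.le
      have : (0 : ℝ) ≤ (rk i.1 i.2.1 (nxt75 i.2.1 i.2.2) : ℝ) := Nat.cast_nonneg _
      linarith
    rw [abs_lt]
    constructor <;> linarith [h1.1, h1.2]
  refine ⟨?_, ?_⟩
  · intro e p q
    unfold tau
    split_ifs
    · exact hx1 _
    · rw [abs_neg]
      exact hx1 _
    · exact hx1 _
    · rw [abs_neg]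
      exact hx1 _
    · rw [abs_zero]
      exact one_pos
  -- the canonical darts
  have hmono : ∀ e f p q, Can p q → key (F.L f) p q < key (F.L e) p q → tau x f p q < tau x e p q := by
    intro e f p q hc hk
    obtain ⟨b, hb, ht⟩ := can75 (E := E) hc
    rw [ht, ht]
    have h1 := rank_lt75 (fun g => key (F.L g) p q) hk
    have h2 : (rk f p q : ℝ) + 1 ≤ (rk e p q : ℝ) := by exact_mod_cast h1
    have h3 := abs_lt.1 (hx (e, (p, b)))
    have h4 := abs_lt.1 (hx (f, (p, b)))
    simp only [hb] at h3 h4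
    have h5 : (2 * (rk f p q : ℝ) + 1) / M + 2 * (1 / M) ≤ (2 * (rk e p q : ℝ) + 1) / M := by
      rw [show (2 * (rk f p q : ℝ) + 1) / M + 2 * (1 / M) = (2 * (rk f p q : ℝ) + 1 + 2) / M by ring]
      apply div_le_div_of_nonneg_right _ hM0.le
      linarith
    linarith [h3.1, h4.2]
  have hcan : ∀ e f p q, e ≠ f → Can p q → Pass (F.L e) p q → Pass (F.L f) p q →
      tau x e p q ≠ tau x f p q ∧ (tau x f p q < tau x e p q ↔ key (F.L f) p q < key (F.L e) p q) := by
    intro e f p q hef hc he hf
    rcases lt_or_gt_of_ne (key_ne F hef he hf) with h1 | h1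
    · have h2 := hmono f e p q hc h1
      exact ⟨h2.ne, fun h3 => absurd (h3.trans h2) (lt_irrefl _), fun h3 => absurd (h3.trans h1) (lt_irrefl _)⟩
    · have h2 := hmono e f p q hc h1
      exact ⟨h2.ne', fun _ => h1, fun _ => h2⟩
  intro e f p q hef he hf
  by_cases hc : Can p q
  · have h1 := hcan e f p q hef hc he hf
    refine ⟨h1.1, ?_⟩
    unfold Left
    rw [if_pos hc]
    exact h1.2
  · have hadj : LAdj p q := F.adj he
    have hc' : Can q p := by
      rcases can_cases hadj with h1 | h1
      · exact absurd h1.1 hc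
      · exact h1.1
    have h1 := hcan f e q p hef.symm hc' hf.symm he.symm
    rw [tau_anti x e q p, tau_anti x f q p]
    refine ⟨fun h2 => h1.1 (neg_injective h2).symm, ?_⟩
    unfold Left
    rw [if_neg hc, neg_lt_neg_iff]
    exact h1.2

end Pool.Agent.Helper76.RL
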