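import Pool.Agent.Helper76.RL.Defs

/-!
# RL-CELL: regions and side points

`orect_inter`: the lattice point `(max lo.1 lo'.1, max lo.2 lo'.2)`: e.g. `2 * lo'.1 - 1 < z.1 < 2 * hi.1 + 1` gives `lo'.1 ≤ hi.1`.
`sp_not_mem`: cases of `LAdj`: for `q = (p.1 + 1, p.2)` the point is `(2 p.1 + 1, 2 p.2 + τ)`: `2 lo.1 - 1 < 2 p.1 + 1 < 2 hi.1 + 1` gives `lo.1 ≤ p.1` and `p.1 + 1 ≤ hi.1`,
`2 lo.2 - 1 < 2 p.2 + τ < 2 hi.2 + 1` and `|τ| < 1` give `lo.2 ≤ p.2 ≤ hi.2`. `sp_inj`: one coordinate of a side point is an odd integer, the other one is less than 1 away from an even integer.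
`ctr_mem`: clear. `radial_open`: `ctr` is in the open rectangle, `sp y r τ` in the closed one (`y ∈ rect`), so `ctr + u (sp - ctr) = (1 - u) ctr + u sp` with `u < 1` is in the open one.
`chord_open`: all cases of `LAdj`; a point `(1 - u) A + u B`, `0 < u < 1`.
-/

namespace Pool.Agent.Helper76.RL

open Pool.Agent.Helper46.RM

private theorem il68 {a b : ℤ} (h : 2 * (a : ℝ) < 2 * (b : ℝ) + 2) : a ≤ b := by
  have h1 : (a : ℝ) < ((b + 1 : ℤ) : ℝ) := by push_cast; linarith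
  have h2 : a < b + 1 := by exact_mod_cast h1
  omega

private theorem hv68 {p q : P2} (h : LAdj p q) :
    (q.2 = p.2 ∧ (q.1 = p.1 + 1 ∨ q.1 = p.1 - 1)) ∨
      (q.1 = p.1 ∧ (q.2 = p.2 + 1 ∨ q.2 = p.2 - 1)) := by
  rcases h with (h | h) | (h | h) <;> rw [Prod.ext_iff] at h <;> simp only at h <;> omega

private theorem bnd68 {p q : P2} (h : LAdj p q) {τ : ℝ} (hτ : |τ| < 1) :
    |τ * ((q.2 : ℝ) - p.2)| < 1 ∧ |τ * ((q.1 : ℝ) - p.1)| < 1 := by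
  rcases hv68 h with ⟨v, v' | v'⟩ | ⟨v, v' | v'⟩
  · have c1 : (q.1 : ℝ) - p.1 = 1 := by rw [v']; push_cast; ring
    have c2 : (q.2 : ℝ) - p.2 = 0 := by rw [v]; ring
    rw [c1, c2, mul_zero, mul_one, abs_zero]
    exact ⟨one_pos, hτ⟩
  · have c1 : (q.1 : ℝ) - p.1 = -1 := by rw [v']; push_cast; ring
    have c2 : (q.2 : ℝ) - p.2 = 0 := by rw [v]; ring
    rw [c1, c2, mul_zero, mul_neg_one, abs_zero, abs_neg]
    exact ⟨one_pos, hτ⟩
  · have c1 : (q.2 : ℝ) - p.2 = 1 := by rw [v']; push_cast; ring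
    have c2 : (q.1 : ℝ) - p.1 = 0 := by rw [v]; ring
    rw [c1, c2, mul_zero, mul_one, abs_zero]
    exact ⟨hτ, one_pos⟩
  · have c1 : (q.2 : ℝ) - p.2 = -1 := by rw [v']; push_cast; ring
    have c2 : (q.1 : ℝ) - p.1 = 0 := by rw [v]; ring
    rw [c1, c2, mul_zero, mul_neg_one, abs_zero, abs_neg]
    exact ⟨hτ, one_pos⟩

private theorem weak68 {p q : P2} (h : LAdj p q) {τ : ℝ} (hτ : |τ| < 1) :
    2 * (p.1 : ℝ) - 1 ≤ (sp p q τ).1 ∧ (sp p q τ).1 ≤ 2 * (p.1 : ℝ) + 1 ∧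
      2 * (p.2 : ℝ) - 1 ≤ (sp p q τ).2 ∧ (sp p q τ).2 ≤ 2 * (p.2 : ℝ) + 1 := by
  obtain ⟨h1, h2⟩ := abs_lt.1 hτ
  simp only [sp]
  rcases hv68 h with ⟨v, v' | v'⟩ | ⟨v, v' | v'⟩
  · have c1 : (q.1 : ℝ) = p.1 + 1 := by rw [v']; push_cast; ring
    have c2 : (q.2 : ℝ) = p.2 := by rw [v]
    rw [c1, c2]
    refine ⟨?_, ?_, ?_, ?_⟩ <;> linarith
  · have c1 : (q.1 : ℝ) = p.1 - 1 := by rw [v']; push_cast; ring
    have c2 : (q.2 : ℝ) = p.2 := by rw [v]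
    rw [c1, c2]
    refine ⟨?_, ?_, ?_, ?_⟩ <;> linarith
  · have c1 : (q.2 : ℝ) = p.2 + 1 := by rw [v']; push_cast; ring
    have c2 : (q.1 : ℝ) = p.1 := by rw [v]
    rw [c1, c2]
    refine ⟨?_, ?_, ?_, ?_⟩ <;> linarith
  · have c1 : (q.2 : ℝ) = p.2 - 1 := by rw [v']; push_cast; ring
    have c2 : (q.1 : ℝ) = p.1 := by rw [v]
    rw [c1, c2]
    refine ⟨?_, ?_, ?_, ?_⟩ <;> linarith

private theorem strict68 {p q : P2} (h : LAdj p q) {τ : ℝ} (hτ : |τ| < 1) :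
    (2 * (p.1 : ℝ) - 1 < (sp p q τ).1 ∨ q = (p.1 - 1, p.2)) ∧
      ((sp p q τ).1 < 2 * (p.1 : ℝ) + 1 ∨ q = (p.1 + 1, p.2)) ∧
      (2 * (p.2 : ℝ) - 1 < (sp p q τ).2 ∨ q = (p.1, p.2 - 1)) ∧
      ((sp p q τ).2 < 2 * (p.2 : ℝ) + 1 ∨ q = (p.1, p.2 + 1)) := by
  obtain ⟨h1, h2⟩ := abs_lt.1 hτ
  simp only [sp]
  rcases hv68 h with ⟨v, v' | v'⟩ | ⟨v, v' | v'⟩
  · have c1 : (q.1 : ℝ) = p.1 + 1 := by rw [v']; push_cast; ring
    have c2 : (q.2 : ℝ) = p.2 := by rw [v]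
    rw [c1, c2]
    exact ⟨Or.inl (by linarith), Or.inr (Prod.ext v' v), Or.inl (by linarith),
      Or.inl (by linarith)⟩
  · have c1 : (q.1 : ℝ) = p.1 - 1 := by rw [v']; push_cast; ring
    have c2 : (q.2 : ℝ) = p.2 := by rw [v]
    rw [c1, c2]
    exact ⟨Or.inr (Prod.ext v' v), Or.inl (by linarith), Or.inl (by linarith),
      Or.inl (by linarith)⟩
  · have c1 : (q.2 : ℝ) = p.2 + 1 := by rw [v']; push_cast; ring
    have c2 : (q.1 : ℝ) = p.1 := by rw [v]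
    rw [c1, c2]
    exact ⟨Or.inl (by linarith), Or.inl (by linarith), Or.inl (by linarith),
      Or.inr (Prod.ext v v')⟩
  · have c1 : (q.2 : ℝ) = p.2 - 1 := by rw [v']; push_cast; ring
    have c2 : (q.1 : ℝ) = p.1 := by rw [v]
    rw [c1, c2]
    exact ⟨Or.inl (by linarith), Or.inl (by linarith), Or.inr (Prod.ext v v'),
      Or.inl (by linarith)⟩

theorem orect_inter {lo hi lo' hi' : P2} (h1 : lo.1 ≤ hi.1) (h2 : lo.2 ≤ hi.2)
    (h1' : lo'.1 ≤ hi'.1) (h2' : lo'.2 ≤ hi'.2) {z : ℝ × ℝ} (h : z ∈ orect lo hi)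
    (h' : z ∈ orect lo' hi') : ∃ p, p ∈ rect lo hi ∧ p ∈ rect lo' hi' := by
  obtain ⟨a1, a2, a3, a4⟩ := h
  obtain ⟨b1, b2, b3, b4⟩ := h'
  refine ⟨(max lo.1 lo'.1, max lo.2 lo'.2), ⟨le_max_left _ _, ?_, le_max_left _ _, ?_⟩,
    ⟨le_max_right _ _, ?_, le_max_right _ _, ?_⟩⟩
  · exact max_le h1 (il68 (by linarith))
  · exact max_le h2 (il68 (by linarith))
  · exact max_le (il68 (by linarith)) h1'
  · exact max_le (il68 (by linarith)) h2'

theorem sp_not_mem {p q : P2} (h : LAdj p q) {τ : ℝ} (hτ : |τ| < 1) {lo hi : P2}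
    (hz : sp p q τ ∈ orect lo hi) : p ∈ rect lo hi ∧ q ∈ rect lo hi := by
  obtain ⟨h1, h2⟩ := abs_lt.1 hτ
  obtain ⟨a1, a2, a3, a4⟩ := hz
  simp only [sp] at a1 a2 a3 a4
  rcases hv68 h with ⟨v, v' | v'⟩ | ⟨v, v' | v'⟩
  · have c1 : (q.1 : ℝ) = p.1 + 1 := by rw [v']; push_cast; ring
    have c2 : (q.2 : ℝ) = p.2 := by rw [v]
    rw [c1, c2] at a1 a2 a3 a4
    have k1 : lo.1 ≤ p.1 := il68 (by linarith)
    have k2 : p.1 + 1 ≤ hi.1 := il68 (by push_cast; linarith)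
    have k3 : lo.2 ≤ p.2 := il68 (by linarith)
    have k4 : p.2 ≤ hi.2 := il68 (by linarith)
    exact ⟨⟨k1, by omega, k3, k4⟩, ⟨by omega, by omega, by omega, by omega⟩⟩
  · have c1 : (q.1 : ℝ) = p.1 - 1 := by rw [v']; push_cast; ring
    have c2 : (q.2 : ℝ) = p.2 := by rw [v]
    rw [c1, c2] at a1 a2 a3 a4
    have k1 : lo.1 ≤ p.1 - 1 := il68 (by push_cast; linarith)
    have k2 : p.1 ≤ hi.1 := il68 (by linarith)
    have k3 : lo.2 ≤ p.2 := il68 (by linarith)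
    have k4 : p.2 ≤ hi.2 := il68 (by linarith)
    exact ⟨⟨by omega, k2, k3, k4⟩, ⟨by omega, by omega, by omega, by omega⟩⟩
  · have c1 : (q.2 : ℝ) = p.2 + 1 := by rw [v']; push_cast; ring
    have c2 : (q.1 : ℝ) = p.1 := by rw [v]
    rw [c1, c2] at a1 a2 a3 a4
    have k1 : lo.2 ≤ p.2 := il68 (by linarith)
    have k2 : p.2 + 1 ≤ hi.2 := il68 (by push_cast; linarith)
    have k3 : lo.1 ≤ p.1 := il68 (by linarith)
    have k4 : p.1 ≤ hi.1 := il68 (by linarith)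
    exact ⟨⟨k3, k4, k1, by omega⟩, ⟨by omega, by omega, by omega, by omega⟩⟩
  · have c1 : (q.2 : ℝ) = p.2 - 1 := by rw [v']; push_cast; ring
    have c2 : (q.1 : ℝ) = p.1 := by rw [v]
    rw [c1, c2] at a1 a2 a3 a4
    have k1 : lo.2 ≤ p.2 - 1 := il68 (by push_cast; linarith)
    have k2 : p.2 ≤ hi.2 := il68 (by linarith)
    have k3 : lo.1 ≤ p.1 := il68 (by linarith)
    have k4 : p.1 ≤ hi.1 := il68 (by linarith)
    exact ⟨⟨k3, k4, by omega, k2⟩, ⟨by omega, by omega, by omega, by omega⟩⟩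

theorem sp_inj {p q p' q' : P2} (h : LAdj p q) (h' : LAdj p' q') {τ τ' : ℝ} (hτ : |τ| < 1)
    (hτ' : |τ'| < 1) (he : sp p q τ = sp p' q' τ') :
    (p = p' ∧ q = q' ∧ τ = τ') ∨ (p = q' ∧ q = p' ∧ τ' = -τ) := by
  obtain ⟨b1, b2⟩ := bnd68 h hτ
  obtain ⟨b3, b4⟩ := bnd68 h' hτ'
  rw [abs_lt] at b1 b2 b3 b4
  have e1 : (p.1 : ℝ) + q.1 - τ * ((q.2 : ℝ) - p.2) = p'.1 + q'.1 - τ' * ((q'.2 : ℝ) - p'.2) :=
    congrArg Prod.fst he
  have e2 : (p.2 : ℝ) + q.2 + τ * ((q.1 : ℝ) - p.1) = p'.2 + q'.2 + τ' * ((q'.1 : ℝ) - p'.1) :=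
    congrArg Prod.snd he
  rcases hv68 h with ⟨v, v'⟩ | ⟨v, v'⟩ <;> rcases hv68 h' with ⟨w, w'⟩ | ⟨w, w'⟩
  · have c1 : (q.2 : ℝ) = p.2 := by rw [v]
    have c2 : (q'.2 : ℝ) = p'.2 := by rw [w]
    rw [c1, c2, sub_self, sub_self, mul_zero, mul_zero, sub_zero, sub_zero] at e1
    have i1 : p.1 + q.1 = p'.1 + q'.1 := by exact_mod_cast e1
    have i2 : p.2 = p'.2 := le_antisymm (il68 (by linarith)) (il68 (by linarith))
    have c3 : (p.2 : ℝ) = p'.2 := by rw [i2]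
    have ne : (q.1 : ℝ) - p.1 ≠ 0 := by
      intro h0
      have : q.1 = p.1 := by exact_mod_cast sub_eq_zero.1 h0
      omega
    by_cases k : p.1 = p'.1
    · have k' : q.1 = q'.1 := by omega
      refine Or.inl ⟨Prod.ext k i2, Prod.ext k' (by omega), ?_⟩
      have d1 : (q'.1 : ℝ) - p'.1 = (q.1 : ℝ) - p.1 := by rw [k, k']
      rw [d1] at e2
      have : (τ - τ') * ((q.1 : ℝ) - p.1) = 0 := by linarith
      exact sub_eq_zero.1 ((mul_eq_zero.1 this).resolve_right ne)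
    · have k' : p.1 = q'.1 ∧ q.1 = p'.1 := by omega
      refine Or.inr ⟨Prod.ext k'.1 (by omega), Prod.ext k'.2 (by omega), ?_⟩
      have d1 : (q'.1 : ℝ) - p'.1 = -((q.1 : ℝ) - p.1) := by rw [← k'.1, ← k'.2]; ring
      rw [d1] at e2
      have : (τ' - -τ) * ((q.1 : ℝ) - p.1) = 0 := by linarith
      exact sub_eq_zero.1 ((mul_eq_zero.1 this).resolve_right ne)
  · exfalso
    have c1 : (q.2 : ℝ) = p.2 := by rw [v]
    have c2 : (q'.1 : ℝ) = p'.1 := by rw [w]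
    rw [c1, c2, sub_self, mul_zero, sub_zero] at e1
    have i1 : p.1 + q.1 = 2 * p'.1 := by
      have l1 : ((p.1 + q.1 : ℤ) : ℝ) < ((2 * p'.1 + 1 : ℤ) : ℝ) := by push_cast; linarith
      have l2 : ((2 * p'.1 - 1 : ℤ) : ℝ) < ((p.1 + q.1 : ℤ) : ℝ) := by push_cast; linarith
      have l3 : p.1 + q.1 < 2 * p'.1 + 1 := by exact_mod_cast l1
      have l4 : 2 * p'.1 - 1 < p.1 + q.1 := by exact_mod_cast l2
      omega
    omega
  · exfalso
    have c1 : (q.1 : ℝ) = p.1 := by rw [v]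
    have c2 : (q'.2 : ℝ) = p'.2 := by rw [w]
    rw [c1, c2, sub_self, mul_zero, sub_zero] at e1
    have i1 : 2 * p.1 = p'.1 + q'.1 := by
      have l1 : ((p'.1 + q'.1 : ℤ) : ℝ) < ((2 * p.1 + 1 : ℤ) : ℝ) := by push_cast; linarith
      have l2 : ((2 * p.1 - 1 : ℤ) : ℝ) < ((p'.1 + q'.1 : ℤ) : ℝ) := by push_cast; linarith
      have l3 : p'.1 + q'.1 < 2 * p.1 + 1 := by exact_mod_cast l1
      have l4 : 2 * p.1 - 1 < p'.1 + q'.1 := by exact_mod_cast l2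
      omega
    omega
  · have c1 : (q.1 : ℝ) = p.1 := by rw [v]
    have c2 : (q'.1 : ℝ) = p'.1 := by rw [w]
    rw [c1, c2, sub_self, sub_self, mul_zero, mul_zero, add_zero, add_zero] at e2
    have i1 : p.2 + q.2 = p'.2 + q'.2 := by exact_mod_cast e2
    have i2 : p.1 = p'.1 := le_antisymm (il68 (by linarith)) (il68 (by linarith))
    have c3 : (p.1 : ℝ) = p'.1 := by rw [i2]
    have ne : (q.2 : ℝ) - p.2 ≠ 0 := by
      intro h0
      have : q.2 = p.2 := by exact_mod_cast sub_eq_zero.1 h0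
      omega
    by_cases k : p.2 = p'.2
    · have k' : q.2 = q'.2 := by omega
      refine Or.inl ⟨Prod.ext i2 k, Prod.ext (by omega) k', ?_⟩
      have d1 : (q'.2 : ℝ) - p'.2 = (q.2 : ℝ) - p.2 := by rw [k, k']
      rw [d1] at e1
      have : (τ - τ') * ((q.2 : ℝ) - p.2) = 0 := by linarith
      exact sub_eq_zero.1 ((mul_eq_zero.1 this).resolve_right ne)
    · have k' : p.2 = q'.2 ∧ q.2 = p'.2 := by omega
      refine Or.inr ⟨Prod.ext (by omega) k'.1, Prod.ext (by omega) k'.2, ?_⟩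
      have d1 : (q'.2 : ℝ) - p'.2 = -((q.2 : ℝ) - p.2) := by rw [← k'.1, ← k'.2]; ring
      rw [d1] at e1
      have : (τ' - -τ) * ((q.2 : ℝ) - p.2) = 0 := by linarith
      exact sub_eq_zero.1 ((mul_eq_zero.1 this).resolve_right ne)

theorem ctr_mem {lo hi : P2} (h1 : lo.1 ≤ hi.1) (h2 : lo.2 ≤ hi.2) : ctr lo hi ∈ orect lo hi := by
  have c1 : (lo.1 : ℝ) ≤ hi.1 := by exact_mod_cast h1
  have c2 : (lo.2 : ℝ) ≤ hi.2 := by exact_mod_cast h2
  refine ⟨?_, ?_, ?_, ?_⟩ <;> simp only [ctr] <;> linarith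

theorem radial_open {lo hi y r : P2} (hy : y ∈ rect lo hi) (hr : LAdj y r) {τ : ℝ}
    (hτ : |τ| < 1) {u : ℝ} (hu : 0 ≤ u) (hu1 : u < 1) :
    ctr lo hi + u • (sp y r τ - ctr lo hi) ∈ orect lo hi := by
  obtain ⟨k1, k2, k3, k4⟩ := hy
  have r1 : (lo.1 : ℝ) ≤ y.1 := by exact_mod_cast k1
  have r2 : (y.1 : ℝ) ≤ hi.1 := by exact_mod_cast k2
  have r3 : (lo.2 : ℝ) ≤ y.2 := by exact_mod_cast k3
  have r4 : (y.2 : ℝ) ≤ hi.2 := by exact_mod_cast k4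
  obtain ⟨s1, s2, s3, s4⟩ := weak68 hr hτ
  have hu2 : 0 < 1 - u := by linarith
  have key : ∀ L M c s : ℝ, L < c → c < M → L ≤ s → s ≤ M →
      L < c + u * (s - c) ∧ c + u * (s - c) < M := by
    intro L M c s t1 t2 t3 t4
    have m1 := mul_pos hu2 (sub_pos.2 t1)
    have m2 := mul_pos hu2 (sub_pos.2 t2)
    have m3 := mul_nonneg hu (sub_nonneg.2 t3)
    have m4 := mul_nonneg hu (sub_nonneg.2 t4)
    constructor <;> nlinarith [m1, m2, m3, m4]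
  have q1 := key (2 * (lo.1 : ℝ) - 1) (2 * (hi.1 : ℝ) + 1) ((lo.1 : ℝ) + hi.1) (sp y r τ).1
    (by linarith) (by linarith) (by linarith) (by linarith)
  have q2 := key (2 * (lo.2 : ℝ) - 1) (2 * (hi.2 : ℝ) + 1) ((lo.2 : ℝ) + hi.2) (sp y r τ).2
    (by linarith) (by linarith) (by linarith) (by linarith)
  exact ⟨q1.1, q1.2, q2.1, q2.2⟩

theorem chord_open {p a b : P2} (ha : LAdj p a) (hb : LAdj p b) (hab : a ≠ b) {s t : ℝ}
    (hs : |s| < 1) (ht : |t| < 1) : openSegment ℝ (sp p a s) (sp p b t) ⊆ orect p p := by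
  rintro z ⟨x, y, hx, hy, hxy, rfl⟩
  obtain ⟨s1, s2, s3, s4⟩ := weak68 ha hs
  obtain ⟨t1, t2, t3, t4⟩ := weak68 hb ht
  obtain ⟨u1, u2, u3, u4⟩ := strict68 ha hs
  obtain ⟨v1, v2, v3, v4⟩ := strict68 hb ht
  have hy' : y = 1 - x := by linarith
  have key : ∀ M A B : ℝ, A ≤ M → B ≤ M → (A < M ∨ B < M) → x * A + y * B < M := by
    intro M A B h1 h2 h3
    have m1 := mul_nonneg hx.le (sub_nonneg.2 h1)
    have m2 := mul_nonneg hy.le (sub_nonneg.2 h2)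
    have e : x * M + y * M = M := by rw [← add_mul, hxy, one_mul]
    rcases h3 with h3 | h3
    · have m3 := mul_pos hx (sub_pos.2 h3)
      nlinarith [m1, m2, m3, e]
    · have m3 := mul_pos hy (sub_pos.2 h3)
      nlinarith [m1, m2, m3, e]
  have w1 := key (2 * (p.1 : ℝ) + 1) (sp p a s).1 (sp p b t).1 s2 t2 (by
    rcases u2 with h | h
    · exact Or.inl h
    · rcases v2 with h' | h'
      · exact Or.inr h'
      · exact absurd (h.trans h'.symm) hab)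
  have w2 := key (2 * (p.2 : ℝ) + 1) (sp p a s).2 (sp p b t).2 s4 t4 (by
    rcases u4 with h | h
    · exact Or.inl h
    · rcases v4 with h' | h'
      · exact Or.inr h'
      · exact absurd (h.trans h'.symm) hab)
  have w3 := key (-(2 * (p.1 : ℝ) - 1)) (-(sp p a s).1) (-(sp p b t).1) (by linarith)
    (by linarith) (by
    rcases u1 with h | h
    · exact Or.inl (by linarith)
    · rcases v1 with h' | h'
      · exact Or.inr (by linarith)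
      · exact absurd (h.trans h'.symm) hab)
  have w4 := key (-(2 * (p.2 : ℝ) - 1)) (-(sp p a s).2) (-(sp p b t).2) (by linarith)
    (by linarith) (by
    rcases u3 with h | h
    · exact Or.inl (by linarith)
    · rcases v3 with h' | h'
      · exact Or.inr (by linarith)
      · exact absurd (h.trans h'.symm) hab)
  have g1 : (x • sp p a s + y • sp p b t).1 = x * (sp p a s).1 + y * (sp p b t).1 := rfl
  have g2 : (x • sp p a s + y • sp p b t).2 = x * (sp p a s).2 + y * (sp p b t).2 := rfl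
  refine ⟨?_, ?_, ?_, ?_⟩
  · rw [g1]; linarith
  · rw [g1]; linarith
  · rw [g2]; linarith
  · rw [g2]; linarith

end Pool.Agent.Helper76.RL
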