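import Pool.Agent.Helper76.RL.Cell
import Pool.Agent.Helper76.RL.Turn

/-!
# RL-CELL2: radial segments and chords meet in at most one point

`radial_eq`: let `S, S'` be the two boundary points, `u ≤ u'` say; then `S' = ctr + (u / u') (S - ctr)` if `u' ≠ 0`; if `u < u'` this is in the open rectangle (`radial_open`), which `sp_not_mem` excludes as
`r' ∉ rect`. So `u = u'` and `S = S'`.
`chord_sub`: let `A, B, C, D` be the four ends (all different by `sp_inj`/`sp_swap`: on a common side the coordinates are different). Suppose the two segments have two different common points; then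
`A, B, C, D` are on one line. Order them along the line: some end of one chord would be strictly between the ends of a pair on different sides, hence in the open square (`chord_open`), or on a
line containing a side of the square. Simplest: on the line with parameter, `A = 0, B = 1, C = λ`. If `0 < λ < 1` then `C` is in the open box by `chord_open`, contradiction to `sp_not_mem`. If `λ > 1`: `B` is strictly
between `A` and `C`; if `c ≠ a` this contradicts `chord_open` for `A, C`; if `c = a` then `B` is on the line of the side of `a`, but `b ≠ a` (all cases of `LAdj`, coordinates). If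
`λ < 0`: same with `A` between `B` and `C`. `λ = 0, 1`: `C = A` or `C = B`, excluded.
-/

namespace Pool.Agent.Helper76.RL

open Pool.Agent.Helper46.RM

private theorem rad38 {lo hi y r y' r' : P2} (hy : y ∈ rect lo hi) (hyr : LAdj y r)
    (hr' : r' ∉ rect lo hi) (hyr' : LAdj y' r') {τ τ' : ℝ} (hτ : |τ| < 1) (hτ' : |τ'| < 1)
    {u u' : ℝ} (hu : 0 < u) (hu' : 0 < u') (hlt : u < u')
    (he : ctr lo hi + u • (sp y r τ - ctr lo hi) =
      ctr lo hi + u' • (sp y' r' τ' - ctr lo hi)) : False := by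
  have h1 : u / u' < 1 := (div_lt_one hu').2 hlt
  have h2 := radial_open hy hyr hτ (div_pos hu hu').le h1
  have h3 : ctr lo hi + (u / u') • (sp y r τ - ctr lo hi) = sp y' r' τ' := by
    have h4 := add_left_cancel he
    have h5 : (u / u') • (sp y r τ - ctr lo hi) = sp y' r' τ' - ctr lo hi := by
      rw [div_eq_inv_mul, mul_smul, h4, smul_smul, inv_mul_cancel₀ hu'.ne', one_smul]
    rw [h5]
    abel
  rw [h3] at h2
  exact hr' (sp_not_mem hyr' hτ' h2).2

private theorem dirR38 {p q : P2} (h : LAdj p q) : ((q.1 : ℝ) - p.1 = 1 ∧ (q.2 : ℝ) - p.2 = 0) ∨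
    ((q.1 : ℝ) - p.1 = -1 ∧ (q.2 : ℝ) - p.2 = 0) ∨ ((q.1 : ℝ) - p.1 = 0 ∧ (q.2 : ℝ) - p.2 = 1) ∨
    ((q.1 : ℝ) - p.1 = 0 ∧ (q.2 : ℝ) - p.2 = -1) := by
  rcases h with (h | h) | (h | h)
  · left
    rw [h]
    push_cast
    constructor <;> ring
  · right; left
    rw [h]
    push_cast
    constructor <;> ring
  · right; right; left
    rw [h]
    push_cast
    constructor <;> ring
  · right; right; right
    rw [h]
    push_cast
    constructor <;> ring

private def fn38 (p c : P2) (z : ℝ × ℝ) : ℝ :=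
  (z.1 - 2 * p.1) * ((c.1 : ℝ) - p.1) + (z.2 - 2 * p.2) * ((c.2 : ℝ) - p.2)

private theorem fn_line38 (p c : P2) {A B C : ℝ × ℝ} {l : ℝ} (h1 : C.1 = A.1 + l * (B.1 - A.1))
    (h2 : C.2 = A.2 + l * (B.2 - A.2)) :
    fn38 p c C = (1 - l) * fn38 p c A + l * fn38 p c B := by
  simp only [fn38, h1, h2]
  ring

private theorem val38 {p a c : P2} (ha : LAdj p a) (hc : LAdj p c) {s : ℝ} (hs : |s| < 1) :
    fn38 p c (sp p a s) ≤ 1 ∧ (1 ≤ fn38 p c (sp p a s) → a = c) ∧
      (a = c → fn38 p c (sp p a s) = 1) := by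
  have e : fn38 p c (sp p a s) =
      (((a.1 : ℝ) - p.1) - s * ((a.2 : ℝ) - p.2)) * ((c.1 : ℝ) - p.1) +
        (((a.2 : ℝ) - p.2) + s * ((a.1 : ℝ) - p.1)) * ((c.2 : ℝ) - p.2) := by
    simp only [fn38, sp]
    ring
  have hab : (a.1 : ℝ) - p.1 = (c.1 : ℝ) - p.1 → (a.2 : ℝ) - p.2 = (c.2 : ℝ) - p.2 → a = c := by
    intro h1 h2
    have h3 : (a.1 : ℝ) = c.1 := by linarith
    have h4 : (a.2 : ℝ) = c.2 := by linarith
    exact Prod.ext (by exact_mod_cast h3) (by exact_mod_cast h4)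
  have hca : a = c → (a.1 : ℝ) - p.1 = (c.1 : ℝ) - p.1 ∧ (a.2 : ℝ) - p.2 = (c.2 : ℝ) - p.2 := by
    rintro rfl
    exact ⟨rfl, rfl⟩
  have hs' := abs_lt.1 hs
  rw [e]
  rcases dirR38 ha with ⟨h1, h2⟩ | ⟨h1, h2⟩ | ⟨h1, h2⟩ | ⟨h1, h2⟩ <;>
    rcases dirR38 hc with ⟨h3, h4⟩ | ⟨h3, h4⟩ | ⟨h3, h4⟩ | ⟨h3, h4⟩ <;>
    rw [h1, h2, h3, h4] at hab hca ⊢ <;>
    refine ⟨by linarith [hs'.1, hs'.2], fun h => ?_, fun h => ?_⟩ <;>
    first
      | exact hab rfl rfl
      | (exfalso; linarith [hs'.1, hs'.2])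
      | linarith
      | (exfalso; have h5 := (hca h).1; have h6 := (hca h).2; linarith)

theorem radial_eq {lo hi y r y' r' : P2} (hy : y ∈ rect lo hi) (hr : r ∉ rect lo hi)
    (hyr : LAdj y r) (hy' : y' ∈ rect lo hi) (hr' : r' ∉ rect lo hi) (hyr' : LAdj y' r') {τ τ' : ℝ}
    (hτ : |τ| < 1) (hτ' : |τ'| < 1) {u u' : ℝ} (hu : 0 < u) (hu1 : u ≤ 1) (hu' : 0 < u')
    (hu1' : u' ≤ 1) (he : ctr lo hi + u • (sp y r τ - ctr lo hi) =
      ctr lo hi + u' • (sp y' r' τ' - ctr lo hi)) : u = u' ∧ sp y r τ = sp y' r' τ' := by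
  rcases lt_trichotomy u u' with h | h | h
  · exact (rad38 hy hyr hr' hyr' hτ hτ' hu hu' h he).elim
  · refine ⟨h, ?_⟩
    rw [h] at he
    have h4 := add_left_cancel he
    have h5 := smul_right_injective (ℝ × ℝ) hu'.ne' h4
    exact sub_left_injective h5
  · exact (rad38 hy' hyr' hr hyr hτ' hτ hu' hu h he.symm).elim

theorem chord_sub {p a b c d : P2} (ha : LAdj p a) (hb : LAdj p b) (hc : LAdj p c)
    (hd : LAdj p d) (hab : a ≠ b) (hcd : c ≠ d) {s1 s2 s3 s4 : ℝ} (h1 : |s1| < 1) (h2 : |s2| < 1)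
    (h3 : |s3| < 1) (h4 : |s4| < 1) (hac : a = c → s1 ≠ s3) (had : a = d → s1 ≠ s4)
    (hbc : b = c → s2 ≠ s3) (hbd : b = d → s2 ≠ s4) :
    (chord p a b s1 s2 ∩ chord p c d s3 s4).Subsingleton := by
  intro x hx y hy
  by_contra hne
  obtain ⟨hx1, hx2⟩ := hx
  obtain ⟨hy1, hy2⟩ := hy
  rw [chord, segment_eq_image'] at hx1 hx2 hy1 hy2
  obtain ⟨α, -, hα⟩ := hx1
  obtain ⟨γ, -, hγ⟩ := hx2
  obtain ⟨β, -, hβ⟩ := hy1
  obtain ⟨δ, -, hδ⟩ := hy2
  have nAC : sp p a s1 ≠ sp p c s3 := by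
    intro h
    rcases sp_inj ha hc h1 h3 h with ⟨-, h5, h6⟩ | ⟨h5, -, -⟩
    · exact hac h5 h6
    · exact not_LAdj_self p (h5 ▸ hc)
  have nBC : sp p b s2 ≠ sp p c s3 := by
    intro h
    rcases sp_inj hb hc h2 h3 h with ⟨-, h5, h6⟩ | ⟨h5, -, -⟩
    · exact hbc h5 h6
    · exact not_LAdj_self p (h5 ▸ hc)
  have vA := fun e (he : LAdj p e) => val38 ha he h1
  have vB := fun e (he : LAdj p e) => val38 hb he h2
  have vC := fun e (he : LAdj p e) => val38 hc he h3
  generalize sp p a s1 = A at *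
  generalize sp p b s2 = B at *
  generalize sp p c s3 = C at *
  generalize sp p d s4 = D at *
  have hγδ : δ - γ ≠ 0 := by
    intro h
    apply hne
    rw [← hγ, ← hδ, sub_eq_zero.1 h]
  have e1 := congrArg Prod.fst (hα.trans hγ.symm)
  have e2 := congrArg Prod.snd (hα.trans hγ.symm)
  have e3 := congrArg Prod.fst (hβ.trans hδ.symm)
  have e4 := congrArg Prod.snd (hβ.trans hδ.symm)
  simp only [Prod.fst_add, Prod.snd_add, Prod.smul_fst, Prod.smul_snd, Prod.fst_sub, Prod.snd_sub,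
    smul_eq_mul] at e1 e2 e3 e4
  obtain ⟨l, hl⟩ : ∃ l : ℝ, α * δ - β * γ = l * (δ - γ) :=
    ⟨(α * δ - β * γ) / (δ - γ), (div_mul_cancel₀ _ hγδ).symm⟩
  have c1 : C.1 = A.1 + l * (B.1 - A.1) := by
    have h : (δ - γ) * (C.1 - (A.1 + l * (B.1 - A.1))) = 0 := by
      linear_combination γ * e3 - δ * e1 + (B.1 - A.1) * hl
    have h' := (mul_eq_zero.1 h).resolve_left hγδ
    linarith
  have c2 : C.2 = A.2 + l * (B.2 - A.2) := by
    have h : (δ - γ) * (C.2 - (A.2 + l * (B.2 - A.2))) = 0 := by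
      linear_combination γ * e4 - δ * e2 + (B.2 - A.2) * hl
    have h' := (mul_eq_zero.1 h).resolve_left hγδ
    linarith
  rcases lt_trichotomy l 0 with hl0 | hl0 | hl0
  · -- `A` between `B` and `C`
    have h5 := fn_line38 p a c1 c2
    have h6 := (vA a ha).2.2 rfl
    have h7 := (vC a ha).1
    have h8 := (vB a ha).1
    rw [h6] at h5
    have h9 : 1 ≤ fn38 p a B := by
      by_contra hcon
      rw [not_le] at hcon
      nlinarith
    exact hab ((vB a ha).2.1 h9).symm
  · apply nAC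
    rw [hl0] at c1 c2
    exact Prod.ext (by linarith) (by linarith)
  · rcases lt_trichotomy l 1 with hl1 | hl1 | hl1
    · have h5 := fn_line38 p c c1 c2
      have h6 := (vC c hc).2.2 rfl
      have h7 := (vA c hc).1
      have h8 := (vB c hc).1
      rw [h6] at h5
      have h9 : 1 ≤ fn38 p c A := by
        by_contra hcon
        rw [not_le] at hcon
        nlinarith
      have h10 : 1 ≤ fn38 p c B := by
        by_contra hcon
        rw [not_le] at hcon
        nlinarith
      exact hab (((vA c hc).2.1 h9).trans ((vB c hc).2.1 h10).symm)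
    · apply nBC
      rw [hl1] at c1 c2
      exact Prod.ext (by linarith) (by linarith)
    · have h5 := fn_line38 p b c1 c2
      have h6 := (vB b hb).2.2 rfl
      have h7 := (vC b hb).1
      have h8 := (vA b hb).1
      rw [h6] at h5
      have h9 : 1 ≤ fn38 p b A := by
        by_contra hcon
        rw [not_le] at hcon
        nlinarith
      exact hab ((vA b hb).2.1 h9)

end Pool.Agent.Helper76.RL
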