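import Pool.Agent.Helper46.RM.Ess

/-!
# Project RM, part REAL: definitions

The picture is scaled by 2: the box of the lattice point `p` is the open square `orect p p` with centre `2 p` and half width 1, the region of a
rectangle `lo, hi` is `orect lo hi`, with centre `ctr lo hi`.
`sp p q τ` is the point on the common side of the boxes of `p` and `q` (`LAdj p q`) with counterclockwise coordinate `τ`, seen from `p`
(looking from `p` to `q`, larger `τ` is more to the left); `sp q p (-τ)` is the same point.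

`code l p q` is the list of turns of the walk `l` (run through forwards or backwards) after the dart `p → q`. `Left l l' p q`: at the side of `p` and `q`, looking
from `p` to `q`, the walk `l` is placed on the left of `l'`.
`Fam E`: finite or infinite family of routes. `Off F τ`: offsets `τ e p q` of the route `e` at the side of `p, q`.
-/

namespace Pool.Agent.Helper76.RL

open Pool.Agent.Helper46.RM
open scoped Classical

noncomputable section

def sp (p q : P2) (τ : ℝ) : ℝ × ℝ :=
  ((p.1 : ℝ) + q.1 - τ * ((q.2 : ℝ) - p.2), (p.2 : ℝ) + q.2 + τ * ((q.1 : ℝ) - p.1))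

def orect (lo hi : P2) : Set (ℝ × ℝ) :=
  {z | 2 * (lo.1 : ℝ) - 1 < z.1 ∧ z.1 < 2 * (hi.1 : ℝ) + 1 ∧
    2 * (lo.2 : ℝ) - 1 < z.2 ∧ z.2 < 2 * (hi.2 : ℝ) + 1}

def ctr (lo hi : P2) : ℝ × ℝ := ((lo.1 : ℝ) + hi.1, (lo.2 : ℝ) + hi.2)

/-- the chord of the box of `p` from the side of `a` to the side of `b` -/
def chord (p a b : P2) (s t : ℝ) : Set (ℝ × ℝ) := segment ℝ (sp p a s) (sp p b t)

def turns : P2 → P2 → List P2 → List ℤ
  | _, _, [] => []
  | p, q, s :: l => turn p q s :: turns q s l

/-- the part of the list after the first occurrence of `p, q` -/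
def aft (p q : P2) : List P2 → List P2
  | [] => []
  | x :: l => if x = p ∧ l.head? = some q then l.tail else aft p q l

/-- the future of the walk `l` after the dart `p → q` -/
def fut (l : List P2) (p q : P2) : List P2 :=
  if [p, q] <:+: l then aft p q l else aft p q l.reverse

def code (l : List P2) (p q : P2) : List ℤ := turns p q (fut l p q)

def Can (p q : P2) : Prop := q = (p.1 + 1, p.2) ∨ q = (p.1, p.2 + 1)

def key (l : List P2) (p q : P2) : List ℤ ×ₗ (List ℤ)ᵒᵈ :=
  toLex (code l p q, OrderDual.toDual (code l q p))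

def Left (l l' : List P2) (p q : P2) : Prop :=
  if Can p q then key l' p q < key l p q else key l q p < key l' q p

/-- the walk passes the side of `p` and `q` -/
def Pass (l : List P2) (p q : P2) : Prop := [p, q] <:+: l ∨ [q, p] <:+: l

/-- the walk runs from `a` through `p` to `b` or from `b` through `p` to `a` -/
def Thr (l : List P2) (a p b : P2) : Prop := [a, p, b] <:+: l ∨ [b, p, a] <:+: l

/-- the future `m` after the dart `p → q`: a walk without repetition up to the first point in `Z` -/
structure Good (Z : Set P2) (p q : P2) (m : List P2) : Prop where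
  chain : List.IsChain LAdj (p :: q :: m)
  nodup : (p :: q :: m).Nodup
  fin : ∃ m' z, q :: m = m' ++ [z] ∧ z ∈ Z ∧ ∀ x ∈ m', x ∉ Z

structure Fam (E : Type*) where
  L : E → List P2
  Z : Set P2
  nodup : ∀ e, (L e).Nodup
  chain : ∀ e, List.IsChain LAdj (L e)
  form : ∀ e, ∃ y l z, L e = y :: (l ++ [z]) ∧ l ≠ [] ∧ y ∈ Z ∧ z ∈ Z ∧ ∀ p ∈ l, p ∉ Z
  diff : ∀ e f, e ≠ f → L e ≠ L f ∧ L e ≠ (L f).reverse

/-- the offsets given by the coordinates `x (e, (p, false))` (east side of `p`), `x (e, (p, true))` (north side of `p`) -/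
def tau {E : Type*} (x : E × (P2 × Bool) → ℝ) (e : E) (p q : P2) : ℝ :=
  if q = (p.1 + 1, p.2) then x (e, (p, false))
  else if p = (q.1 + 1, q.2) then - x (e, (q, false))
  else if q = (p.1, p.2 + 1) then x (e, (p, true))
  else if p = (q.1, q.2 + 1) then - x (e, (q, true))
  else 0

structure Off {E : Type*} (F : Fam E) (τ : E → P2 → P2 → ℝ) : Prop where
  anti : ∀ e p q, τ e q p = - τ e p q
  lt : ∀ e p q, |τ e p q| < 1
  ne : ∀ e f p q, e ≠ f → Pass (F.L e) p q → Pass (F.L f) p q → τ e p q ≠ τ f p q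
  cross : ∀ e f a p b c d, e ≠ f → Thr (F.L e) a p b → Thr (F.L f) c p d →
    (chord p a b (τ e p a) (τ e p b) ∩ chord p c d (τ f p c) (τ f p d)).Nonempty →
      Ess (F.L e) (F.L f)
  triple : ∀ e f g a p b c d a' b', e ≠ f → e ≠ g → f ≠ g → Thr (F.L e) a p b →
    Thr (F.L f) c p d → Thr (F.L g) a' p b' →
    ¬ (chord p a b (τ e p a) (τ e p b) ∩ chord p c d (τ f p c) (τ f p d) ∩
      chord p a' b' (τ g p a') (τ g p b')).Nonempty

/-- the polygon `P 0, .., P M` as a curve on `[0, M]` -/
def pl (P : ℕ → ℝ × ℝ) (M : ℕ) (s : ℝ) : ℝ × ℝ :=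
  P 0 + ∑ k ∈ Finset.range M, (max 0 (min 1 (s - k))) • (P (k + 1) - P k)

end

end Pool.Agent.Helper76.RL
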