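import Pool.Agent.Helper76.RL.Defs

/-!
# RL-FUT: futures of a walk without repetition

`fut_of_split`: if `l = k ++ p :: q :: m` and `l` has no repetition: `[p, q] <:+: l`, and `p ∉ k` gives `aft p q l = m` (induction on `k`); `[q, p]` is not an infix of
`l` (positions), so `fut l q p = aft q p l.reverse`, `l.reverse = m.reverse ++ q :: p :: k.reverse`. The second case is symmetric.
`pass_split`, `thr_split`: an infix of the reverse is the reverse of an infix. `code_thr`: `fut l a p = b :: fut l p b` and `fut l b p = a :: fut l p a` by `fut_of_split`.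
`thr_unique`: the position of `p` in `l` is unique.
-/

namespace Pool.Agent.Helper76.RL

open Pool.Agent.Helper46.RM
open scoped Classical

private theorem ft_aft {k m : List P2} {p q : P2} (hp : p ∉ k) :
    aft p q (k ++ p :: q :: m) = m := by
  induction k with
  | nil =>
    rw [List.nil_append, aft, if_pos ⟨rfl, rfl⟩]
    rfl
  | cons x k ih =>
    have h1 : x ≠ p := fun h => hp (h ▸ List.mem_cons_self)
    have h2 : p ∉ k := fun h => hp (List.mem_cons_of_mem _ h)
    rw [List.cons_append, aft, if_neg (fun h => h1 h.1)]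
    exact ih h2

private theorem ft_len {l k k' m m' : List P2} {p : P2} (hl : l.Nodup) (h : l = k ++ p :: m)
    (h' : l = k' ++ p :: m') : k.length = k'.length := by
  have key : ∀ {k m : List P2}, l = k ++ p :: m → l.idxOf p = k.length := by
    intro k m hk
    rw [hk] at hl
    have h1 : p ∉ k := by
      intro hpk
      exact (List.nodup_append.1 hl).2.2 p hpk p List.mem_cons_self rfl
    rw [hk, List.idxOf_append_of_notMem h1, List.idxOf_cons_self, add_zero]
  rw [← key h, ← key h']

private theorem ft_not {l k m : List P2} {p q : P2} (hl : l.Nodup) (h : l = k ++ p :: q :: m) :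
    ¬ [q, p] <:+: l := by
  rintro ⟨s, t, hst⟩
  have h1 : l = s ++ q :: p :: t := by rw [← hst]; simp
  have h2 : l = (k ++ [p]) ++ q :: m := by rw [h]; simp
  have h3 : l = (s ++ [q]) ++ p :: t := by rw [h1]; simp
  have h4 := ft_len hl h h3
  have h5 := ft_len hl h2 h1
  rw [List.length_append] at h4 h5
  simp only [List.length_cons, List.length_nil] at h4 h5
  omega

private theorem ft_one {l k m : List P2} {p q : P2} (hl : l.Nodup) (h : l = k ++ p :: q :: m) :
    aft p q l = m ∧ aft q p l.reverse = k.reverse ∧ [p, q] <:+: l ∧ ¬ [q, p] <:+: l := by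
  have hr : l.reverse = m.reverse ++ q :: p :: k.reverse := by rw [h]; simp
  refine ⟨?_, ?_, ⟨k, m, by rw [h]; simp⟩, ft_not hl h⟩
  · rw [h] at hl ⊢
    apply ft_aft
    intro hpk
    exact (List.nodup_append.1 hl).2.2 p hpk p List.mem_cons_self rfl
  · rw [hr]
    apply ft_aft
    have h1 : l.reverse.Nodup := List.nodup_reverse.2 hl
    rw [hr] at h1
    intro hq
    exact (List.nodup_append.1 h1).2.2 q hq q List.mem_cons_self rfl

theorem fut_of_split {l k m : List P2} {p q : P2} (hl : l.Nodup)
    (h : l = k ++ p :: q :: m ∨ l.reverse = k ++ p :: q :: m) :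
    fut l p q = m ∧ fut l q p = k.reverse := by
  rcases h with h | h
  · obtain ⟨h1, h2, h3, h4⟩ := ft_one hl h
    refine ⟨?_, ?_⟩
    · rw [fut, if_pos h3, h1]
    · rw [fut, if_neg h4, h2]
  · have h5 : l = m.reverse ++ q :: p :: k.reverse := by
      have := congrArg List.reverse h
      rw [List.reverse_reverse] at this
      rw [this]
      simp
    obtain ⟨h1, h2, h3, h4⟩ := ft_one hl h5
    rw [List.reverse_reverse] at h2
    refine ⟨?_, ?_⟩
    · rw [fut, if_neg h4, h2]
    · rw [fut, if_pos h3, h1]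

theorem pass_split {l : List P2} {p q : P2} (h : Pass l p q) :
    ∃ k m, l = k ++ p :: q :: m ∨ l.reverse = k ++ p :: q :: m := by
  rcases h with ⟨s, t, hst⟩ | ⟨s, t, hst⟩
  · exact ⟨s, t, Or.inl (by rw [← hst]; simp)⟩
  · exact ⟨t.reverse, s.reverse, Or.inr (by rw [← hst]; simp)⟩

theorem thr_split {l : List P2} {a p b : P2} (h : Thr l a p b) :
    ∃ k m, l = k ++ a :: p :: b :: m ∨ l.reverse = k ++ a :: p :: b :: m := by
  rcases h with ⟨s, t, hst⟩ | ⟨s, t, hst⟩
  · exact ⟨s, t, Or.inl (by rw [← hst]; simp)⟩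
  · exact ⟨t.reverse, s.reverse, Or.inr (by rw [← hst]; simp)⟩

theorem Pass.symm {l : List P2} {p q : P2} (h : Pass l p q) : Pass l q p := Or.symm h

theorem Thr.symm {l : List P2} {a p b : P2} (h : Thr l a p b) : Thr l b p a := Or.symm h

theorem Thr.pass {l : List P2} {a p b : P2} (h : Thr l a p b) :
    Pass l a p ∧ Pass l p b := by
  rcases h with ⟨s, t, hst⟩ | ⟨s, t, hst⟩
  · exact ⟨Or.inl ⟨s, b :: t, by rw [← hst]; simp⟩, Or.inl ⟨s ++ [a], t, by rw [← hst]; simp⟩⟩
  · exact ⟨Or.inr ⟨s ++ [b], t, by rw [← hst]; simp⟩, Or.inr ⟨s, a :: t, by rw [← hst]; simp⟩⟩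

theorem code_thr {l : List P2} {a p b : P2} (hl : l.Nodup) (h : Thr l a p b) :
    code l a p = turn a p b :: code l p b ∧ code l b p = turn b p a :: code l p a := by
  obtain ⟨k, m, hk⟩ := thr_split h
  have h1 := fut_of_split (k := k) (m := b :: m) (p := a) (q := p) hl hk
  have h2 := fut_of_split (k := k ++ [a]) (m := m) (p := p) (q := b) hl
    (hk.imp (fun e => by rw [e]; simp) (fun e => by rw [e]; simp))
  have h3 : (k ++ [a]).reverse = a :: k.reverse := by simp
  rw [h3] at h2
  unfold code
  rw [h1.1, h1.2, h2.1, h2.2, turns, turns]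
  exact ⟨rfl, rfl⟩

private theorem ft_uniq {l k k' m m' : List P2} {a b c d p : P2} (hl : l.Nodup)
    (h : l = k ++ a :: p :: b :: m) (h' : l = k' ++ c :: p :: d :: m') : a = c ∧ b = d := by
  have h1 : l = (k ++ [a]) ++ p :: (b :: m) := by rw [h]; simp
  have h2 : l = (k' ++ [c]) ++ p :: (d :: m') := by rw [h']; simp
  have h3 := ft_len hl h1 h2
  rw [List.length_append, List.length_append] at h3
  have h4 : k.length = k'.length := by simpa using h3
  have h5 := List.append_inj (h.symm.trans h') h4
  have h6 := h5.2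
  injection h6 with h7 h8
  injection h8 with h9 h10
  injection h10 with h11 h12
  exact ⟨h7, h11⟩

theorem thr_unique {l : List P2} {a p b c d : P2} (hl : l.Nodup) (h : Thr l a p b)
    (h' : Thr l c p d) : (a = c ∧ b = d) ∨ (a = d ∧ b = c) := by
  obtain ⟨s, t, hst⟩ | ⟨s, t, hst⟩ := h <;> obtain ⟨s', t', hst'⟩ | ⟨s', t', hst'⟩ := h'
  · exact Or.inl (ft_uniq hl (k := s) (m := t) (k' := s') (m' := t') (p := p)
      (by rw [← hst]; simp) (by rw [← hst']; simp))
  · exact Or.inr (ft_uniq hl (k := s) (m := t) (k' := s') (m' := t') (p := p)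
      (by rw [← hst]; simp) (by rw [← hst']; simp))
  · exact Or.inr (And.symm (ft_uniq hl (k := s) (m := t) (k' := s') (m' := t') (p := p)
      (by rw [← hst]; simp) (by rw [← hst']; simp)))
  · exact Or.inl (And.symm (ft_uniq hl (k := s) (m := t) (k' := s') (m' := t') (p := p)
      (by rw [← hst]; simp) (by rw [← hst']; simp)))

end Pool.Agent.Helper76.RL
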