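import Pool.Agent.Helper76.RL.Fut

/-!
# RL-GOOD: futures of the routes of a family are good

`good`: by `pass_split` and `fut_of_split`, `p :: q :: m` with `m = fut _ p q` is a suffix of `L e` or of its reverse; both are chains (`LAdj` is symmetric,
`List.isChain_reverse`) without repetition, and of the form `y :: (l ++ [z])` with `y, z ∈ Z`, `l` outside `Z` (`form`, the reverse has the same form). All elements of
`q :: m` except the last one belong to `l`.
`mid`: `p` belongs to `l` (neither the first nor the last element).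
-/

namespace Pool.Agent.Helper76.RL

open Pool.Agent.Helper46.RM
open scoped Classical

variable {E : Type*}

private theorem wlk82 (F : Fam E) (e : E) {m : List P2} (h : F.L e = m ∨ (F.L e).reverse = m) :
    List.IsChain LAdj m ∧ m.Nodup ∧ ∃ y l z, m = y :: (l ++ [z]) ∧ y ∈ F.Z ∧ z ∈ F.Z ∧ ∀ p ∈ l, p ∉ F.Z := by
  obtain ⟨y, l, z, h1, -, h2, h3, h4⟩ := F.form e
  rcases h with rfl | rfl
  · exact ⟨F.chain e, F.nodup e, y, l, z, h1, h2, h3, h4⟩
  · refine ⟨?_, List.nodup_reverse.2 (F.nodup e), z, l.reverse, y, ?_, h3, h2, ?_⟩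
    · rw [List.isChain_reverse]
      exact (F.chain e).imp fun a b hab => hab.symm
    · rw [h1]
      simp
    · intro p hp
      exact h4 p (List.mem_reverse.1 hp)

private theorem tail82 {Z : Set P2} {k m l : List P2} {y z : P2} (hm : m ≠ [])
    (h : k ++ m = y :: (l ++ [z])) (hk : k ≠ []) (hz : z ∈ Z) (hl : ∀ p ∈ l, p ∉ Z) :
    ∃ m' z', m = m' ++ [z'] ∧ z' ∈ Z ∧ ∀ x ∈ m', x ∉ Z := by
  obtain ⟨m', z', rfl⟩ : ∃ m' z', m = m' ++ [z'] := ⟨m.dropLast, m.getLast hm, (List.dropLast_append_getLast hm).symm⟩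
  obtain ⟨k0, k', rfl⟩ := List.exists_cons_of_ne_nil hk
  have h1 : (k0 :: k' ++ m') ++ [z'] = (y :: l) ++ [z] := by
    rw [List.append_assoc, h]
    rfl
  obtain ⟨h2, h3⟩ := List.append_inj' h1 rfl
  have h4 : k' ++ m' = l := by
    have := List.cons.inj h2
    exact this.2
  refine ⟨m', z', rfl, ?_, ?_⟩
  · have := List.cons.inj h3
    rw [this.1]
    exact hz
  · intro x hx
    refine hl x ?_
    rw [← h4]
    exact List.mem_append_right _ hx

theorem Fam.good (F : Fam E) {e : E} {p q : P2} (h : Pass (F.L e) p q) :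
    Good F.Z p q (fut (F.L e) p q) := by
  obtain ⟨k, m, hs⟩ := pass_split h
  rw [(fut_of_split (F.nodup e) hs).1]
  obtain ⟨h1, h2, y, l, z, h3, -, h4, h5⟩ := wlk82 F e hs
  refine ⟨h1.right_of_append, h2.of_append_right, ?_⟩
  exact tail82 (k := k ++ [p]) (List.cons_ne_nil _ _) (by rw [← h3]; simp) (by simp) h4 h5

theorem Fam.adj (F : Fam E) {e : E} {p q : P2} (h : Pass (F.L e) p q) : LAdj p q := by
  exact (List.isChain_cons_cons.1 (F.good h).chain).1

theorem Fam.mid (F : Fam E) {e : E} {a p b : P2} (h : Thr (F.L e) a p b) :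
    p ∉ F.Z ∧ LAdj p a ∧ LAdj p b ∧ a ≠ b := by
  obtain ⟨k, m, hs⟩ := thr_split h
  obtain ⟨h1, h2, y, l, z, h3, -, h4, h5⟩ := wlk82 F e hs
  have h6 := h1.right_of_append
  have h7 := h2.of_append_right
  rw [List.isChain_cons_cons, List.isChain_cons_cons] at h6
  obtain ⟨m', z', h8, -, h9⟩ := tail82 (Z := F.Z) (k := k ++ [a]) (m := p :: b :: m) (List.cons_ne_nil _ _)
    (by rw [← h3]; simp) (by simp) h4 h5
  refine ⟨?_, h6.1.symm, h6.2.1, ?_⟩
  · refine h9 p ?_
    cases m' with
    | nil => simp at h8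
    | cons c m' =>
      have := List.cons.inj h8
      rw [this.1]
      exact List.mem_cons_self
  · rintro rfl
    simp at h7

end Pool.Agent.Helper76.RL
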