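import Pool.Agent.Helper76.RL.Good
import Pool.Agent.Helper76.RL.Split

/-!
# RL-KEY: different routes have different keys

If the keys are equal then the codes in both directions are equal, so by `turns_inj` (with `Fam.good`) the futures in both directions are equal; with `pass_split` and `fut_of_split`
`L e` (or its reverse) `= k ++ p :: q :: m` and `L f` (or its reverse) is the same list: contradiction to `Fam.diff`.
-/

namespace Pool.Agent.Helper76.RL

open Pool.Agent.Helper46.RM
open scoped Classical

variable {E : Type*}

theorem key_ne (F : Fam E) {e f : E} {p q : P2} (hef : e ≠ f) (he : Pass (F.L e) p q)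
    (hf : Pass (F.L f) p q) : key (F.L e) p q ≠ key (F.L f) p q := by
  intro h
  have h1 : code (F.L e) p q = code (F.L f) p q ∧ code (F.L e) q p = code (F.L f) q p := by
    unfold key at h
    have h2 := toLex.injective h
    rw [Prod.mk.injEq] at h2
    exact ⟨h2.1, OrderDual.toDual.injective h2.2⟩
  have h3 : fut (F.L e) p q = fut (F.L f) p q := turns_inj (F.good he) (F.good hf) h1.1
  have h4 : fut (F.L e) q p = fut (F.L f) q p :=
    turns_inj (F.good he.symm) (F.good hf.symm) h1.2
  obtain ⟨k, m, hs⟩ := pass_split he
  obtain ⟨k', m', hs'⟩ := pass_split hf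
  obtain ⟨e1, e2⟩ := fut_of_split (F.nodup e) hs
  obtain ⟨f1, f2⟩ := fut_of_split (F.nodup f) hs'
  have hm : m = m' := by rw [← e1, ← f1, h3]
  have hk : k = k' := by
    have : k.reverse = k'.reverse := by rw [← e2, ← f2, h4]
    exact List.reverse_injective this
  subst hm hk
  obtain ⟨d1, d2⟩ := F.diff e f hef
  rcases hs with hs | hs <;> rcases hs' with hs' | hs'
  · exact d1 (hs.trans hs'.symm)
  · exact d2 (hs.trans hs'.symm)
  · apply d2
    have := hs.trans hs'.symm
    rw [← this, List.reverse_reverse]
  · apply d1
    have := hs.trans hs'.symm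
    exact List.reverse_injective this

end Pool.Agent.Helper76.RL
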