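import Pool.Agent.Helper76.RL.Defs

/-!
# Project RM, part REAL: pictures

`Pic V E`: rectangles of the vertices `V`, routes of the edges `E` from the rectangle of `st e` to the rectangle of `en e`, offsets.
`x e k` is the `k`-th point of the route, `0 ≤ k ≤ N e`; `P e` is the polygon: centre of the first rectangle, the side points between `x e (k-1)` and `x e k` (`1 ≤ k ≤ N e`),
centre of the last rectangle (`k = N e + 1`). `cv e` is the curve on `[0, 1]`.
-/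

namespace Pool.Agent.Helper76.RL

open Pool.Agent.Helper46.RM
open scoped Classical

noncomputable section

structure Pic (V E : Type*) where
  F : Fam E
  τ : E → P2 → P2 → ℝ
  off : Off F τ
  lo : V → P2
  hi : V → P2
  le1 : ∀ v, (lo v).1 ≤ (hi v).1
  le2 : ∀ v, (lo v).2 ≤ (hi v).2
  disj : ∀ u v, u ≠ v → ∀ p, p ∈ rect (lo u) (hi u) → p ∉ rect (lo v) (hi v)
  Z_eq : F.Z = {p | ∃ v, p ∈ rect (lo v) (hi v)}
  st : E → V
  en : E → V
  ne : ∀ e, st e ≠ en e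
  hd : ∀ e, ∃ y ∈ rect (lo (st e)) (hi (st e)), (F.L e).head? = some y
  la : ∀ e, ∃ y ∈ rect (lo (en e)) (hi (en e)), (F.L e).getLast? = some y

variable {V E : Type*} (Φ : Pic V E)

def Pic.N (e : E) : ℕ := (Φ.F.L e).length - 1

def Pic.x (e : E) (k : ℕ) : P2 := (Φ.F.L e).getD k 0

def Pic.pt (v : V) : ℝ × ℝ := ctr (Φ.lo v) (Φ.hi v)

/-- the side point between `x e k` and `x e (k+1)` -/
def Pic.sd (e : E) (k : ℕ) : ℝ × ℝ :=
  sp (Φ.x e k) (Φ.x e (k + 1)) (Φ.τ e (Φ.x e k) (Φ.x e (k + 1)))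

def Pic.P (e : E) (k : ℕ) : ℝ × ℝ :=
  if k = 0 then Φ.pt (Φ.st e) else if k ≤ Φ.N e then Φ.sd e (k - 1) else Φ.pt (Φ.en e)

def Pic.cv (e : E) (t : ℝ) : ℝ × ℝ := pl (Φ.P e) (Φ.N e + 1) (t * (Φ.N e + 1))

/-- the chord of the curve `e` in the box of `x e k`, `0 < k < N e` -/
def Pic.ch (e : E) (k : ℕ) : Set (ℝ × ℝ) := segment ℝ (Φ.sd e (k - 1)) (Φ.sd e k)

end

end Pool.Agent.Helper76.RL
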