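import Pool.Agent.Helper76.RL.PicX
import Pool.Agent.Helper76.RL.Cell
import Pool.Agent.Helper76.RL.Turn

/-!
# RL-PA: side points and chords of a picture

`sd_not_rect`: `sp_not_mem`; one of the two points `x e k, x e (k+1)` has an index strictly between `0` and `N e` (`N_ge`), use `x_out`. `sd_not_box`: for a box `orect p p` both points would be `p`.
`sd_ne`, `sd_inj`: `sp_inj`, `off.anti`, `off.ne` (`x_pass`), `x_inj`.
`ch_eq`: the side point `sd e (k-1)` seen from `x e k` is `sp (x e k) (x e (k-1)) (τ e (x e k) (x e (k-1)))` (`sp_swap`, `off.anti`). `ch_open`: `chord_open`.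
-/

namespace Pool.Agent.Helper76.RL

open Pool.Agent.Helper46.RM
open scoped Classical

variable {V E : Type*} (Φ : Pic V E)

theorem Pic.sd_not_rect {e : E} {k : ℕ} (hk : k < Φ.N e) (v : V) :
    Φ.sd e k ∉ orect (Φ.lo v) (Φ.hi v) := by
  intro hz
  obtain ⟨h1, h2⟩ := sp_not_mem (Φ.x_adj hk) (Φ.off.lt _ _ _) hz
  rcases Nat.eq_zero_or_pos k with rfl | h0
  · have := Φ.N_ge e
    exact Φ.x_out (k := 0 + 1) (by omega) (by omega) v h2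
  · exact Φ.x_out h0 hk v h1

theorem Pic.sd_not_box {e : E} {k : ℕ} (hk : k < Φ.N e) (p : P2) :
    Φ.sd e k ∉ orect p p := by
  intro hz
  obtain ⟨h1, h2⟩ := sp_not_mem (Φ.x_adj hk) (Φ.off.lt _ _ _) hz
  have h3 : ∀ q : P2, q ∈ rect p p → q = p := by
    rintro q ⟨a1, a2, a3, a4⟩
    exact Prod.ext (le_antisymm a2 a1) (le_antisymm a4 a3)
  have h4 := Φ.x_inj (e := e) (k := k) (l := k + 1) hk.le hk ((h3 _ h1).trans (h3 _ h2).symm)
  omega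

/-- side points of different routes are different -/
theorem Pic.sd_ne {e f : E} (hef : e ≠ f) {k l : ℕ} (hk : k < Φ.N e) (hl : l < Φ.N f) :
    Φ.sd e k ≠ Φ.sd f l := by
  intro h
  have hpe := Φ.x_pass hk
  have hpf := Φ.x_pass hl
  rcases sp_inj (Φ.x_adj hk) (Φ.x_adj hl) (Φ.off.lt _ _ _) (Φ.off.lt _ _ _) h with
    ⟨h1, h2, h3⟩ | ⟨h1, h2, h3⟩
  · rw [← h1, ← h2] at hpf h3
    exact Φ.off.ne e f _ _ hef hpe hpf h3
  · rw [← h1, ← h2] at hpf h3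
    rw [Φ.off.anti f (Φ.x e k) (Φ.x e (k + 1))] at h3
    exact Φ.off.ne e f _ _ hef hpe (Or.symm hpf) (neg_inj.1 h3).symm

theorem Pic.sd_inj {e : E} {k l : ℕ} (hk : k < Φ.N e) (hl : l < Φ.N e)
    (h : Φ.sd e k = Φ.sd e l) : k = l := by
  rcases sp_inj (Φ.x_adj hk) (Φ.x_adj hl) (Φ.off.lt _ _ _) (Φ.off.lt _ _ _) h with
    ⟨h1, -, -⟩ | ⟨h1, h2, -⟩
  · exact Φ.x_inj hk.le hl.le h1
  · have h3 := Φ.x_inj (e := e) (k := k) (l := l + 1) hk.le hl h1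
    have h4 := Φ.x_inj (e := e) (k := k + 1) (l := l) hk hl.le h2
    omega

theorem h43_sd_pred (e : E) {k : ℕ} (h0 : 0 < k) :
    Φ.sd e (k - 1) = sp (Φ.x e k) (Φ.x e (k - 1)) (Φ.τ e (Φ.x e k) (Φ.x e (k - 1))) := by
  obtain ⟨j, rfl⟩ : ∃ j, k = j + 1 := ⟨k - 1, by omega⟩
  rw [Nat.add_sub_cancel, Φ.off.anti e (Φ.x e j) (Φ.x e (j + 1)), sp_swap]
  rfl

theorem Pic.ch_eq {e : E} {k : ℕ} (h0 : 0 < k) (hk : k < Φ.N e) :
    Φ.ch e k = chord (Φ.x e k) (Φ.x e (k - 1)) (Φ.x e (k + 1))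
      (Φ.τ e (Φ.x e k) (Φ.x e (k - 1))) (Φ.τ e (Φ.x e k) (Φ.x e (k + 1))) := by
  unfold Pic.ch chord
  rw [h43_sd_pred Φ e h0]
  rfl

theorem Pic.ch_open {e : E} {k : ℕ} (h0 : 0 < k) (hk : k < Φ.N e) :
    openSegment ℝ (Φ.sd e (k - 1)) (Φ.sd e k) ⊆ orect (Φ.x e k) (Φ.x e k) := by
  rw [h43_sd_pred Φ e h0]
  obtain ⟨j, rfl⟩ : ∃ j, k = j + 1 := ⟨k - 1, by omega⟩
  rw [Nat.add_sub_cancel]
  refine chord_open (Φ.x_adj (k := j) (by omega)).symm (Φ.x_adj hk) ?_ (Φ.off.lt _ _ _) (Φ.off.lt _ _ _)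
  intro h
  have := Φ.x_inj (e := e) (k := j) (l := j + 1 + 1) (by omega) hk h
  omega

end Pool.Agent.Helper76.RL
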