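import Pool.Agent.Helper76.RL.Defs

/-!
# RL-PL: the polygon as a curve

`pl_seg`: in the sum the terms `j < k` have coefficient `1`, the term `k` has coefficient `s - k`, the terms `j > k` have coefficient `0`; `∑_{j < k} (P (j+1) - P j) = P k - P 0`
(`Finset.sum_range_sub`). `pl_cont`: finite sum of continuous functions.
-/

namespace Pool.Agent.Helper76.RL

theorem pl_seg (P : ℕ → ℝ × ℝ) {M k : ℕ} (hk : k < M) {s : ℝ} (h1 : (k : ℝ) ≤ s)
    (h2 : s ≤ k + 1) : pl P M s = P k + (s - k) • (P (k + 1) - P k) := by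
  unfold pl
  have e1 : Finset.range M = Finset.range (k + 1) ∪ (Finset.range M \ Finset.range (k + 1)) := by
    rw [Finset.union_sdiff_of_subset]
    exact Finset.range_subset_range.2 hk
  rw [e1, Finset.sum_union Finset.disjoint_sdiff, Finset.sum_range_succ]
  have e2 : ∑ x ∈ Finset.range M \ Finset.range (k + 1),
      (max 0 (min 1 (s - x))) • (P (x + 1) - P x) = 0 := by
    refine Finset.sum_eq_zero fun x hx => ?_
    rw [Finset.mem_sdiff, Finset.mem_range, Finset.mem_range] at hx
    have h3 : ((k + 1 : ℕ) : ℝ) ≤ (x : ℝ) := by exact_mod_cast not_lt.1 hx.2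
    push_cast at h3
    have h4 : min 1 (s - x) ≤ 0 := (min_le_right _ _).trans (by linarith)
    rw [max_eq_left h4, zero_smul]
  have e3 : ∑ x ∈ Finset.range k, (max 0 (min 1 (s - x))) • (P (x + 1) - P x) = P k - P 0 := by
    rw [← Finset.sum_range_sub]
    refine Finset.sum_congr rfl fun x hx => ?_
    rw [Finset.mem_range] at hx
    have h3 : ((x + 1 : ℕ) : ℝ) ≤ (k : ℝ) := by exact_mod_cast hx
    push_cast at h3
    have h4 : min 1 (s - x) = 1 := min_eq_left (by linarith)
    rw [h4, max_eq_right zero_le_one, one_smul]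
  have e4 : max 0 (min 1 (s - k)) = s - k := by
    rw [min_eq_right (by linarith), max_eq_right (by linarith)]
  rw [e2, e3, e4, add_zero]
  abel

theorem pl_cont (P : ℕ → ℝ × ℝ) (M : ℕ) : Continuous (pl P M) := by
  unfold pl
  fun_prop

end Pool.Agent.Helper76.RL
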