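import Pool.Agent.Helper76.RL.PicA
import Pool.Agent.Helper76.RL.Poly
import Pool.Agent.Helper76.RL.Cell2

/-!
# RL-PB: the points of a curve

`cv_cases`: put `s = t * (N + 1) ∈ [0, N + 1]`. If `s < 1`: `pl_seg` with `k = 0` (`P 0 = pt (st e)`, `P 1 = sd e 0`), `u = s`. If `s > N`: `pl_seg` with `k = N`, `u = N + 1 - s`
(`P N = sd e (N-1)`, `P (N+1) = pt (en e)`). Otherwise `k = ⌊s⌋₊`, `1 ≤ k ≤ N`: if `s = k` then `cv e t = P k = sd e (k-1)` (`pl_seg` for the segment `k - 1` or `k`); if `k < s < k + 1` (then `k < N`) the point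
`P k + (s - k) (P (k+1) - P k)` is in the open segment from `sd e (k-1)` to `sd e k`.
`rad_mem`: `radial_open` (`x e 0`, `x e 1`).
-/

namespace Pool.Agent.Helper76.RL

open Pool.Agent.Helper46.RM
open scoped Classical

variable {V E : Type*} (Φ : Pic V E)

/-- the position of the point `z` at the parameter `s = t * (N + 1)` of the curve `e` -/
inductive Pos (e : E) (s : ℝ) (z : ℝ × ℝ) : Prop
  | first (h0 : 0 ≤ s) (h1 : s < 1)
      (hz : z = Φ.pt (Φ.st e) + s • (Φ.sd e 0 - Φ.pt (Φ.st e)))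
  | last (h0 : (Φ.N e : ℝ) < s) (h1 : s ≤ Φ.N e + 1)
      (hz : z = Φ.pt (Φ.en e) + (Φ.N e + 1 - s) • (Φ.sd e (Φ.N e - 1) - Φ.pt (Φ.en e)))
  | side (k : ℕ) (hk : k < Φ.N e) (hs : s = k + 1) (hz : z = Φ.sd e k)
  | box (k : ℕ) (h0 : 0 < k) (hk : k < Φ.N e) (h1 : (k : ℝ) < s) (h2 : s < k + 1)
      (hz : z = Φ.sd e (k - 1) + (s - k) • (Φ.sd e k - Φ.sd e (k - 1)))

private theorem P_zero50 (e : E) : Φ.P e 0 = Φ.pt (Φ.st e) := by
  simp [Pic.P]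

private theorem P_succ50 {e : E} {k : ℕ} (hk : k < Φ.N e) : Φ.P e (k + 1) = Φ.sd e k := by
  have h1 : k + 1 ≤ Φ.N e := hk
  simp [Pic.P, h1]

private theorem P_last50 (e : E) : Φ.P e (Φ.N e + 1) = Φ.pt (Φ.en e) := by
  simp [Pic.P]

theorem Pic.cv_cases (e : E) {t : ℝ} (ht : t ∈ Set.Icc (0 : ℝ) 1) :
    Pos Φ e (t * (Φ.N e + 1)) (Φ.cv e t) := by
  have hN := Φ.N_ge e
  obtain ⟨ht0, ht1⟩ := ht
  unfold Pic.cv
  have hN0 : (0 : ℝ) ≤ (Φ.N e : ℝ) + 1 := by positivity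
  have hs0 : 0 ≤ t * ((Φ.N e : ℝ) + 1) := mul_nonneg ht0 hN0
  have hs1 : t * ((Φ.N e : ℝ) + 1) ≤ (Φ.N e : ℝ) + 1 := by
    have := mul_le_mul_of_nonneg_right ht1 hN0
    linarith
  generalize t * ((Φ.N e : ℝ) + 1) = s at *
  by_cases h1 : s < 1
  · refine Pos.first hs0 h1 ?_
    rw [pl_seg (Φ.P e) (k := 0) (by omega) (by simpa using hs0) (by simpa using h1.le),
      P_zero50, P_succ50 Φ (by omega : 0 < Φ.N e)]
    simp
  · rw [not_lt] at h1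
    by_cases h2 : (Φ.N e : ℝ) < s
    · refine Pos.last h2 hs1 ?_
      obtain ⟨n, hn⟩ : ∃ n, Φ.N e = n + 1 := ⟨Φ.N e - 1, by omega⟩
      rw [pl_seg (Φ.P e) (k := Φ.N e) (by omega) h2.le hs1, P_last50]
      have h3 : Φ.P e (Φ.N e) = Φ.sd e (Φ.N e - 1) := by
        have h4 := P_succ50 Φ (e := e) (k := Φ.N e - 1) (by omega)
        rwa [show Φ.N e - 1 + 1 = Φ.N e by omega] at h4
      rw [h3]
      module
    · rw [not_lt] at h2
      have hk1 : 1 ≤ ⌊s⌋₊ := Nat.one_le_floor_iff s |>.2 h1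
      have hk2 : ((⌊s⌋₊ : ℕ) : ℝ) ≤ s := Nat.floor_le hs0
      have hk3 : s < (⌊s⌋₊ : ℕ) + 1 := Nat.lt_floor_add_one s
      generalize ⌊s⌋₊ = k at *
      obtain ⟨j, rfl⟩ : ∃ j, k = j + 1 := ⟨k - 1, by omega⟩
      have hkN : j + 1 ≤ Φ.N e := by
        have : ((j + 1 : ℕ) : ℝ) ≤ (Φ.N e : ℝ) := hk2.trans h2
        exact_mod_cast this
      rcases eq_or_lt_of_le hk2 with h3 | h3
      · refine Pos.side j (by omega) (by rw [← h3]; push_cast; ring) ?_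
        rw [pl_seg (Φ.P e) (k := j + 1) (by omega) hk2 hk3.le, P_succ50 Φ (by omega : j < Φ.N e), ← h3]
        simp
      · have h4 : j + 1 < Φ.N e := by
          have : ((j + 1 : ℕ) : ℝ) < (Φ.N e : ℝ) := lt_of_lt_of_le h3 h2
          exact_mod_cast this
        refine Pos.box (j + 1) (by omega) h4 h3 hk3 ?_
        rw [pl_seg (Φ.P e) (k := j + 1) (by omega) hk2 hk3.le, P_succ50 Φ (by omega : j < Φ.N e),
          P_succ50 Φ h4]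
        simp

theorem Pic.cv_zero (e : E) : Φ.cv e 0 = Φ.pt (Φ.st e) := by
  have hN := Φ.N_ge e
  unfold Pic.cv
  rw [pl_seg (Φ.P e) (k := 0) (by omega) (by simp) (by simp), P_zero50]
  simp

theorem Pic.cv_one (e : E) : Φ.cv e 1 = Φ.pt (Φ.en e) := by
  unfold Pic.cv
  rw [pl_seg (Φ.P e) (k := Φ.N e) (by omega) (by linarith) (by linarith), P_last50]
  module

theorem Pic.cv_cont (e : E) : Continuous (Φ.cv e) := by
  unfold Pic.cv
  exact (pl_cont _ _).comp (by fun_prop)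

theorem Pic.first_mem (e : E) {s : ℝ} (h0 : 0 ≤ s) (h1 : s < 1) :
    Φ.pt (Φ.st e) + s • (Φ.sd e 0 - Φ.pt (Φ.st e)) ∈
      orect (Φ.lo (Φ.st e)) (Φ.hi (Φ.st e)) := by
  have hN := Φ.N_ge e
  exact radial_open (Φ.x_zero e) (Φ.x_adj (k := 0) (by omega)) (Φ.off.lt _ _ _) h0 h1

theorem Pic.last_mem (e : E) {s : ℝ} (h0 : 0 ≤ s) (h1 : s < 1) :
    Φ.pt (Φ.en e) + s • (Φ.sd e (Φ.N e - 1) - Φ.pt (Φ.en e)) ∈
      orect (Φ.lo (Φ.en e)) (Φ.hi (Φ.en e)) := by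
  have hN := Φ.N_ge e
  have h2 : Φ.N e - 1 + 1 = Φ.N e := by omega
  have h3 : Φ.sd e (Φ.N e - 1) = sp (Φ.x e (Φ.N e)) (Φ.x e (Φ.N e - 1))
      (Φ.τ e (Φ.x e (Φ.N e)) (Φ.x e (Φ.N e - 1))) := by
    unfold Pic.sd
    rw [h2, Φ.off.anti e (Φ.x e (Φ.N e - 1)) (Φ.x e (Φ.N e))]
    unfold sp
    ext <;> simp <;> ring
  rw [h3]
  have h4 := Φ.x_adj (e := e) (k := Φ.N e - 1) (by omega)
  rw [h2] at h4
  exact radial_open (Φ.x_last e) h4.symm (Φ.off.lt _ _ _) h0 h1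

theorem Pic.box_mem {e : E} {k : ℕ} (h0 : 0 < k) (hk : k < Φ.N e) {s : ℝ} (h1 : (k : ℝ) < s)
    (h2 : s < k + 1) :
    Φ.sd e (k - 1) + (s - k) • (Φ.sd e k - Φ.sd e (k - 1)) ∈ orect (Φ.x e k) (Φ.x e k) ∧
      Φ.sd e (k - 1) + (s - k) • (Φ.sd e k - Φ.sd e (k - 1)) ∈ Φ.ch e k := by
  have h3 : Φ.sd e (k - 1) + (s - k) • (Φ.sd e k - Φ.sd e (k - 1)) ∈
      openSegment ℝ (Φ.sd e (k - 1)) (Φ.sd e k) := by
    rw [openSegment_eq_image']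
    exact ⟨s - k, ⟨by linarith, by linarith⟩, rfl⟩
  exact ⟨Φ.ch_open h0 hk h3, openSegment_subset_segment _ _ _ h3⟩

end Pool.Agent.Helper76.RL
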