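import Pool.Agent.Helper76.RL.PicB

/-!
# RL-PC: the curves are injective and avoid the other vertices

`cv_inj`: let `s ≠ s'` be the parameters of `t ≠ t'`; `cv_cases` for both gives 16 cases. The regions (`first_mem`, `last_mem`, `box_mem`) are pairwise disjoint (`orect_inter`: rectangles of `st e ≠ en e` are disjoint, `x_out`,
two boxes with a common point are equal, then `x_inj` gives the same `k`); side points are in no region (`sd_not_rect`, `sd_not_box`), different side points of `e` are different (`sd_inj`).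
Remaining: both `first` (then `s • v = s' • v` with `v = sd e 0 - pt ≠ 0`, since `pt` is in the region (`ctr_mem`) and `sd e 0` is not), both `last`, both in the same box (`sd e (k-1) ≠ sd e k`
by `sd_inj`).
`cv_avoid`: `pt v` is in the region of `v` (`ctr_mem`), use the regions as above; if `v = st e` in the case `first`: `pt + s • w = pt` gives `s = 0`, so `t = 0`.
-/

namespace Pool.Agent.Helper76.RL

open Pool.Agent.Helper46.RM
open scoped Classical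

variable {V E : Type*} (Φ : Pic V E)

theorem Pic.c_pt_mem (v : V) : Φ.pt v ∈ orect (Φ.lo v) (Φ.hi v) :=
  ctr_mem (Φ.le1 v) (Φ.le2 v)

theorem Pic.c_rr {u v : V} {z : ℝ × ℝ} (h : z ∈ orect (Φ.lo u) (Φ.hi u))
    (h' : z ∈ orect (Φ.lo v) (Φ.hi v)) : u = v := by
  by_contra huv
  obtain ⟨p, hp, hp'⟩ := orect_inter (Φ.le1 u) (Φ.le2 u) (Φ.le1 v) (Φ.le2 v) h h'
  exact Φ.disj u v huv p hp hp'

theorem c_self {p q : P2} (h : p ∈ rect q q) : p = q := by
  simp only [rect, Set.mem_setOf_eq] at h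
  exact Prod.ext (by omega) (by omega)

theorem Pic.c_rb {v : V} {e : E} {k : ℕ} (h0 : 0 < k) (hk : k < Φ.N e) {z : ℝ × ℝ}
    (h : z ∈ orect (Φ.lo v) (Φ.hi v)) (h' : z ∈ orect (Φ.x e k) (Φ.x e k)) : False := by
  obtain ⟨p, hp, hp'⟩ := orect_inter (Φ.le1 v) (Φ.le2 v) le_rfl le_rfl h h'
  rw [c_self hp'] at hp
  exact Φ.x_out h0 hk v hp

theorem c_bb {p q : P2} {z : ℝ × ℝ} (h : z ∈ orect p p) (h' : z ∈ orect q q) : p = q := by
  obtain ⟨r, hr, hr'⟩ := orect_inter le_rfl le_rfl le_rfl le_rfl h h'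
  rw [← c_self hr, c_self hr']

theorem c_smul {w : ℝ × ℝ} (hw : w ≠ 0) {a b : ℝ} (h : a • w = b • w) : a = b := by
  have : (a - b) • w = 0 := by rw [sub_smul, h, sub_self]
  rcases smul_eq_zero.1 this with h1 | h1
  · linarith
  · exact absurd h1 hw

theorem Pic.c_w0 (e : E) : Φ.sd e 0 - Φ.pt (Φ.st e) ≠ 0 := by
  intro h
  have h2 := Φ.N_ge e
  have h1 : Φ.sd e 0 = Φ.pt (Φ.st e) := sub_eq_zero.1 h
  exact Φ.sd_not_rect (by omega) (Φ.st e) (h1 ▸ Φ.c_pt_mem (Φ.st e))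

theorem Pic.c_w1 (e : E) : Φ.sd e (Φ.N e - 1) - Φ.pt (Φ.en e) ≠ 0 := by
  intro h
  have h2 := Φ.N_ge e
  have h1 : Φ.sd e (Φ.N e - 1) = Φ.pt (Φ.en e) := sub_eq_zero.1 h
  exact Φ.sd_not_rect (by omega) (Φ.en e) (h1 ▸ Φ.c_pt_mem (Φ.en e))

theorem Pic.c_w2 {e : E} {k : ℕ} (h0 : 0 < k) (hk : k < Φ.N e) :
    Φ.sd e k - Φ.sd e (k - 1) ≠ 0 := by
  intro h
  have h1 : Φ.sd e k = Φ.sd e (k - 1) := sub_eq_zero.1 h
  have := Φ.sd_inj hk (by omega) h1
  omega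

theorem Pic.c_last {e : E} {s : ℝ} {z : ℝ × ℝ} (h0 : (Φ.N e : ℝ) < s) (h1 : s ≤ Φ.N e + 1)
    (hz : z = Φ.pt (Φ.en e) + (Φ.N e + 1 - s) • (Φ.sd e (Φ.N e - 1) - Φ.pt (Φ.en e))) :
    z ∈ orect (Φ.lo (Φ.en e)) (Φ.hi (Φ.en e)) := by
  rw [hz]
  exact Φ.last_mem e (by linarith) (by linarith)

theorem Pic.c_pos {e : E} {s s' : ℝ} {z : ℝ × ℝ} (h : Pos Φ e s z) (h' : Pos Φ e s' z) :
    s = s' := by
  cases h with
  | first a1 a2 a3 =>
    have hm : z ∈ orect (Φ.lo (Φ.st e)) (Φ.hi (Φ.st e)) := by rw [a3]; exact Φ.first_mem e a1 a2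
    cases h' with
    | first b1 b2 b3 =>
      rw [a3] at b3
      exact c_smul (Φ.c_w0 e) (add_left_cancel b3)
    | last b1 b2 b3 => exact absurd (Φ.c_rr hm (Φ.c_last b1 b2 b3)) (Φ.ne e)
    | side k hk hs b3 => exact absurd (b3 ▸ hm) (Φ.sd_not_rect hk _)
    | box k k0 hk b1 b2 b3 =>
      exact (Φ.c_rb k0 hk hm (by rw [b3]; exact (Φ.box_mem k0 hk b1 b2).1)).elim
  | last a1 a2 a3 =>
    have hm := Φ.c_last a1 a2 a3
    cases h' with
    | first b1 b2 b3 =>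
      exact absurd (Φ.c_rr (by rw [b3]; exact Φ.first_mem e b1 b2) hm) (Φ.ne e)
    | last b1 b2 b3 =>
      rw [a3] at b3
      have := c_smul (Φ.c_w1 e) (add_left_cancel b3)
      linarith
    | side k hk hs b3 => exact absurd (b3 ▸ hm) (Φ.sd_not_rect hk _)
    | box k k0 hk b1 b2 b3 =>
      exact (Φ.c_rb k0 hk hm (by rw [b3]; exact (Φ.box_mem k0 hk b1 b2).1)).elim
  | side k hk hs a3 =>
    cases h' with
    | first b1 b2 b3 =>
      have hm : z ∈ orect (Φ.lo (Φ.st e)) (Φ.hi (Φ.st e)) := by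
        rw [b3]; exact Φ.first_mem e b1 b2
      exact absurd (a3 ▸ hm) (Φ.sd_not_rect hk _)
    | last b1 b2 b3 =>
      exact absurd (a3 ▸ Φ.c_last b1 b2 b3) (Φ.sd_not_rect hk _)
    | side l hl ht b3 =>
      have := Φ.sd_inj hk hl (a3.symm.trans b3)
      rw [hs, ht, this]
    | box l l0 hl b1 b2 b3 =>
      have hm : z ∈ orect (Φ.x e l) (Φ.x e l) := by rw [b3]; exact (Φ.box_mem l0 hl b1 b2).1
      exact absurd (a3 ▸ hm) (Φ.sd_not_box hk _)
  | box k k0 hk a1 a2 a3 =>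
    have hm : z ∈ orect (Φ.x e k) (Φ.x e k) := by rw [a3]; exact (Φ.box_mem k0 hk a1 a2).1
    cases h' with
    | first b1 b2 b3 =>
      exact (Φ.c_rb k0 hk (by rw [b3]; exact Φ.first_mem e b1 b2) hm).elim
    | last b1 b2 b3 => exact (Φ.c_rb k0 hk (Φ.c_last b1 b2 b3) hm).elim
    | side l hl ht b3 => exact absurd (b3 ▸ hm) (Φ.sd_not_box hl _)
    | box l l0 hl b1 b2 b3 =>
      have hm' : z ∈ orect (Φ.x e l) (Φ.x e l) := by rw [b3]; exact (Φ.box_mem l0 hl b1 b2).1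
      have hkl : k = l := Φ.x_inj hk.le hl.le (c_bb hm hm')
      subst hkl
      rw [a3] at b3
      have := c_smul (Φ.c_w2 k0 hk) (add_left_cancel b3)
      linarith

theorem Pic.cv_inj (e : E) : Set.InjOn (Φ.cv e) (Set.Icc 0 1) := by
  intro t ht t' ht' h
  have h1 := Φ.cv_cases e ht
  have h2 := Φ.cv_cases e ht'
  rw [← h] at h2
  have h3 := Φ.c_pos h1 h2
  have h4 : ((Φ.N e : ℝ) + 1) ≠ 0 := by positivity
  exact mul_right_cancel₀ h4 h3

theorem Pic.cv_avoid (e : E) {t : ℝ} (ht : t ∈ Set.Icc (0 : ℝ) 1) {v : V}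
    (h : Φ.cv e t = Φ.pt v) : (v = Φ.st e ∧ t = 0) ∨ (v = Φ.en e ∧ t = 1) := by
  have h4 : ((Φ.N e : ℝ) + 1) ≠ 0 := by positivity
  have hm := Φ.c_pt_mem v
  have h1 := Φ.cv_cases e ht
  rw [h] at h1
  cases h1 with
  | first b1 b2 b3 =>
    have hv : v = Φ.st e := Φ.c_rr hm (by rw [b3]; exact Φ.first_mem e b1 b2)
    left
    refine ⟨hv, ?_⟩
    rw [hv] at b3
    have h5 : (t * ((Φ.N e : ℝ) + 1)) • (Φ.sd e 0 - Φ.pt (Φ.st e)) = 0 := by
      have := b3.symm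
      rwa [add_eq_left] at this
    rcases smul_eq_zero.1 h5 with h6 | h6
    · exact (mul_eq_zero.1 h6).resolve_right h4
    · exact absurd h6 (Φ.c_w0 e)
  | last b1 b2 b3 =>
    have hv : v = Φ.en e := Φ.c_rr hm (Φ.c_last b1 b2 b3)
    right
    refine ⟨hv, ?_⟩
    rw [hv] at b3
    have h5 : ((Φ.N e : ℝ) + 1 - t * ((Φ.N e : ℝ) + 1)) •
        (Φ.sd e (Φ.N e - 1) - Φ.pt (Φ.en e)) = 0 := by
      have := b3.symm
      rwa [add_eq_left] at this
    rcases smul_eq_zero.1 h5 with h6 | h6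
    · have h7 : ((Φ.N e : ℝ) + 1) * (1 - t) = 0 := by linarith
      have := (mul_eq_zero.1 h7).resolve_left h4
      linarith
    · exact absurd h6 (Φ.c_w1 e)
  | side k hk hs b3 => exact absurd (b3 ▸ hm) (Φ.sd_not_rect hk _)
  | box k k0 hk b1 b2 b3 =>
    exact (Φ.c_rb k0 hk hm (by rw [b3]; exact (Φ.box_mem k0 hk b1 b2).1)).elim

theorem Pic.pt_inj : Function.Injective Φ.pt := by
  intro u v h
  exact Φ.c_rr (Φ.c_pt_mem u) (h ▸ Φ.c_pt_mem v)

end Pool.Agent.Helper76.RL
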