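import Pool.Agent.Helper76.RL.PicB

/-!
# RL-PD: common points of two curves

`cv_cases` for both curves, 16 cases. Regions with a common point: two rectangles are equal (`orect_inter`, `disj`), a rectangle and a box is excluded (`x_out`), two boxes are equal: the second alternative of the
statement. Side points are in no region (`sd_not_rect`, `sd_not_box`) and side points of different routes are different (`sd_ne`). Both radial in the rectangle of `v`: if one parameter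
is `0` the common point is `pt v`; otherwise `radial_eq` gives equal side points, excluded by `sd_ne`. (For `radial_eq`: `sd e 0 = sp (x e 0) (x e 1) _`, `x e 0` in the rectangle, `x e 1` not (`x_out`); for the last side use
`sp_swap`, `off.anti`: `sd e (N-1) = sp (x e N) (x e (N-1)) _`.)
-/

namespace Pool.Agent.Helper76.RL

open Pool.Agent.Helper46.RM
open scoped Classical

variable {V E : Type*} (Φ : Pic V E)

private theorem rect_pt75 {p q : P2} (h : q ∈ rect p p) : q = p := by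
  obtain ⟨h1, h2, h3, h4⟩ := h
  exact Prod.ext (le_antisymm h2 h1) (le_antisymm h4 h3)

/-- the three kinds of points of a curve -/
private theorem kind75 (e : E) {t : ℝ} (ht : t ∈ Set.Icc (0 : ℝ) 1) :
    (∃ (v : V) (y r : P2) (τ u : ℝ) (k : ℕ), y ∈ rect (Φ.lo v) (Φ.hi v) ∧ r ∉ rect (Φ.lo v) (Φ.hi v) ∧
      LAdj y r ∧ |τ| < 1 ∧ 0 ≤ u ∧ u < 1 ∧ k < Φ.N e ∧ sp y r τ = Φ.sd e k ∧
      Φ.cv e t = ctr (Φ.lo v) (Φ.hi v) + u • (sp y r τ - ctr (Φ.lo v) (Φ.hi v))) ∨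
    (∃ k, k < Φ.N e ∧ Φ.cv e t = Φ.sd e k) ∨
    (∃ k, 0 < k ∧ k < Φ.N e ∧ Φ.cv e t ∈ orect (Φ.x e k) (Φ.x e k) ∧ Φ.cv e t ∈ Φ.ch e k) := by
  have hN := Φ.N_ge e
  rcases Φ.cv_cases e ht with ⟨h0, h1, hz⟩ | ⟨h0, h1, hz⟩ | ⟨k, hk, hs, hz⟩ | ⟨k, h0, hk, h1, h2, hz⟩
  · exact Or.inl ⟨Φ.st e, Φ.x e 0, Φ.x e (0 + 1), Φ.τ e (Φ.x e 0) (Φ.x e (0 + 1)), _, 0, Φ.x_zero e,
      Φ.x_out (by omega) (by omega) _, Φ.x_adj (by omega), Φ.off.lt _ _ _, h0, h1, by omega, rfl, hz⟩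
  · have hadj : LAdj (Φ.x e (Φ.N e - 1)) (Φ.x e (Φ.N e)) := by
      have h2 := Φ.x_adj (e := e) (k := Φ.N e - 1) (by omega)
      rwa [Nat.sub_add_cancel (by omega)] at h2
    have hsd : sp (Φ.x e (Φ.N e)) (Φ.x e (Φ.N e - 1)) (Φ.τ e (Φ.x e (Φ.N e)) (Φ.x e (Φ.N e - 1))) =
        Φ.sd e (Φ.N e - 1) := by
      unfold Pic.sd
      rw [Φ.off.anti, sp_swap, Nat.sub_add_cancel (by omega)]
    refine Or.inl ⟨Φ.en e, Φ.x e (Φ.N e), Φ.x e (Φ.N e - 1),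
      Φ.τ e (Φ.x e (Φ.N e)) (Φ.x e (Φ.N e - 1)), (Φ.N e + 1 - t * (Φ.N e + 1) : ℝ), Φ.N e - 1, Φ.x_last e,
      Φ.x_out (by omega) (by omega) _, hadj.symm, Φ.off.lt _ _ _, by linarith, by linarith, by omega, hsd, ?_⟩
    rw [hsd]
    exact hz
  · exact Or.inr (Or.inl ⟨k, hk, hz⟩)
  · obtain ⟨h3, h4⟩ := Φ.box_mem h0 hk h1 h2
    rw [← hz] at h3 h4
    exact Or.inr (Or.inr ⟨k, h0, hk, h3, h4⟩)

private theorem radial_in75 {v : V} {y r : P2} {τ u : ℝ} {z : ℝ × ℝ} (hy : y ∈ rect (Φ.lo v) (Φ.hi v))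
    (hyr : LAdj y r) (hτ : |τ| < 1) (hu : 0 ≤ u) (hu1 : u < 1)
    (hz : z = ctr (Φ.lo v) (Φ.hi v) + u • (sp y r τ - ctr (Φ.lo v) (Φ.hi v))) :
    z ∈ orect (Φ.lo v) (Φ.hi v) := by
  rw [hz]
  exact radial_open hy hyr hτ hu hu1

private theorem rect_box75 {v : V} {e : E} {k : ℕ} (h0 : 0 < k) (hk : k < Φ.N e) {z : ℝ × ℝ}
    (h1 : z ∈ orect (Φ.lo v) (Φ.hi v)) (h2 : z ∈ orect (Φ.x e k) (Φ.x e k)) : False := by
  obtain ⟨p, hp, hp'⟩ := orect_inter (Φ.le1 v) (Φ.le2 v) le_rfl le_rfl h1 h2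
  rw [rect_pt75 hp'] at hp
  exact Φ.x_out h0 hk v hp

theorem Pic.common {e f : E} (hef : e ≠ f) {t t' : ℝ} (ht : t ∈ Set.Icc (0 : ℝ) 1)
    (ht' : t' ∈ Set.Icc (0 : ℝ) 1) (h : Φ.cv e t = Φ.cv f t') :
    (∃ v, Φ.cv e t = Φ.pt v) ∨
      ∃ k l, 0 < k ∧ k < Φ.N e ∧ 0 < l ∧ l < Φ.N f ∧ Φ.x e k = Φ.x f l ∧
        Φ.cv e t ∈ Φ.ch e k ∧ Φ.cv e t ∈ Φ.ch f l ∧
        Φ.cv e t ∈ orect (Φ.x e k) (Φ.x e k) := by
  have hf := kind75 Φ f ht'
  rw [← h] at hf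
  rcases kind75 Φ e ht with ⟨v, y, r, τ, u, k, hy, hr, hyr, hτ, hu, hu1, hk, hsd, hz⟩ | ⟨k, hk, hz⟩ |
      ⟨k, h0, hk, hz, hzc⟩ <;>
    rcases hf with ⟨v', y', r', τ', u', k', hy', hr', hyr', hτ', hu', hu1', hk', hsd', hz'⟩ | ⟨k', hk', hz'⟩ |
      ⟨k', h0', hk', hz', hzc'⟩
  · -- radial, radial
    have h1 := radial_in75 Φ hy hyr hτ hu hu1 hz
    have h2 := radial_in75 Φ hy' hyr' hτ' hu' hu1' hz'
    obtain ⟨p, hp, hp'⟩ := orect_inter (Φ.le1 v) (Φ.le2 v) (Φ.le1 v') (Φ.le2 v') h1 h2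
    have hv : v = v' := by
      by_contra hne
      exact Φ.disj v v' hne p hp hp'
    subst hv
    rcases eq_or_lt_of_le hu with h3 | h3
    · left
      refine ⟨v, ?_⟩
      rw [hz, ← h3, zero_smul, add_zero]
      rfl
    · rcases eq_or_lt_of_le hu' with h4 | h4
      · left
        refine ⟨v, ?_⟩
        rw [hz', ← h4, zero_smul, add_zero]
        rfl
      · exfalso
        have h5 := radial_eq hy hr hyr hy' hr' hyr' hτ hτ' h3 hu1.le h4 hu1'.le (hz.symm.trans hz')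
        apply Φ.sd_ne hef hk hk'
        rw [← hsd, ← hsd']
        exact h5.2
  · -- radial, side
    exfalso
    have h1 := radial_in75 Φ hy hyr hτ hu hu1 hz
    rw [hz'] at h1
    exact Φ.sd_not_rect hk' v h1
  · -- radial, box
    exact absurd hz' (fun h2 => rect_box75 Φ h0' hk' (radial_in75 Φ hy hyr hτ hu hu1 hz) h2)
  · -- side, radial
    exfalso
    have h1 := radial_in75 Φ hy' hyr' hτ' hu' hu1' hz'
    rw [hz] at h1
    exact Φ.sd_not_rect hk v' h1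
  · -- side, side
    exact absurd (hz.symm.trans hz') (Φ.sd_ne hef hk hk')
  · -- side, box
    exfalso
    rw [hz] at hz'
    exact Φ.sd_not_box hk _ hz'
  · -- box, radial
    exact absurd hz (fun h2 => rect_box75 Φ h0 hk (radial_in75 Φ hy' hyr' hτ' hu' hu1' hz') h2)
  · -- box, side
    exfalso
    rw [hz'] at hz
    exact Φ.sd_not_box hk' _ hz
  · -- box, box
    right
    obtain ⟨p, hp, hp'⟩ := orect_inter le_rfl le_rfl le_rfl le_rfl hz hz'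
    refine ⟨k, k', h0, hk, h0', hk', ?_, hzc, hzc', hz⟩
    rw [← rect_pt75 hp, ← rect_pt75 hp']

end Pool.Agent.Helper76.RL
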