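import Pool.Agent.Helper76.RL.PicC
import Pool.Agent.Helper76.RL.PicD

/-!
# RL-PE: finiteness, no triple points, crossings are essential

`cv_fin`: by `common` the intersection of the images is contained in the finite set `{pt v | v ∈ {st e, en e}}` (`cv_avoid`) together with the sets `ch e k ∩ ch f l` (`k < N e`, `l < N f`, `x e k = x f l`), which are subsingletons by `ch_eq` and `chord_sub`
(`off.lt`, `off.ne` with `Thr.pass`, `x_thr`).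
`cv_triple`: the common point `z` is interior, so it is not a `pt v` (`cv_avoid`); `common` for `e, f` and for `e, g`: `z` in the open boxes of `x e k = x f l` and of `x e k' = x g m`: the boxes are equal (`orect_inter`), `k = k'` by `x_inj`;
`off.triple` with `ch_eq`.
`cv_cross`: `common`, `off.cross`, `ch_eq`.
-/

namespace Pool.Agent.Helper76.RL

open Pool.Agent.Helper46.RM
open scoped Classical

variable {V E : Type*} (Φ : Pic V E)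

private theorem box_eq30 {z : ℝ × ℝ} {p q : P2} (h : z ∈ orect p p) (h' : z ∈ orect q q) : p = q := by
  obtain ⟨r, hr, hr'⟩ := orect_inter le_rfl le_rfl le_rfl le_rfl h h'
  simp only [rect, Set.mem_ofPred_eq] at hr hr'
  exact Prod.ext (by omega) (by omega)

/-- an interior point of a curve is not a vertex -/
private theorem not_pt30 {e : E} {r : ℝ} (hr : r ∈ Set.Ioo (0 : ℝ) 1) (v : V) :
    Φ.cv e r ≠ Φ.pt v := by
  intro h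
  rcases Φ.cv_avoid e ⟨hr.1.le, hr.2.le⟩ h with h1 | h1
  · exact absurd h1.2 hr.1.ne'
  · exact absurd h1.2 hr.2.ne

private theorem common_int30 {e f : E} (hef : e ≠ f) {s t : ℝ} (hs : s ∈ Set.Ioo (0 : ℝ) 1)
    (ht : t ∈ Set.Icc (0 : ℝ) 1) (h : Φ.cv e s = Φ.cv f t) :
    ∃ k l, 0 < k ∧ k < Φ.N e ∧ 0 < l ∧ l < Φ.N f ∧ Φ.x e k = Φ.x f l ∧
        Φ.cv e s ∈ Φ.ch e k ∧ Φ.cv e s ∈ Φ.ch f l ∧
        Φ.cv e s ∈ orect (Φ.x e k) (Φ.x e k) := by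
  rcases Φ.common hef ⟨hs.1.le, hs.2.le⟩ ht h with ⟨v, hv⟩ | h1
  · exact absurd hv (not_pt30 Φ hs v)
  · exact h1

private theorem sub30 {e f : E} (hef : e ≠ f) {k l : ℕ} (h0 : 0 < k) (hk : k < Φ.N e) (h0' : 0 < l)
    (hl : l < Φ.N f) (hx : Φ.x e k = Φ.x f l) : (Φ.ch e k ∩ Φ.ch f l).Subsingleton := by
  have t1 := Φ.x_thr h0 hk
  have t2 := Φ.x_thr h0' hl
  rw [Φ.ch_eq h0 hk, Φ.ch_eq h0' hl]
  rw [← hx] at t2 ⊢
  obtain ⟨-, a1, a2, a3⟩ := Φ.F.mid t1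
  obtain ⟨-, b1, b2, b3⟩ := Φ.F.mid t2
  have p1 := t1.pass
  have p2 := t2.pass
  refine chord_sub a1 a2 b1 b2 a3 b3 (Φ.off.lt _ _ _) (Φ.off.lt _ _ _) (Φ.off.lt _ _ _) (Φ.off.lt _ _ _) ?_ ?_ ?_ ?_
  · intro h
    rw [← h] at p2 ⊢
    exact Φ.off.ne _ _ _ _ hef p1.1.symm p2.1.symm
  · intro h
    rw [← h] at p2 ⊢
    exact Φ.off.ne _ _ _ _ hef p1.1.symm p2.2
  · intro h
    rw [← h] at p2 ⊢
    exact Φ.off.ne _ _ _ _ hef p1.2 p2.1.symm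
  · intro h
    rw [← h] at p2 ⊢
    exact Φ.off.ne _ _ _ _ hef p1.2 p2.2

theorem Pic.cv_fin {e f : E} (hef : e ≠ f) :
    (Φ.cv e '' Set.Icc 0 1 ∩ Φ.cv f '' Set.Icc 0 1).Finite := by
  have hfin : ({Φ.pt (Φ.st e), Φ.pt (Φ.en e)} ∪
      ⋃ k ∈ Finset.range (Φ.N e), ⋃ l ∈ Finset.range (Φ.N f),
        {z | 0 < k ∧ 0 < l ∧ Φ.x e k = Φ.x f l ∧ z ∈ Φ.ch e k ∩ Φ.ch f l} : Set (ℝ × ℝ)).Finite := by
    refine Set.Finite.union (Set.toFinite _) ?_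
    refine Set.Finite.biUnion (Finset.finite_toSet _) fun k hk => ?_
    refine Set.Finite.biUnion (Finset.finite_toSet _) fun l hl => ?_
    by_cases hc : 0 < k ∧ 0 < l ∧ Φ.x e k = Φ.x f l
    · refine Set.Subsingleton.finite ?_
      intro z hz w hw
      exact sub30 Φ hef hc.1 (Finset.mem_range.1 hk) hc.2.1 (Finset.mem_range.1 hl) hc.2.2 hz.2.2.2 hw.2.2.2
    · refine Set.Finite.subset Set.finite_empty ?_
      intro z hz
      exact hc ⟨hz.1, hz.2.1, hz.2.2.1⟩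
  refine hfin.subset ?_
  rintro z ⟨⟨t, ht, rfl⟩, ⟨t', ht', h⟩⟩
  rcases Φ.common hef ht ht' h.symm with ⟨v, hv⟩ | ⟨k, l, h0, hk, h0', hl, hx, h1, h2, -⟩
  · left
    rcases Φ.cv_avoid e ht hv with h1 | h1
    · left
      rw [hv, h1.1]
    · right
      rw [hv, h1.1]
      rfl
  · right
    simp only [Set.mem_iUnion]
    exact ⟨k, Finset.mem_range.2 hk, l, Finset.mem_range.2 hl, h0, h0', hx, h1, h2⟩

theorem Pic.cv_triple {e f g : E} (hef : e ≠ f) (heg : e ≠ g) (hfg : f ≠ g) {r s t : ℝ}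
    (hr : r ∈ Set.Ioo (0 : ℝ) 1) (hs : s ∈ Set.Ioo (0 : ℝ) 1) (ht : t ∈ Set.Ioo (0 : ℝ) 1)
    (h1 : Φ.cv e r = Φ.cv f s) (h2 : Φ.cv f s = Φ.cv g t) : False := by
  obtain ⟨k, l, h0, hk, h0', hl, hx, m1, m2, m3⟩ := common_int30 Φ hef hr ⟨hs.1.le, hs.2.le⟩ h1
  obtain ⟨k', m, i0, hk', i0', hm, hy, n1, n2, n3⟩ :=
    common_int30 Φ heg hr ⟨ht.1.le, ht.2.le⟩ (h1.trans h2)
  have hkk : k = k' := Φ.x_inj hk.le hk'.le (box_eq30 m3 n3)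
  subst hkk
  have t1 := Φ.x_thr h0 hk
  have t2 := Φ.x_thr h0' hl
  have t3 := Φ.x_thr i0' hm
  rw [Φ.ch_eq h0 hk] at m1
  rw [Φ.ch_eq h0' hl] at m2
  rw [Φ.ch_eq i0' hm] at n2
  rw [← hx] at t2 m2
  rw [← hy] at t3 n2
  exact Φ.off.triple e f g _ _ _ _ _ _ _ hef heg hfg t1 t2 t3 ⟨_, ⟨m1, m2⟩, n2⟩

theorem Pic.cv_cross {e f : E} (hef : e ≠ f) {s t : ℝ}
    (hs : s ∈ Set.Ioo (0 : ℝ) 1) (ht : t ∈ Set.Ioo (0 : ℝ) 1) (h : Φ.cv e s = Φ.cv f t) :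
    Ess (Φ.F.L e) (Φ.F.L f) := by
  obtain ⟨k, l, h0, hk, h0', hl, hx, m1, m2, m3⟩ := common_int30 Φ hef hs ⟨ht.1.le, ht.2.le⟩ h
  have t1 := Φ.x_thr h0 hk
  have t2 := Φ.x_thr h0' hl
  rw [Φ.ch_eq h0 hk] at m1
  rw [Φ.ch_eq h0' hl] at m2
  rw [← hx] at t2 m2
  exact Φ.off.cross e f _ _ _ _ _ hef t1 t2 ⟨_, m1, m2⟩

end Pool.Agent.Helper76.RL
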