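import Pool.Agent.Helper76.RL.Pic
import Pool.Agent.Helper76.RL.Good

/-!
# RL-PX: the routes of a picture by indices

All from `Φ.F.form`, `nodup`, `chain`, `hd`, `la`: `L e = y :: (l ++ [z])`, `l ≠ []`, so `N e = length l + 1 ≥ 2`; `x e 0 = y`, `x e (N e) = z`, `x e k ∈ l` for `0 < k < N e`; consecutive points form an infix
`[x e k, x e (k+1)]` (`List.getD`, `List.take`/`drop`). `x_adj`: `Fam.adj` or `chain`. `x_inj`: no repetition. `x_zero`, `x_last`: `hd`, `la`; `x_out`: a point of `l` is not in `Z`, and `Z_eq`.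
-/

namespace Pool.Agent.Helper76.RL

open Pool.Agent.Helper46.RM
open scoped Classical

variable {V E : Type*} (Φ : Pic V E)

private theorem len63 (e : E) : Φ.N e + 1 = (Φ.F.L e).length := by
  obtain ⟨y, l, z, h, -, -⟩ := Φ.F.form e
  unfold Pic.N
  rw [h]
  simp

private theorem get63 {e : E} {k : ℕ} (hk : k ≤ Φ.N e) :
    ∃ h : k < (Φ.F.L e).length, Φ.x e k = (Φ.F.L e)[k] := by
  have h : k < (Φ.F.L e).length := by
    have := len63 Φ e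
    omega
  exact ⟨h, by unfold Pic.x; rw [List.getD_eq_getElem _ _ h]⟩

theorem Pic.N_ge (e : E) : 2 ≤ Φ.N e := by
  obtain ⟨y, l, z, h, h1, -⟩ := Φ.F.form e
  have h2 := List.length_pos_iff.2 h1
  have h3 := len63 Φ e
  rw [h] at h3
  simp at h3
  omega

theorem Pic.x_pass {e : E} {k : ℕ} (hk : k < Φ.N e) :
    Pass (Φ.F.L e) (Φ.x e k) (Φ.x e (k + 1)) := by
  obtain ⟨h1, h2⟩ := get63 Φ (e := e) (k := k) hk.le
  obtain ⟨h3, h4⟩ := get63 Φ (e := e) (k := k + 1) hk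
  left
  rw [h2, h4]
  refine ⟨(Φ.F.L e).take k, (Φ.F.L e).drop (k + 2), ?_⟩
  conv_rhs => rw [← List.take_append_drop k (Φ.F.L e)]
  rw [List.drop_eq_getElem_cons h1, List.drop_eq_getElem_cons h3]
  simp

theorem Pic.x_adj {e : E} {k : ℕ} (hk : k < Φ.N e) : LAdj (Φ.x e k) (Φ.x e (k + 1)) := by
  exact Φ.F.adj (Φ.x_pass hk)

theorem Pic.x_inj {e : E} {k l : ℕ} (hk : k ≤ Φ.N e) (hl : l ≤ Φ.N e)
    (h : Φ.x e k = Φ.x e l) : k = l := by
  obtain ⟨h1, h2⟩ := get63 Φ hk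
  obtain ⟨h3, h4⟩ := get63 Φ hl
  rw [h2, h4] at h
  exact (Φ.F.nodup e).getElem_inj_iff.1 h

theorem Pic.x_zero (e : E) : Φ.x e 0 ∈ rect (Φ.lo (Φ.st e)) (Φ.hi (Φ.st e)) := by
  obtain ⟨y, hy, h⟩ := Φ.hd e
  obtain ⟨h1, h2⟩ := get63 Φ (e := e) (k := 0) (Nat.zero_le _)
  have h3 : Φ.x e 0 = y := by
    rw [h2]
    rw [List.head?_eq_getElem?, List.getElem?_eq_getElem h1] at h
    exact Option.some.inj h
  rw [h3]
  exact hy

theorem Pic.x_last (e : E) : Φ.x e (Φ.N e) ∈ rect (Φ.lo (Φ.en e)) (Φ.hi (Φ.en e)) := by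
  obtain ⟨y, hy, h⟩ := Φ.la e
  obtain ⟨h1, h2⟩ := get63 Φ (e := e) (k := Φ.N e) le_rfl
  have h3 : Φ.x e (Φ.N e) = y := by
    rw [h2]
    rw [List.getLast?_eq_getElem?] at h
    change (Φ.F.L e)[Φ.N e]? = some y at h
    rw [List.getElem?_eq_getElem h1] at h
    exact Option.some.inj h
  rw [h3]
  exact hy

theorem Pic.x_out {e : E} {k : ℕ} (h0 : 0 < k) (hk : k < Φ.N e) (v : V) :
    Φ.x e k ∉ rect (Φ.lo v) (Φ.hi v) := by
  intro hv
  have hZ : Φ.x e k ∈ Φ.F.Z := by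
    rw [Φ.Z_eq]
    exact ⟨v, hv⟩
  obtain ⟨y, l, z, h, -, -, -, h4⟩ := Φ.F.form e
  obtain ⟨h1, h2⟩ := get63 Φ hk.le
  refine h4 _ ?_ hZ
  have h5 := len63 Φ e
  rw [h] at h5
  simp at h5
  obtain ⟨j, rfl⟩ : ∃ j, k = j + 1 := ⟨k - 1, by omega⟩
  have h6 : j < l.length := by omega
  rw [h2]
  simp only [h, List.getElem_cons_succ]
  rw [List.getElem_append_left h6]
  exact List.getElem_mem h6

theorem Pic.x_thr {e : E} {k : ℕ} (h0 : 0 < k) (hk : k < Φ.N e) :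
    Thr (Φ.F.L e) (Φ.x e (k - 1)) (Φ.x e k) (Φ.x e (k + 1)) := by
  obtain ⟨j, rfl⟩ : ∃ j, k = j + 1 := ⟨k - 1, by omega⟩
  rw [Nat.add_sub_cancel]
  obtain ⟨h1, h2⟩ := get63 Φ (e := e) (k := j) (by omega)
  obtain ⟨h3, h4⟩ := get63 Φ (e := e) (k := j + 1) (by omega)
  obtain ⟨h5, h6⟩ := get63 Φ (e := e) (k := j + 1 + 1) (by omega)
  left
  rw [h2, h4, h6]
  refine ⟨(Φ.F.L e).take j, (Φ.F.L e).drop (j + 3), ?_⟩
  conv_rhs => rw [← List.take_append_drop j (Φ.F.L e)]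
  rw [List.drop_eq_getElem_cons h1, List.drop_eq_getElem_cons h3, List.drop_eq_getElem_cons h5]
  simp

end Pool.Agent.Helper76.RL
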